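import Mathlib.Topology.Sheaves.Presheaf
import Pool.Agent.MP_35cb46_co.Fat

-- ======== part 0: formerly Pool.Agent.MP_35cb46_co.sq.Spec
section MrgPart0

/-! Definitions, module statements and small lemmas for the bound `p ^ 2 * q * polylog`. -/

namespace Pool.Agent.MP_35cb46_co.Sq

open Finset Pool.Agent.MP_7be75d_co
open scoped Classical

/-- `φ` is a model of `H` restricted to `U'` inside the vertex set `U` of `G`. -/
structure Model {V W : Type} (G : SimpleGraph V) (U : Finset V) (H : SimpleGraph W)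
    (U' : Finset W) (φ : W → Finset V) : Prop where
  sub : ∀ w ∈ U', φ w ⊆ U
  conn : ∀ w ∈ U', Conn G (φ w)
  disj : ∀ w ∈ U', ∀ w' ∈ U', w ≠ w' → Disjoint (φ w) (φ w')
  adj : ∀ w ∈ U', ∀ w' ∈ U', H.Adj w w' → Touch G (φ w) (φ w')

/-- The vertices of `U'` whose branch set meets `A`. -/
noncomputable def tr {V W : Type} (U' : Finset W) (φ : W → Finset V) (A : Finset V) : Finset W :=
  U'.filter fun w => ¬ Disjoint (φ w) A

/-- Degrees inside `U` are at most `Δ`. -/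
def Deg {V : Type} (H : SimpleGraph V) (U : Finset V) (Δ : ℕ) : Prop :=
  ∀ v ∈ U, (U.filter fun u => H.Adj v u).card ≤ Δ

/-- `U` carries a haven of order `k`. -/
def Rich {V : Type} (G : SimpleGraph V) (U : Finset V) (k : ℕ) : Prop := ∃ β, Haven G U k β

/-- The graph obtained by contracting the sets `S i`. -/
def quot {V J : Type} (G : SimpleGraph V) (S : J → Finset V) : SimpleGraph J :=
  SimpleGraph.fromRel fun a b => ∃ x ∈ S a, ∃ y ∈ S b, G.Adj x y

/-- Number of points of `S` sent out of `S`. -/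
noncomputable def cr {ι : Type} (μ : ι → ι) (S : Finset ι) : ℕ := (S.filter fun u => μ u ∉ S).card

/-- Balanced cuts, given by their smaller side. -/
def Bal {ι : Type} [Fintype ι] (S : Finset ι) : Prop :=
  Fintype.card ι ≤ 4 * S.card ∧ 2 * S.card ≤ Fintype.card ι

/-- A matching `μ` (an involution) between tokens `L x`, realised by disjoint connected sets. -/
structure Rnd {V ι : Type} (G : SimpleGraph V) (L : ι → Finset V) (μ : ι → ι)
    (W : ι → Finset V) : Prop where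
  inv : ∀ x, μ (μ x) = x
  conn : ∀ x, μ x ≠ x → Conn G (W x)
  left : ∀ x, μ x ≠ x → ¬ Disjoint (W x) (L x)
  right : ∀ x, μ x ≠ x → ¬ Disjoint (W x) (L (μ x))
  disj : ∀ x y, μ x ≠ x → μ y ≠ y → x ≠ y → μ x ≠ y → Disjoint (W x) (W y)

/-- Disjoint connected subsets of `U`. -/
structure Tok {V ι : Type} (G : SimpleGraph V) (U : Finset V) (L : ι → Finset V) : Prop where
  sub : ∀ i, L i ⊆ U
  conn : ∀ i, Conn G (L i)
  disj : ∀ i j, i ≠ j → Disjoint (L i) (L j)

/-- CM: the cut-matching game, existential form. -/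
def CMStmt : Prop := ∀ (ι : Type) [Fintype ι] (g T Λ : ℕ) (St : ℕ → (ℕ → ι → ι) → Prop),
  Fintype.card ι ≤ 2 ^ Λ → 12 * Fintype.card ι * Λ < T * g → St 0 (fun _ => id) →
  (∀ t < T, ∀ M, St t M → ∀ S : Finset ι, Bal S →
    ∃ μ : ι → ι, (∀ u, μ (μ u) = u) ∧ g ≤ cr μ S ∧ St (t + 1) (Function.update M t μ)) →
  ∃ t ≤ T, ∃ M, St t M ∧ ∀ S : Finset ι, Bal S → g < 6 * ∑ j ∈ range t, cr (M j) S

/-- EL: an embedded expander gives a haven. -/
def ELStmt : Prop := ∀ (V ι : Type) [Fintype ι] (G : SimpleGraph V) (U : Finset V)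
  (L : ι → Finset V) (t g k : ℕ) (M : ℕ → ι → ι) (W : ℕ → ι → Finset V),
  Tok G U L → (∀ j < t, Rnd G L (M j) (W j)) → (∀ j < t, ∀ x, M j x ≠ x → W j x ⊆ U) →
  (∀ S : Finset ι, Bal S → g < 6 * ∑ j ∈ range t, cr (M j) S) → 18 * t * k ≤ g →
  4 * k ≤ Fintype.card ι → Rich G U (k + 1)

/-- INV: a family of disjoint connections across a cut, as an involution. -/
def InvStmt : Prop := ∀ (V ι κ : Type) [Fintype κ] (G : SimpleGraph V) (L : ι → Finset V)
  (S : Finset ι) (u v : κ → ι) (Q : κ → Finset V),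
  Function.Injective u → Function.Injective v → (∀ k, u k ∈ S) → (∀ k, v k ∉ S) →
  (∀ k, Conn G (Q k)) → (∀ k k', k ≠ k' → Disjoint (Q k) (Q k')) →
  (∀ k, ¬ Disjoint (Q k) (L (u k))) → (∀ k, ¬ Disjoint (Q k) (L (v k))) →
  ∃ μ W, Rnd G L μ W ∧ Fintype.card κ ≤ cr μ S ∧ ∀ x, μ x ≠ x → ∃ k, W x = Q k

/-- PULL: havens lift along models. -/
def PullStmt : Prop := ∀ (V W : Type) (G : SimpleGraph V) (U : Finset V) (H : SimpleGraph W)
  (U' X : Finset W) (φ : W → Finset V) (k : ℕ), Model G U H U' φ → X ⊆ U' → Rich H X k →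
  Rich G (X.biUnion φ) k

/-- The paths `f i 0, …, f i (L i)` have no repeated and no common vertices. -/
def PInj {V ι : Type} (L : ι → ℕ) (f : ι → ℕ → V) : Prop :=
  ∀ i i' j j', j ≤ L i → j' ≤ L i' → f i j = f i' j' → i = i' ∧ j = j'

/-- The labelling reads `0 … 0 1 2 … 2` along every path, and label `1` occurs on paths only. -/
def Cut {V ι : Type} (lab : V → Fin 3) (L : ι → ℕ) (f : ι → ℕ → V) : Prop :=
  (∀ i, ∃ z ≤ L i, ∀ j ≤ L i, lab (f i j) = if j < z then 0 else if j = z then 1 else 2) ∧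
    ∀ v, lab v = 1 → ∃ i j, j ≤ L i ∧ v = f i j

/-- No step of a path joins label `0` and label `2`. -/
def Cross {V ι : Type} (lab : V → Fin 3) (L : ι → ℕ) (f : ι → ℕ → V) : Prop :=
  ∀ i j, j < L i → ¬ (lab (f i j) = 0 ∧ lab (f i (j + 1)) = 2) ∧
    ¬ (lab (f i j) = 2 ∧ lab (f i (j + 1)) = 0)

/-- COUNT: two path systems in which every step of one lies in a tight cut of the other. -/
def CountStmt : Prop := ∀ (V ι κ : Type) [Fintype V] [Fintype ι] [Fintype κ] (U : Finset V)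
  (Lr : ι → ℕ) (r : ι → ℕ → V) (Lb : κ → ℕ) (b : κ → ℕ → V), PInj Lr r → PInj Lb b →
  (∀ v ∈ U, (∃ i j, j ≤ Lr i ∧ v = r i j) ∨ ∃ k j, j ≤ Lb k ∧ v = b k j) →
  (∀ i j, j < Lr i → ∃ lab, Cut lab Lb b ∧ Cross lab Lr r ∧
    lab (r i j) = 1 ∧ lab (r i (j + 1)) = 1) →
  (∀ k j, j < Lb k → ∃ lab, Cut lab Lr r ∧ Cross lab Lb b ∧
    lab (b k j) = 1 ∧ lab (b k (j + 1)) = 1) →
  U.card ≤ 2 * (Fintype.card ι + Fintype.card κ) ^ 3

/-- SP: a small minor of maximum degree four that keeps two linkages. -/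
def SpStmt : Prop := ∀ (V ι κ : Type) [Fintype V] [Fintype ι] [Fintype κ] (G : SimpleGraph V)
  (U A B S T : Finset V) (P : ι → Finset V) (Q : κ → Finset V),
  Linkage G U A B P → Linkage G U S T Q →
  ∃ (H : SimpleGraph V) (U' : Finset V) (φ : V → Finset V) (P' : ι → Finset V)
    (Q' : κ → Finset V), U' ⊆ U ∧ Model G U H U' φ ∧
    Linkage H U' (tr U' φ A) (tr U' φ B) P' ∧ Linkage H U' (tr U' φ S) (tr U' φ T) Q' ∧
    Deg H U' 4 ∧ U'.card ≤ 2 * (Fintype.card ι + Fintype.card κ) ^ 3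

/-- Data of one round of the game, played inside one cluster. -/
structure RD (V ι : Type) where
  H : SimpleGraph V
  U : Finset V
  φ : V → Finset V
  P : ι → Finset V
  s : ι → V
  e : ι → V
  W : ι → Finset V

/-- Token `i` enters the cluster at `a (σ i)` and leaves it at `b (σ' i)`. -/
structure RoundOK {V ι : Type} (G : SimpleGraph V) (R : Finset V) (a b : ι → V)
    (σ σ' μ : ι → ι) (N : ℕ) (D : RD V ι) : Prop where
  sub : D.U ⊆ R
  model : Model G R D.H D.U D.φ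
  deg : Deg D.H D.U 4
  card : D.U.card ≤ N
  tok : Tok D.H D.U D.P
  smem : ∀ i, D.s i ∈ D.P i
  emem : ∀ i, D.e i ∈ D.P i
  sa : ∀ i, a (σ i) ∈ D.φ (D.s i)
  eb : ∀ i, b (σ' i) ∈ D.φ (D.e i)
  rnd : Rnd D.H D.P μ D.W
  wsub : ∀ x, μ x ≠ x → D.W x ⊆ D.U

/-- ROUND: one round. -/
def RoundStmt : Prop := ∀ (V ι : Type) [Fintype V] [Fintype ι] (G : SimpleGraph V) (R : Finset V)
  (a b : ι → V) (σ : ι → ι) (S : Finset ι), SC G R a b → 1 < Fintype.card ι →
  Function.Injective σ → Bal S →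
  ∃ (σ' μ : ι → ι) (D : RD V ι), Function.Injective σ' ∧ S.card ≤ cr μ S ∧
    RoundOK G R a b σ σ' μ (16 * Fintype.card ι ^ 3) D

/-- GLUE: the rounds together. -/
def GlueStmt : Prop := ∀ (V ι : Type) [Fintype V] [Fintype ι] (G : SimpleGraph V) (l t N : ℕ)
  (U0 : Finset V) (R : ℕ → Finset V) (A B : ℕ → ι → V) (σ M : ℕ → ι → ι) (D : ℕ → RD V ι),
  Ch G U0 l R A B → 1 ≤ t → t ≤ l →
  (∀ j < t, RoundOK G (R j) (A j) (B j) (σ j) (σ (j + 1)) (M j) N (D j)) →
  ∃ (H : SimpleGraph V) (U : Finset V) (φ : V → Finset V) (L : ι → Finset V),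
    Model G univ H U φ ∧ Deg H U 6 ∧ U.card ≤ t * N ∧ Tok H U L ∧
    (∀ j < t, Rnd H L (M j) (D j).W) ∧ ∀ j < t, ∀ x, M j x ≠ x → (D j).W x ⊆ U

/-- SPARSE: a small minor of bounded degree with a haven. -/
def SparseStmt : Prop := ∀ (V : Type) [Fintype V] (G : SimpleGraph V) (g k Λ l : ℕ)
  (U0 : Finset V) (R : ℕ → Finset V) (A B : ℕ → Fin (4 * g) → V), Ch G U0 l R A B →
  49 * Λ ≤ l → 1 ≤ Λ → 1 ≤ k → 4 * g ≤ 2 ^ Λ → 18 * (49 * Λ) * k ≤ g →
  ∃ (H : SimpleGraph V) (U : Finset V) (φ : V → Finset V), Model G univ H U φ ∧ Deg H U 6 ∧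
    U.card ≤ 49 * Λ * (16 * (4 * g) ^ 3) ∧ Rich H U (k + 1)

/-- Total weight between two sets. -/
def cw {κ : Type} (w : κ → κ → ℕ) (A B : Finset κ) : ℕ := ∑ a ∈ A, ∑ b ∈ B, w a b

/-- Volume of a set. -/
def vol {κ : Type} [Fintype κ] (w : κ → κ → ℕ) (A : Finset κ) : ℕ := cw w A univ

/-- The graph of pairs of positive weight. -/
def qg {κ : Type} (w : κ → κ → ℕ) : SimpleGraph κ := SimpleGraph.fromRel fun a b => 0 < w a b

/-- A weighted graph with volumes of points in `[1, b]` and total volume below `2 ^ Λ`. -/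
structure WG {κ : Type} [Fintype κ] (w : κ → κ → ℕ) (b Λ : ℕ) : Prop where
  symm : ∀ a c, w a c = w c a
  loop : ∀ a, w a a = 0
  le : ∀ a, vol w {a} ≤ b
  pos : ∀ a, 0 < vol w {a}
  tot : vol w univ < 2 ^ Λ

/-- Conductance at least `1 / F` inside `X`, for the volumes of the whole weighted graph. -/
def Expd {κ : Type} [Fintype κ] (w : κ → κ → ℕ) (X : Finset κ) (F : ℕ) : Prop :=
  ∀ A ⊆ X, 2 * vol w A ≤ vol w X → vol w A ≤ F * cw w A (X \ A)

/-- SUBEXP: a dense set contains a dense expander. -/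
def SubExpStmt : Prop := ∀ (κ : Type) [Fintype κ] (w : κ → κ → ℕ) (b Λ : ℕ) (Y : Finset κ),
  WG w b Λ → Y.Nonempty → vol w Y ≤ 3 * cw w Y Y →
  ∃ X ⊆ Y, X.Nonempty ∧ vol w X ≤ 4 * cw w X X ∧ Expd w X (24 * Λ)

/-- HUB: many connected sets of volume about `b`. -/
def HubStmt : Prop := ∀ (κ : Type) [Fintype κ] (w : κ → κ → ℕ) (b Λ F n : ℕ) (X : Finset κ),
  WG w b Λ → Expd w X F → 2 * b * n * (F + 1) < vol w X →
  ∃ L : Fin n → Finset κ, Tok (qg w) X L ∧ ∀ i, b ≤ vol w (L i) ∧ vol w (L i) ≤ 2 * b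

/-- PATH: many short disjoint connections across a balanced cut. -/
def PathStmt : Prop := ∀ (κ ι : Type) [Fintype κ] [Fintype ι] (w : κ → κ → ℕ) (b Λ F g l : ℕ)
  (X : Finset κ) (L : ι → Finset κ) (S : Finset ι), WG w b Λ → Expd w X F → 1 ≤ F →
  Tok (qg w) X L → (∀ i, b ≤ vol w (L i)) → Bal S → 4 * F * Λ + 2 ≤ l →
  16 * F * l * g ≤ Fintype.card ι →
  ∃ (u v : Fin g → ι) (Q : Fin g → Finset κ), Function.Injective u ∧ Function.Injective v ∧
    (∀ k, u k ∈ S) ∧ (∀ k, v k ∉ S) ∧ Tok (qg w) X Q ∧ (∀ k, (Q k).card ≤ l) ∧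
    (∀ k, ¬ Disjoint (Q k) (L (u k))) ∧ ∀ k, ¬ Disjoint (Q k) (L (v k))

/-- CORE: a dense set contains a good set of small volume. -/
def CoreStmt : Prop := ∃ c : ℕ, ∀ (κ : Type) [Fintype κ] (w : κ → κ → ℕ) (b Λ k : ℕ)
  (Gd : Finset κ → Prop), WG w b Λ → 1 ≤ k → (∀ X, ¬ Gd X → 6 * cw w X X ≤ vol w X) →
  (∀ X, Rich (qg w) X (k + 1) → Gd X) → ∀ Y : Finset κ, Y.Nonempty → vol w Y ≤ 3 * cw w Y Y →
  ∃ X ⊆ Y, Gd X ∧ vol w X ≤ c * b * k * Λ ^ 13

/-- ATTACH: a partition into connected good sets of small volume. -/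
def AttachStmt : Prop := ∀ (κ : Type) [Fintype κ] (w : κ → κ → ℕ) (b Λ B : ℕ)
  (Gd : Finset κ → Prop), WG w b Λ → (∀ X X', X ⊆ X' → Gd X → Gd X') →
  (∀ Y : Finset κ, Y.Nonempty → vol w Y ≤ 3 * cw w Y Y →
    ∃ X ⊆ Y, Conn (qg w) X ∧ Gd X ∧ vol w X ≤ B) →
  ∃ (n : ℕ) (P : Fin n → Finset κ), Tok (qg w) univ P ∧ (∀ a, ∃ j, a ∈ P j) ∧
    ∀ j, Gd (P j) ∧ vol w (P j) ≤ 7 * B + 12 * b * Λ

/-- Indicator of adjacency. -/
noncomputable def aw {V : Type} (G : SimpleGraph V) (x y : V) : ℕ := if G.Adj x y then 1 else 0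

/-- Number of edges leaving `F` inside `U`. -/
noncomputable def eout {V : Type} (G : SimpleGraph V) (U F : Finset V) : ℕ := cw (aw G) F (U \ F)

/-- The family `QQ` is a partition of `F` into connected sets. -/
structure Part {V : Type} (G : SimpleGraph V) (F : Finset V) (QQ : Finset (Finset V)) : Prop where
  conn : ∀ C ∈ QQ, Conn G C
  disj : ∀ C ∈ QQ, ∀ C' ∈ QQ, C ≠ C' → Disjoint C C'
  un : QQ.biUnion id = F

/-- RECL: a set without a haven of order `t + 1` splits cheaply into parts of small boundary. -/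
def ReclStmt : Prop := ∀ (V : Type) (G : SimpleGraph V) (U F : Finset V) (Δ t : ℕ),
  Deg G U Δ → F ⊆ U → ¬ Rich G F (t + 1) →
  ∃ QQ, Part G F QQ ∧ (∀ C ∈ QQ, eout G U C ≤ 48 * Δ ^ 2 * t) ∧
    5 * ∑ C ∈ QQ, eout G U C ≤ 6 * eout G U F

/-- CLUS: an optimal clustering. -/
def ClusStmt : Prop := ∀ (V : Type) (G : SimpleGraph V) (U : Finset V) (β : Finset V → Finset V)
  (Δ t K : ℕ), Deg G U Δ → Haven G U K β → 1 ≤ t → 48 * Δ ^ 2 * t + t + 1 < K →
  ∃ PP, Part G U PP ∧ (∀ C ∈ PP, Small G U K β C ∧ eout G U C ≤ 48 * Δ ^ 2 * t) ∧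
    ∀ XX ⊆ PP, ¬ Rich G (XX.biUnion id) (t + 1) →
      5 * ∑ C ∈ XX, eout G U C ≤ 6 * eout G U (XX.biUnion id)

/-- QUOT: contracting small sets of small boundary keeps a haven. -/
def QuotStmt : Prop := ∀ (V J : Type) [Fintype J] (G : SimpleGraph V) (U : Finset V)
  (β : Finset V → Finset V) (K B q : ℕ) (S : J → Finset V), Haven G U K β →
  (∀ i j, i ≠ j → Disjoint (S i) (S j)) → (∀ v ∈ U, ∃ j, v ∈ S j) →
  (∀ j, Small G U K β (S j) ∧ (bd G U (S j)).card ≤ B) → q * B < K →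
  Rich (quot G S) univ q

/-- PIECE: the theorem for small graphs of bounded degree. -/
def PieceStmt : Prop := ∃ c : ℕ, ∀ (V : Type) [Fintype V] (G : SimpleGraph V) (U : Finset V)
  (p q Λ K : ℕ), Deg G U 6 → 6 * U.card < 2 ^ Λ → 1 ≤ p → 1 ≤ q → 1 ≤ Λ → Rich G U K →
  c * p ^ 2 * q * Λ ^ 13 ≤ K →
  ∃ (n : ℕ) (S : Fin n → Finset V), Tok G U S ∧ (∀ i, Rich G (S i) (p + 1)) ∧
    Rich (quot G S) univ q

/-- The theorem with havens and binary logarithms. -/
def MainStmt : Prop := ∃ c : ℕ, ∀ (p q : ℕ) (V : Type) [Fintype V] (G : SimpleGraph V),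
  1 ≤ p → 1 ≤ q → c * p ^ 2 * q * (Nat.log 2 (p * q) + 1) ^ c ≤ treewidth G →
  ∃ (n : ℕ) (S : Fin n → Finset V), Tok G univ S ∧ (∀ i, Rich G (S i) (2 * p + 1)) ∧
    Rich (quot G S) univ (2 * q + 1)

section Lemmas

variable {κ : Type} {w : κ → κ → ℕ} {A B A' B' : Finset κ}

theorem cw_mono (hA : A ⊆ A') (hB : B ⊆ B') : cw w A B ≤ cw w A' B' :=
  (sum_le_sum fun _ _ => sum_le_sum_of_subset hB).trans (sum_le_sum_of_subset hA)

theorem cw_comm (h : ∀ a c, w a c = w c a) (A B : Finset κ) : cw w A B = cw w B A := by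
  unfold cw
  rw [sum_comm]
  exact sum_congr rfl fun _ _ => sum_congr rfl fun _ _ => h _ _

theorem cw_union_left (h : Disjoint A A') : cw w (A ∪ A') B = cw w A B + cw w A' B := sum_union h

theorem cw_union_right (h : Disjoint B B') : cw w A (B ∪ B') = cw w A B + cw w A B' := by
  unfold cw
  rw [← sum_add_distrib]
  exact sum_congr rfl fun _ _ => sum_union h

theorem cw_union_left_le : cw w (A ∪ A') B ≤ cw w A B + cw w A' B := by
  have := sum_union_inter (s₁ := A) (s₂ := A') (f := fun a => ∑ b ∈ B, w a b)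
  unfold cw
  omega

theorem cw_union_right_le : cw w A (B ∪ B') ≤ cw w A B + cw w A B' := by
  unfold cw
  rw [← sum_add_distrib]
  refine sum_le_sum fun a _ => ?_
  have := sum_union_inter (s₁ := B) (s₂ := B') (f := w a)
  omega

theorem cw_sdiff_left (h : A' ⊆ A) : cw w (A \ A') B + cw w A' B = cw w A B := sum_sdiff h

theorem cw_sdiff_right (h : B' ⊆ B) : cw w A (B \ B') + cw w A B' = cw w A B := by
  unfold cw
  rw [← sum_add_distrib]
  exact sum_congr rfl fun _ _ => sum_sdiff h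

theorem cw_eq_sum (A B : Finset κ) : cw w A B = ∑ a ∈ A, cw w {a} B := by simp [cw]

theorem cw_eq_zero : cw w A B = 0 ↔ ∀ a ∈ A, ∀ b ∈ B, w a b = 0 := by simp [cw]

theorem exists_of_cw_pos (h : 0 < cw w A B) : ∃ a ∈ A, ∃ b ∈ B, 0 < w a b := by
  by_contra hc
  push Not at hc
  exact h.ne' (cw_eq_zero.2 fun a ha b hb => Nat.le_zero.1 (hc a ha b hb))

theorem cw_biUnion_le {ι : Type} (s : Finset ι) (S : ι → Finset κ) :
    cw w (s.biUnion S) B ≤ ∑ i ∈ s, cw w (S i) B := sum_biUnion_le' s S _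

theorem cw_biUnion {ι : Type} {s : Finset ι} {S : ι → Finset κ}
    (h : ∀ i ∈ s, ∀ j ∈ s, i ≠ j → Disjoint (S i) (S j)) :
    cw w (s.biUnion S) B = ∑ i ∈ s, cw w (S i) B := sum_biUnion h

variable [Fintype κ] {b Λ : ℕ}

theorem vol_mono (h : A ⊆ A') : vol w A ≤ vol w A' := cw_mono h subset_rfl

theorem cw_le_vol : cw w A B ≤ vol w A := cw_mono subset_rfl (subset_univ _)

theorem WG.cw_le_vol (h : WG w b Λ) : cw w A B ≤ vol w B := cw_comm h.symm A B ▸ Sq.cw_le_vol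

theorem WG.vol_le (h : WG w b Λ) (A : Finset κ) : vol w A ≤ A.card * b := by
  rw [vol, cw_eq_sum]
  exact sum_le_card_nsmul _ _ _ fun a _ => h.le a

theorem WG.card_le (h : WG w b Λ) (A : Finset κ) : A.card ≤ vol w A := by
  rw [vol, cw_eq_sum, card_eq_sum_ones]
  exact sum_le_sum fun a _ => h.pos a

theorem WG.vol_pos (h : WG w b Λ) (hA : A.Nonempty) : 0 < vol w A :=
  hA.card_pos.trans_le (h.card_le A)

theorem WG.vol_lt (h : WG w b Λ) (A : Finset κ) : vol w A < 2 ^ Λ :=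
  (vol_mono (subset_univ A)).trans_lt h.tot

theorem WG.adj (h : WG w b Λ) {a c : κ} : (qg w).Adj a c ↔ 0 < w a c := by
  rw [qg, SimpleGraph.fromRel_adj, h.symm c a, or_self]
  exact ⟨fun h' => h'.2, fun h' => ⟨fun e => by simp [e, h.loop] at h', h'⟩⟩

theorem WG.one_le (h : WG w b Λ) (a : κ) : 1 ≤ b ∧ 1 ≤ Λ := by
  refine ⟨(h.pos a).trans_le (h.le a), Nat.pos_of_ne_zero fun e => ?_⟩
  have h1 := h.vol_lt {a}
  have h2 := h.pos a
  rw [e] at h1
  omega

variable {V : Type} {G G' : SimpleGraph V} {U U' F : Finset V} {k k' : ℕ}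

theorem aw_comm (x y : V) : aw G x y = aw G y x := by simp [aw, G.adj_comm]

theorem cw_aw_single (v : V) : cw (aw G) {v} U = (U.filter fun u => G.Adj v u).card := by
  simp [cw, aw]

theorem Deg.mono {Δ : ℕ} (h : Deg G U Δ) (hU : U' ⊆ U) : Deg G U' Δ := fun v hv =>
  (card_le_card (filter_subset_filter _ hU)).trans (h v (hU hv))

theorem Deg.cw_le {Δ : ℕ} (h : Deg G U Δ) (hF : F ⊆ U) (hU : U' ⊆ U) :
    cw (aw G) F U' ≤ F.card * Δ := by
  rw [cw_eq_sum]
  refine sum_le_card_nsmul _ _ _ fun v hv => ?_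
  rw [cw_aw_single]
  exact (card_le_card (filter_subset_filter _ hU)).trans (h v (hF hv))

theorem card_bd_le : (bd G U F).card ≤ eout G U F := by
  refine le_trans ?_ (cw_mono (bd_subset (G := G) (U := U)) subset_rfl)
  rw [cw_eq_sum, card_eq_sum_ones]
  refine sum_le_sum fun v hv => ?_
  obtain ⟨-, u, h1, h2, h3⟩ := mem_bd.1 hv
  rw [cw_aw_single]
  exact card_pos.2 ⟨u, mem_filter.2 ⟨mem_sdiff.2 ⟨h1, h2⟩, h3⟩⟩

theorem Rich.mono (h : Rich G U k) (hG : G ≤ G') (hU : U ⊆ U') (hk : k' ≤ k) : Rich G' U' k' := by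
  obtain ⟨β, h1⟩ := h
  obtain ⟨β', h3, -⟩ := exists_haven (G := G') (U := U') (K := k') β
    (fun Z hZ => ⟨(h1.conn Z (by omega)).mono' fun u v huv _ _ => hG huv,
      (h1.sub Z (by omega)).trans (sdiff_subset_sdiff hU subset_rfl)⟩)
    (fun Z Z' hZZ hZ' => by
      obtain ⟨v, hv⟩ := (h1.conn Z' (by omega)).1
      exact ⟨v, h1.mono _ _ hZZ (by omega) hv, hv⟩)
  exact ⟨β', h3⟩

theorem rich_of_linked {X : Finset V} (h : Linked G U X k) : Rich G U (k + 1) :=
  h.haven.imp fun _ h => h.1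

theorem Rich.le_treewidth (h : Rich G U (2 * k + 1)) : k ≤ treewidth (G.induce (U : Set V)) := by
  obtain ⟨β, h1⟩ := h
  exact ((fat_of_haven h1 (t := k) (by omega)).mono le_rfl (h1.subU (by simp))).le_treewidth

/-- The parts of a partition that meet a connected set are connected in the quotient. -/
theorem conn_trace {J : Type} [Fintype J] {Γ : SimpleGraph J} {S : J → Finset V} {T : Finset V}
    (hT : Conn G T) (hd : ∀ i j, i ≠ j → Disjoint (S i) (S j)) (hc : ∀ v ∈ T, ∃ j, v ∈ S j)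
    (hA : ∀ i j, i ≠ j → Touch G (S i) (S j) → Γ.Adj i j) :
    Conn Γ (univ.filter fun j => ¬ Disjoint (S j) T) := by
  have hm : ∀ j, ∀ v ∈ T, v ∈ S j → j ∈ univ.filter fun j => ¬ Disjoint (S j) T :=
    fun j v h1 h2 => mem_filter.2 ⟨mem_univ _, not_disjoint_iff.2 ⟨v, h2, h1⟩⟩
  obtain ⟨a, ha⟩ := hT.1
  obtain ⟨i, hi⟩ := hc a ha
  refine Conn.of_center (hm i a ha hi) fun j hj => ?_
  obtain ⟨v, h1, h2⟩ := not_disjoint_iff.1 (mem_filter.1 hj).2
  refine (hT.2 a ha v h2).ind (P := fun v => ∀ j, v ∈ S j →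
    R Γ (univ.filter fun j => ¬ Disjoint (S j) T) i j) (fun j hj => ?_) ?_ j h1
  · by_cases e : i = j
    · exact e ▸ R.refl
    · exact absurd hj (disjoint_left.1 (hd i j e) hi)
  · intro x y _ hx hxy hxT hyT j hj
    obtain ⟨j', hj'⟩ := hc x hxT
    by_cases e : j' = j
    · exact e ▸ hx j' hj'
    · exact (hx j' hj').tail (hA _ _ e ⟨x, hj', y, hj, hxy⟩) (hm _ x hxT hj') (hm _ y hyT hj)

end Lemmas

end Pool.Agent.MP_35cb46_co.Sq

end MrgPart0

-- ======== part 1: formerly Pool.Agent.MP_35cb46_co.sq.Spars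
section MrgPart1

/-! A small minor of maximum degree four that keeps two linkages. -/

namespace Pool.Agent.MP_35cb46_co.Sq

open Finset Pool.Agent.MP_7be75d_co
open scoped Classical

namespace Spars

section Count

variable {V ι κ : Type}

/-- A step of a path system. -/
def RS (L : ι → ℕ) (f : ι → ℕ → V) (x y : V) : Prop :=
  ∃ i j, j < L i ∧ x = f i j ∧ y = f i (j + 1)

/-- A vertex of a path system. -/
def On (L : ι → ℕ) (f : ι → ℕ → V) (x : V) : Prop := ∃ i j, j ≤ L i ∧ x = f i j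

variable {L : ι → ℕ} {f : ι → ℕ → V} {x y z : V} {lab : V → Fin 3}

theorem RS.right (h : PInj L f) (h1 : RS L f x y) (h2 : RS L f x z) : y = z := by
  obtain ⟨i, j, hj, rfl, rfl⟩ := h1
  obtain ⟨i', j', hj', e, rfl⟩ := h2
  obtain ⟨rfl, rfl⟩ := h i i' j j' hj.le hj'.le e
  rfl

theorem RS.left (h : PInj L f) (h1 : RS L f x z) (h2 : RS L f y z) : x = y := by
  obtain ⟨i, j, hj, rfl, rfl⟩ := h1
  obtain ⟨i', j', hj', rfl, e⟩ := h2
  obtain ⟨rfl, e'⟩ := h i i' (j + 1) (j' + 1) hj hj' e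
  obtain rfl : j = j' := by omega
  rfl

theorem cut_step (h : Cut lab L f) (h1 : RS L f x y) : lab x = 0 ∨ lab y = 2 := by
  obtain ⟨i, j, hj, rfl, rfl⟩ := h1
  obtain ⟨z, -, hz⟩ := h.1 i
  by_cases hjz : j < z
  · left
    rw [hz j hj.le, if_pos hjz]
  · right
    rw [hz (j + 1) hj, if_neg (by omega), if_neg (by omega)]

theorem cross_step (h : Cross lab L f) (h1 : RS L f x y) :
    ¬ (lab x = 0 ∧ lab y = 2) ∧ ¬ (lab x = 2 ∧ lab y = 0) := by
  obtain ⟨i, j, hj, rfl, rfl⟩ := h1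
  exact h i j hj

/-- A red step followed by a step of `B`. -/
def Mv (L : ι → ℕ) (f : ι → ℕ → V) (B : V → V → Prop) (u w : V) : Prop :=
  ∃ v, RS L f u v ∧ B v w

theorem exists_end [Fintype V] {F : V → V → Prop} (ρ : V → ℕ) (hρ : ∀ u w, F u w → ρ u < ρ w)
    (u : V) : ∃ e, Relation.ReflTransGen F u e ∧ ∀ w, ¬ F e w := by
  obtain ⟨e, h1, h2⟩ := exists_max_of (p := fun e => Relation.ReflTransGen F u e) ρ
    (univ.sup ρ) (fun a _ => le_sup (f := ρ) (mem_univ a)) ⟨u, Relation.ReflTransGen.refl⟩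
  refine ⟨e, h1, fun w hw => ?_⟩
  have := h2 w (h1.tail hw)
  have := hρ e w hw
  omega

theorem lt_of_trans {F : V → V → Prop} (ρ : V → ℕ) (hρ : ∀ u w, F u w → ρ u < ρ w) {u w : V}
    (h : Relation.ReflTransGen F u w) (hne : u ≠ w) : ρ u < ρ w := by
  have : u = w ∨ ρ u < ρ w := by
    clear hne
    induction h with
    | refl => exact Or.inl rfl
    | tail _ h2 ih =>
      right
      rcases ih with rfl | ih
      · exact hρ _ _ h2
      · exact ih.trans (hρ _ _ h2)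
  exact this.resolve_left hne

theorem comparable {F : V → V → Prop} (hF : ∀ a b c, F a c → F b c → a = b) {u u' e : V}
    (h : Relation.ReflTransGen F u e) (h' : Relation.ReflTransGen F u' e) :
    Relation.ReflTransGen F u u' ∨ Relation.ReflTransGen F u' u := by
  have := Relation.ReflTransGen.total_of_right_unique (r := Function.swap F)
    (fun a b c h1 h2 => hF b c a h1 h2) (Relation.reflTransGen_swap.2 h)
    (Relation.reflTransGen_swap.2 h')
  rcases this with h | h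
  · exact Or.inr (Relation.reflTransGen_swap.1 h)
  · exact Or.inl (Relation.reflTransGen_swap.1 h)

theorem keep {F : V → V → Prop} {P : V → Prop} (hP : ∀ a b, F a b → P a → P b) {a b : V}
    (h : Relation.ReflTransGen F a b) (ha : P a) : P b := by
  induction h with
  | refl => exact ha
  | tail _ h2 ih => exact hP _ _ h2 ih

/-- The red vertices without a move. -/
theorem card_ends [Fintype V] [Fintype ι] [Fintype κ] (hr : PInj L f) {B : V → V → Prop}
    (t : κ → V) (hB : ∀ x y, RS L f x y → (∃ k, y = t k) ∨ ∃ w, B y w) :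
    (univ.filter fun e => On L f e ∧ ∀ w, ¬ Mv L f B e w).card ≤
      Fintype.card ι + Fintype.card κ := by
  let pr : V → V := fun y => if h : ∃ x, RS L f x y then h.choose else y
  have hsub : (univ.filter fun e => On L f e ∧ ∀ w, ¬ Mv L f B e w) ⊆
      univ.image (fun i => f i (L i)) ∪ univ.image (fun k => pr (t k)) := by
    intro e he
    obtain ⟨⟨i, j, hj, rfl⟩, h2⟩ := (mem_filter.1 he).2
    rcases hj.eq_or_lt with rfl | hj
    · exact mem_union_left _ (mem_image.2 ⟨i, mem_univ _, rfl⟩)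
    · have hs : RS L f (f i j) (f i (j + 1)) := ⟨i, j, hj, rfl, rfl⟩
      rcases hB _ _ hs with ⟨k, hk⟩ | ⟨w, hw⟩
      · refine mem_union_right _ (mem_image.2 ⟨k, mem_univ _, ?_⟩)
        have hex : ∃ x, RS L f x (t k) := ⟨_, hk ▸ hs⟩
        simp only [pr, dif_pos hex]
        exact hex.choose_spec.left hr (hk ▸ hs)
      · exact absurd ⟨_, hs, hw⟩ (h2 w)
  refine (card_le_card hsub).trans ((card_union_le _ _).trans (add_le_add ?_ ?_))
  · exact card_image_le.trans (by simp)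
  · exact card_image_le.trans (by simp)

end Count

end Spars

open Spars in
theorem count : CountStmt := by
  intro V ι κ _ _ _ U Lr r Lb b hr hb hU h1 h2
  have h1' : ∀ x y, RS Lr r x y → ∃ lab, Cut lab Lb b ∧ Cross lab Lr r ∧ lab x = 1 ∧ lab y = 1 := by
    rintro x y ⟨i, j, hj, rfl, rfl⟩
    exact h1 i j hj
  have h2' : ∀ x y, RS Lb b x y → ∃ lab, Cut lab Lr r ∧ Cross lab Lb b ∧ lab x = 1 ∧ lab y = 1 := by
    rintro x y ⟨i, j, hj, rfl, rfl⟩
    exact h2 i j hj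
  let ρ : V → ℕ := fun u =>
    (univ.filter fun lab : V → Fin 3 => Cut lab Lr r ∧ Cross lab Lb b ∧ lab u ≠ 0).card
  have hρ : ∀ B : V → V → Prop, (∀ v w, B v w → RS Lb b v w ∨ RS Lb b w v) →
      ∀ u w, Mv Lr r B u w → ρ u < ρ w := by
    rintro B hB u w ⟨v, huv, hvw⟩
    refine card_lt_card ⟨fun lab hl => ?_, fun hs => ?_⟩
    · obtain ⟨-, c1, c2, c3⟩ := mem_filter.1 hl
      refine mem_filter.2 ⟨mem_univ _, c1, c2, fun h0 => ?_⟩
      have hv := (cut_step c1 huv).resolve_left c3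
      rcases hB v w hvw with h | h
      · exact (cross_step c2 h).2 ⟨hv, h0⟩
      · exact (cross_step c2 h).1 ⟨h0, hv⟩
    · obtain ⟨lab, c1, c2, c3, c4⟩ : ∃ lab, Cut lab Lr r ∧ Cross lab Lb b ∧ lab v = 1 ∧
          lab w = 1 := by
        rcases hB v w hvw with h | h
        · exact h2' _ _ h
        · obtain ⟨lab, c1, c2, c3, c4⟩ := h2' _ _ h
          exact ⟨lab, c1, c2, c4, c3⟩
      have := hs (mem_filter.2 ⟨mem_univ lab, c1, c2, by rw [c4]; decide⟩)
      rcases cut_step c1 huv with h | h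
      · exact (mem_filter.1 this).2.2.2 h
      · rw [c3] at h
        exact absurd h (by decide)
  have hred : ∀ v w, RS Lb b v w → On Lr r v ∧ On Lr r w := fun v w h => by
    obtain ⟨lab, c1, -, c3, c4⟩ := h2' _ _ h
    exact ⟨c1.2 _ c3, c1.2 _ c4⟩
  have hblue : ∀ v w, RS Lr r v w → On Lb b w := fun v w h => by
    obtain ⟨lab, c1, -, -, c4⟩ := h1' _ _ h
    exact c1.2 _ c4
  let F := Mv Lr r (RS Lb b)
  let Gr := Mv Lr r (fun v w => RS Lb b w v)
  have hF : ∀ u w, F u w → ρ u < ρ w := hρ _ fun v w h => Or.inl h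
  have hG : ∀ u w, Gr u w → ρ u < ρ w := hρ _ fun v w h => Or.inr h
  choose eF heF1 heF2 using exists_end ρ hF
  choose eG heG1 heG2 using exists_end ρ hG
  have cF := card_ends (κ := κ) hr (B := RS Lb b) (fun k => b k (Lb k)) (fun x y h => by
    obtain ⟨k, j, hj, rfl⟩ := hblue x y h
    rcases hj.eq_or_lt with rfl | hj
    · exact Or.inl ⟨k, rfl⟩
    · exact Or.inr ⟨_, k, j, hj, rfl, rfl⟩)
  have cG := card_ends (κ := κ) hr (B := fun v w => RS Lb b w v) (fun k => b k 0) (fun x y h => by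
    obtain ⟨k, j, hj, rfl⟩ := hblue x y h
    rcases j with _ | j
    · exact Or.inl ⟨k, rfl⟩
    · exact Or.inr ⟨_, k, j, hj, rfl, rfl⟩)
  have key : ∀ u u', u ≠ u' → Relation.ReflTransGen F u u' → ¬ Relation.ReflTransGen Gr u u' := by
    intro u u' hne a1 a2
    rcases a1.cases_head with e | ⟨w, ⟨v, huv, hvw⟩, a1⟩
    · exact hne e
    rcases a2.cases_head with e | ⟨w', ⟨v', huv', hvw'⟩, a2⟩
    · exact hne e
    obtain rfl := huv.right hr huv'
    obtain ⟨lab, c1, c2, -, c4⟩ := h1' _ _ huv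
    have e2 : lab u' = 2 := by
      refine keep (P := fun a => lab a = 2) ?_ a1 ?_
      · rintro a c ⟨d, had, hdc⟩ ha
        exact (cut_step c1 hdc).resolve_left fun h => (cross_step c2 had).2 ⟨ha, h⟩
      · exact (cut_step c1 hvw).resolve_left (by rw [c4]; decide)
    have e0 : lab u' = 0 := by
      refine keep (P := fun a => lab a = 0) ?_ a2 ?_
      · rintro a c ⟨d, had, hdc⟩ ha
        exact (cut_step c1 hdc).resolve_right fun h => (cross_step c2 had).1 ⟨ha, h⟩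
      · exact (cut_step c1 hvw').resolve_right (by rw [c4]; decide)
    rw [e2] at e0
    exact absurd e0 (by decide)
  have lF : ∀ a c d, F a d → F c d → a = c := by
    rintro a c d ⟨v, a1, a2⟩ ⟨v', c1, c2⟩
    obtain rfl := a2.left hb c2
    exact a1.left hr c1
  have lG : ∀ a c d, Gr a d → Gr c d → a = c := by
    rintro a c d ⟨v, a1, a2⟩ ⟨v', c1, c2⟩
    obtain rfl := RS.right hb a2 c2
    exact a1.left hr c1
  have cR : (univ.filter (On Lr r)).card ≤
      (Fintype.card ι + Fintype.card κ) * (Fintype.card ι + Fintype.card κ) := by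
    refine le_trans ?_ (Nat.mul_le_mul cF cG)
    rw [← card_product]
    refine card_le_card_of_injOn (fun u => (eF u, eG u)) (fun u hu => ?_) fun u _ u' _ e => ?_
    · have hu' : On Lr r u := (mem_filter.1 hu).2
      refine mem_coe.2 (mem_product.2 ⟨mem_filter.2 ⟨mem_univ _, ?_, heF2 u⟩,
        mem_filter.2 ⟨mem_univ _, ?_, heG2 u⟩⟩)
      · refine keep (P := On Lr r) ?_ (heF1 u) hu'
        rintro a c ⟨d, -, hdc⟩ -
        exact (hred _ _ hdc).2
      · refine keep (P := On Lr r) ?_ (heG1 u) hu'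
        rintro a c ⟨d, -, hdc⟩ -
        exact (hred _ _ hdc).1
    · by_contra hne
      have e1 : eF u = eF u' := congrArg Prod.fst e
      have e2 : eG u = eG u' := congrArg Prod.snd e
      rcases comparable lF (heF1 u) (e1 ▸ heF1 u') with a1 | a1 <;>
        rcases comparable lG (heG1 u) (e2 ▸ heG1 u') with a2 | a2
      · exact key _ _ hne a1 a2
      · have := lt_of_trans ρ hF a1 hne
        have := lt_of_trans ρ hG a2 (Ne.symm hne)
        omega
      · have := lt_of_trans ρ hF a1 (Ne.symm hne)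
        have := lt_of_trans ρ hG a2 hne
        omega
      · exact key _ _ (Ne.symm hne) a1 a2
  have hsub : U ⊆ univ.filter (On Lr r) ∪ univ.image fun k => b k 0 := by
    intro v hv
    rcases hU v hv with h | ⟨k, j, hj, rfl⟩
    · exact mem_union_left _ (mem_filter.2 ⟨mem_univ _, h⟩)
    · rcases j with _ | j
      · exact mem_union_right _ (mem_image.2 ⟨k, mem_univ _, rfl⟩)
      · exact mem_union_left _ (mem_filter.2 ⟨mem_univ _, (hred _ _ ⟨k, j, hj, rfl, rfl⟩).2⟩)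
  have c1 := (card_le_card hsub).trans (card_union_le _ _)
  have c2 : (univ.image fun k => b k 0).card ≤ Fintype.card κ := card_image_le.trans (by simp)
  generalize Fintype.card ι = m at *
  generalize Fintype.card κ = n at *
  have c3 : (m + n) * (m + n) ≤ (m + n) ^ 3 := by
    rcases Nat.eq_zero_or_pos (m + n) with h | h
    · simp [h]
    · rw [← sq]
      exact Nat.pow_le_pow_right h (by norm_num)
  have c4 : m + n ≤ (m + n) * (m + n) := Nat.le_mul_self _
  omega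

namespace Spars

variable {V ι κ : Type} {G H H' : SimpleGraph V} {U U' U'' A B A' B' S T : Finset V}
  {φ : V → Finset V} {L : ι → ℕ} {f : ι → ℕ → V}

/-- A linkage given by paths. -/
structure Pa (H : SimpleGraph V) (U A B : Finset V) (L : ι → ℕ) (f : ι → ℕ → V) : Prop where
  inj : PInj L f
  mem : ∀ i j, j ≤ L i → f i j ∈ U
  adj : ∀ i j, j < L i → H.Adj (f i j) (f i (j + 1))
  left : ∀ i, f i 0 ∈ A
  right : ∀ i, f i (L i) ∈ B

theorem paths {P : ι → Finset V} (h : Linkage H U A B P) : ∃ L f, Pa (ι := ι) H U A B L f := by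
  have : ∀ i, ∃ (L : ℕ) (f : ℕ → V), f 0 ∈ A ∧ f L ∈ B ∧ (∀ j ≤ L, f j ∈ P i) ∧
      (∀ j < L, H.Adj (f j) (f (j + 1))) ∧ ∀ i ≤ L, ∀ j ≤ L, f i = f j → i = j := by
    intro i
    obtain ⟨a, ha, hai⟩ := h.left i
    obtain ⟨b, hb, hbi⟩ := h.right i
    obtain ⟨L, f, h0, hL, h1, h2, h3⟩ := ((h.conn i).2 a hai b hbi).exists_path hai
    exact ⟨L, f, h0 ▸ ha, hL ▸ hb, h1, h2, h3⟩
  choose L f h0 hL h1 h2 h3 using this
  refine ⟨L, f, fun i i' j j' hj hj' e => ?_, fun i j hj => h.sub i (h1 i j hj), h2, h0, hL⟩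
  by_cases hi : i = i'
  · subst hi
    exact ⟨rfl, h3 i j hj j' hj' e⟩
  · exact absurd (e ▸ h1 i' j' hj') (disjoint_left.1 (h.disj i i' hi) (h1 i j hj))

theorem mem_path {i : ι} {v : V} :
    v ∈ (Icc 0 (L i)).image (f i) ↔ ∃ j, j ≤ L i ∧ v = f i j := by
  simp only [mem_image, mem_Icc, zero_le, true_and]
  exact ⟨fun ⟨j, h1, h2⟩ => ⟨j, h1, h2.symm⟩, fun ⟨j, h1, h2⟩ => ⟨j, h1, h2.symm⟩⟩

theorem Pa.link (h : Pa H U A B L f) :
    Linkage H U A B fun i => (Icc 0 (L i)).image (f i) := by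
  refine ⟨fun i v hv => ?_, fun i => conn_segment (Nat.zero_le _) fun j _ hj => h.adj i j hj,
    fun i i' hi => disjoint_left.2 fun v h1 h2 => ?_,
    fun i => ⟨_, h.left i, mem_path.2 ⟨0, Nat.zero_le _, rfl⟩⟩,
    fun i => ⟨_, h.right i, mem_path.2 ⟨_, le_rfl, rfl⟩⟩⟩
  · obtain ⟨j, hj, rfl⟩ := mem_path.1 hv
    exact h.mem i j hj
  · obtain ⟨j, hj, rfl⟩ := mem_path.1 h1
    obtain ⟨j', hj', e⟩ := mem_path.1 h2
    exact hi (h.inj i i' j j' hj hj' e).1

theorem Pa.seg (h : Pa H U A B L f) {W : Finset V} (i : ι) {lo hi : ℕ} (h1 : lo ≤ hi)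
    (h2 : hi ≤ L i) (hW : ∀ j, lo ≤ j → j ≤ hi → f i j ∈ W) : R H W (f i lo) (f i hi) := by
  induction hi, h1 using Nat.le_induction with
  | base => exact R.refl
  | succ n hn ih =>
    exact (ih (by omega) fun j a b => hW j a (by omega)).tail (h.adj i n (by omega))
      (hW n hn (by omega)) (hW (n + 1) (by omega) le_rfl)

theorem Pa.meet (h : Pa H U A B L f) {Z : Finset V} (hZ : ¬ Joined H U A B Z) :
    ∃ z : ι → ℕ, (∀ i, z i ≤ L i) ∧ (∀ i, f i (z i) ∈ Z) ∧
      Function.Injective fun i => f i (z i) := by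
  have : ∀ i, ∃ z ≤ L i, f i z ∈ Z := by
    intro i
    by_contra hc
    push Not at hc
    have hm : ∀ j, 0 ≤ j → j ≤ L i → f i j ∈ U \ Z :=
      fun j _ hj => mem_sdiff.2 ⟨h.mem i j hj, hc j hj⟩
    exact hZ ⟨_, h.left i, _, h.right i, hm 0 le_rfl (Nat.zero_le _),
      h.seg i (Nat.zero_le _) le_rfl hm⟩
  choose z h1 h2 using this
  exact ⟨z, h1, h2, fun i i' e => (h.inj i i' _ _ (h1 i) (h1 i') e).1⟩

theorem Pa.le_card [Fintype ι] (h : Pa H U A B L f) {Z : Finset V} (hZ : ¬ Joined H U A B Z) :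
    Fintype.card ι ≤ Z.card := by
  obtain ⟨z, -, h2, h3⟩ := h.meet hZ
  rw [← card_univ]
  exact card_le_card_of_injOn (fun i => f i (z i)) (fun i _ => h2 i) h3.injOn

/-- A tight separator as a labelling. -/
theorem Pa.tight [Fintype ι] (h : Pa H U A B L f) {Z : Finset V} (hZ : ¬ Joined H U A B Z)
    (hc : Z.card ≤ Fintype.card ι) : ∃ lab : V → Fin 3, Cut lab L f ∧ (∀ v ∈ Z, lab v = 1) ∧
      ∀ u ∈ U, ∀ v ∈ U, H.Adj u v → ¬ (lab u = 0 ∧ lab v = 2) := by
  obtain ⟨z, h1, h2, h3⟩ := h.meet hZ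
  have hs : ∀ v ∈ Z, ∃ i, v = f i (z i) := by
    have e : univ.image (fun i => f i (z i)) = Z := by
      refine eq_of_subset_of_card_le (fun v hv => ?_) ?_
      · obtain ⟨i, -, rfl⟩ := mem_image.1 hv
        exact h2 i
      · rwa [card_image_of_injective _ h3, card_univ]
    intro v hv
    rw [← e] at hv
    obtain ⟨i, -, rfl⟩ := mem_image.1 hv
    exact ⟨i, rfl⟩
  have hn : ∀ i j, j ≤ L i → j ≠ z i → f i j ∈ U \ Z := by
    intro i j hj hne
    refine mem_sdiff.2 ⟨h.mem i j hj, fun hm => ?_⟩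
    obtain ⟨i', e⟩ := hs _ hm
    obtain ⟨rfl, e'⟩ := h.inj i i' _ _ hj (h1 i') e
    exact hne e'
  let Re : V → Prop := fun v => ∃ a ∈ A, a ∈ U \ Z ∧ R H (U \ Z) a v
  refine ⟨fun v => if v ∈ Z then 1 else if Re v then 0 else 2, ⟨fun i => ⟨z i, h1 i, ?_⟩, ?_⟩,
    fun v hv => if_pos hv, ?_⟩
  · intro j hj
    rcases lt_trichotomy j (z i) with hl | hl | hl
    · have hr : Re (f i j) := ⟨_, h.left i, hn i 0 (Nat.zero_le _) (by omega),
        h.seg i (Nat.zero_le _) hj fun j' _ b => hn i j' (by omega) (by omega)⟩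
      simp only [if_neg (mem_sdiff.1 (hn i j hj hl.ne)).2, if_pos hr, if_pos hl]
    · subst hl
      simp only [if_pos (h2 i), lt_irrefl, if_false, if_true]
    · have hr : ¬ Re (f i j) := by
        rintro ⟨a, ha, haU, hr⟩
        exact hZ ⟨a, ha, _, h.right i, haU,
          hr.trans (h.seg i hj le_rfl fun j' a b => hn i j' b (by omega))⟩
      simp only [if_neg (mem_sdiff.1 (hn i j hj hl.ne')).2, if_neg hr, if_neg hl.not_gt,
        if_neg hl.ne']
  · intro v hv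
    by_cases hm : v ∈ Z
    · obtain ⟨i, e⟩ := hs v hm
      exact ⟨i, z i, h1 i, e⟩
    · exfalso
      simp only [if_neg hm] at hv
      split_ifs at hv <;> exact absurd hv (by decide)
  · rintro u hu v hv huv ⟨e0, e2⟩
    by_cases a1 : u ∈ Z
    · simp only [if_pos a1] at e0
      exact absurd e0 (by decide)
    by_cases a2 : v ∈ Z
    · simp only [if_pos a2] at e2
      exact absurd e2 (by decide)
    by_cases a3 : Re u
    · obtain ⟨a, ha, haU, hr⟩ := a3
      have a4 : Re v := ⟨a, ha, haU, hr.tail huv (mem_sdiff.2 ⟨hu, a1⟩) (mem_sdiff.2 ⟨hv, a2⟩)⟩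
      simp only [if_neg a2, if_pos a4] at e2
      exact absurd e2 (by decide)
    · simp only [if_neg a1, if_neg a3] at e0
      exact absurd e0 (by decide)

theorem mem_tr {w : V} : w ∈ tr U' φ A ↔ w ∈ U' ∧ ¬ Disjoint (φ w) A := mem_filter

theorem model_res (h : Model G U H U' φ) (hU : U'' ⊆ U') (hH : H' ≤ H) : Model G U H' U'' φ :=
  ⟨fun w hw => h.sub w (hU hw), fun w hw => h.conn w (hU hw),
    fun w hw w' hw' => h.disj w (hU hw) w' (hU hw'),
    fun w hw w' hw' a => h.adj w (hU hw) w' (hU hw') (hH a)⟩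

theorem Pa.res (h : Pa H U' (tr U' φ A) (tr U' φ B) L f) (h1 : ∀ i j, j ≤ L i → f i j ∈ U'')
    (h2 : ∀ i j, j < L i → H'.Adj (f i j) (f i (j + 1))) :
    Pa H' U'' (tr U'' φ A) (tr U'' φ B) L f :=
  ⟨h.inj, h1, h2, fun i => mem_tr.2 ⟨h1 i 0 (Nat.zero_le _), (mem_tr.1 (h.left i)).2⟩,
    fun i => mem_tr.2 ⟨h1 i _ le_rfl, (mem_tr.1 (h.right i)).2⟩⟩

section Contract

variable {x y : V}

/-- The map that identifies `y` with `x`. -/
noncomputable def pj (x y v : V) : V := if v = y then x else v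

/-- The contracted graph. -/
def cg (H : SimpleGraph V) (U' : Finset V) (x y : V) : SimpleGraph V :=
  SimpleGraph.fromRel fun a c => ∃ a' ∈ U', ∃ c' ∈ U', pj x y a' = a ∧ pj x y c' = c ∧ H.Adj a' c'

/-- The branch sets after the contraction. -/
noncomputable def cf (φ : V → Finset V) (x y v : V) : Finset V :=
  if v = x then φ x ∪ φ y else φ v

theorem pj_mem (hx : x ∈ U') (hxy : x ≠ y) {v : V} (hv : v ∈ U') : pj x y v ∈ U'.erase y := by
  unfold pj
  split_ifs with e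
  · exact mem_erase.2 ⟨hxy, hx⟩
  · exact mem_erase.2 ⟨e, hv⟩

theorem sub_cf (v : V) : φ v ⊆ cf φ x y (pj x y v) := by
  unfold cf pj
  by_cases e : v = y
  · simp [e]
  · by_cases e' : v = x
    · subst e'
      simp [e]
    · simp [e, e']

theorem pj_eq {u v : V} (e : pj x y u = pj x y v) :
    u = v ∨ ((u = x ∨ u = y) ∧ (v = x ∨ v = y)) := by
  unfold pj at e
  split_ifs at e with a b b
  · exact Or.inl (a.trans b.symm)
  · exact Or.inr ⟨Or.inr a, Or.inl e.symm⟩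
  · exact Or.inr ⟨Or.inl e, Or.inr b⟩
  · exact Or.inl e

theorem model_cg (h : Model G U H U' φ) (hx : x ∈ U') (hy : y ∈ U') (hxy : H.Adj x y) :
    Model G U (cg H U' x y) (U'.erase y) (cf φ x y) := by
  have hd : ∀ w ∈ U'.erase y, w ≠ x → Disjoint (φ x ∪ φ y) (φ w) := fun w hw hne =>
    disjoint_union_left.2 ⟨h.disj x hx w (mem_of_mem_erase hw) hne.symm,
      h.disj y hy w (mem_of_mem_erase hw) (ne_of_mem_erase hw).symm⟩
  have ha : ∀ w w', (∃ a' ∈ U', ∃ c' ∈ U', pj x y a' = w ∧ pj x y c' = w' ∧ H.Adj a' c') →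
      Touch G (cf φ x y w) (cf φ x y w') := by
    rintro _ _ ⟨a, ha, c, hc, rfl, rfl, hac⟩
    exact (h.adj a ha c hc hac).mono (sub_cf a) (sub_cf c)
  refine ⟨fun w hw => ?_, fun w hw => ?_, fun w hw w' hw' hne => ?_, fun w _ w' _ a => ?_⟩
  · unfold cf
    split_ifs
    · exact union_subset (h.sub x hx) (h.sub y hy)
    · exact h.sub w (mem_of_mem_erase hw)
  · unfold cf
    split_ifs
    · exact (h.conn x hx).union_touch (h.conn y hy) (h.adj x hx y hy hxy)
    · exact h.conn w (mem_of_mem_erase hw)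
  · unfold cf
    split_ifs with a b b
    · exact absurd (a.trans b.symm) hne
    · exact hd w' hw' b
    · exact (hd w hw a).symm
    · exact h.disj w (mem_of_mem_erase hw) w' (mem_of_mem_erase hw') hne
  · rcases ((SimpleGraph.fromRel_adj _ _ _).1 a).2 with a | a
    · exact ha _ _ a
    · exact (ha _ _ a).symm

theorem pj_tr (hx : x ∈ U') (hxy : x ≠ y) {v : V} (hv : v ∈ tr U' φ A) :
    pj x y v ∈ tr (U'.erase y) (cf φ x y) A :=
  mem_tr.2 ⟨pj_mem hx hxy (mem_tr.1 hv).1, fun hd => (mem_tr.1 hv).2 (hd.mono_left (sub_cf v))⟩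

theorem pj_R {W W' : Finset V} {a b : V} (h : R H W a b) (hW : W ⊆ U')
    (hW' : ∀ v ∈ W, pj x y v ∈ W') : R (cg H U' x y) W' (pj x y a) (pj x y b) := by
  refine h.ind (P := fun b => R (cg H U' x y) W' (pj x y a) (pj x y b)) R.refl ?_
  intro u v _ ih huv hu hv
  by_cases e : pj x y u = pj x y v
  · exact e ▸ ih
  · exact ih.tail ((SimpleGraph.fromRel_adj _ _ _).2
      ⟨e, Or.inl ⟨u, hW hu, v, hW hv, rfl, rfl, huv⟩⟩) (hW' u hu) (hW' v hv)

theorem link_cg {P : ι → Finset V} (h : Linkage H U' (tr U' φ A) (tr U' φ B) P) {i0 : ι}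
    (hx : x ∈ P i0) (hy : y ∈ P i0) (hxy : x ≠ y) :
    Linkage (cg H U' x y) (U'.erase y) (tr (U'.erase y) (cf φ x y) A)
      (tr (U'.erase y) (cf φ x y) B) fun i => (P i).image (pj x y) := by
  have hxU := h.sub i0 hx
  refine ⟨fun i v hv => ?_, fun i => ⟨(h.conn i).1.image _, fun a ha b hb => ?_⟩,
    fun i j hij => disjoint_left.2 fun v h1 h2 => ?_, fun i => ?_, fun i => ?_⟩
  · obtain ⟨u, hu, rfl⟩ := mem_image.1 hv
    exact pj_mem hxU hxy (h.sub i hu)
  · obtain ⟨a', ha', rfl⟩ := mem_image.1 ha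
    obtain ⟨b', hb', rfl⟩ := mem_image.1 hb
    exact pj_R ((h.conn i).2 a' ha' b' hb') (h.sub i) fun v hv => mem_image_of_mem _ hv
  · obtain ⟨a, ha, rfl⟩ := mem_image.1 h1
    obtain ⟨b, hb, e⟩ := mem_image.1 h2
    have h0 : ∀ k, ∀ c ∈ P k, c = x ∨ c = y → k = i0 := by
      intro k c hc hc'
      by_contra hne
      rcases hc' with rfl | rfl
      · exact disjoint_left.1 (h.disj k i0 hne) hc hx
      · exact disjoint_left.1 (h.disj k i0 hne) hc hy
    rcases pj_eq e with rfl | ⟨e1, e2⟩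
    · exact disjoint_left.1 (h.disj i j hij) ha hb
    · exact hij ((h0 i a ha e2).trans (h0 j b hb e1).symm)
  · obtain ⟨a, ha, hai⟩ := h.left i
    exact ⟨_, pj_tr hxU hxy ha, mem_image_of_mem _ hai⟩
  · obtain ⟨a, ha, hai⟩ := h.right i
    exact ⟨_, pj_tr hxU hxy ha, mem_image_of_mem _ hai⟩

/-- If the contraction destroys a linkage then the edge lies in a tight separator. -/
theorem cut_of_dead [Fintype V] [Fintype ι] (h : Pa H U' (tr U' φ A) (tr U' φ B) L f)
    (hx : x ∈ U') (hy : y ∈ U') (hxy : x ≠ y)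
    (hd : ¬ ∃ Q : ι → Finset V, Linkage (cg H U' x y) (U'.erase y)
      (tr (U'.erase y) (cf φ x y) A) (tr (U'.erase y) (cf φ x y) B) Q) :
    ∃ lab : V → Fin 3, Cut lab L f ∧ lab x = 1 ∧ lab y = 1 ∧
      ∀ u ∈ U', ∀ v ∈ U', H.Adj u v → ¬ (lab u = 0 ∧ lab v = 2) := by
  have h1 : ∃ Z' : Finset V, Z'.card < Fintype.card ι ∧ ¬ Joined (cg H U' x y) (U'.erase y)
      (tr (U'.erase y) (cf φ x y) A) (tr (U'.erase y) (cf φ x y) B) Z' := by
    by_contra hc
    push Not at hc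
    obtain ⟨P, hP⟩ := menger (U'.erase y) (Fintype.card ι) _ _ _ _ le_rfl hc
    let e := Fintype.equivFin ι
    exact hd ⟨fun i => P (e i), fun i => hP.sub _, fun i => hP.conn _,
      fun i j hij => hP.disj _ _ fun a => hij (e.injective a), fun i => hP.left _,
      fun i => hP.right _⟩
  obtain ⟨Z', hc, hJ⟩ := h1
  let Z := U'.filter fun v => pj x y v ∈ Z'
  have hm : ∀ v ∈ U' \ Z, pj x y v ∈ U'.erase y \ Z' := fun v hv =>
    mem_sdiff.2 ⟨pj_mem hx hxy (mem_sdiff.1 hv).1,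
      fun a => (mem_sdiff.1 hv).2 (mem_filter.2 ⟨(mem_sdiff.1 hv).1, a⟩)⟩
  have hZ : ¬ Joined H U' (tr U' φ A) (tr U' φ B) Z := by
    rintro ⟨a, ha, b, hb, haU, hab⟩
    exact hJ ⟨_, pj_tr hx hxy ha, _, pj_tr hx hxy hb, hm a haU, pj_R hab sdiff_subset hm⟩
  have hsub : Z ⊆ insert y Z' := by
    intro v hv
    have := (mem_filter.1 hv).2
    by_cases e : v = y
    · exact e ▸ mem_insert_self _ _
    · rw [pj, if_neg e] at this
      exact mem_insert_of_mem this
  have hxZ : x ∈ Z' := by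
    by_contra hn
    have hsub' : Z ⊆ Z' := by
      intro v hv
      have := (mem_filter.1 hv).2
      by_cases e : v = y
      · rw [pj, if_pos e] at this
        exact absurd this hn
      · rwa [pj, if_neg e] at this
    have := (h.le_card hZ).trans (card_le_card hsub')
    omega
  obtain ⟨lab, c1, c2, c3⟩ := h.tight hZ (by
    have := (card_le_card hsub).trans (card_insert_le _ _)
    omega)
  refine ⟨lab, c1, c2 x (mem_filter.2 ⟨hx, ?_⟩), c2 y (mem_filter.2 ⟨hy, ?_⟩), c3⟩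
  · rwa [pj, if_neg hxy]
  · rwa [pj, if_pos rfl]

end Contract

/-- Every step of the first system lies in a tight cut of the second one. -/
theorem step_cut [Fintype V] [Fintype κ] {L' : κ → ℕ} {f' : κ → ℕ → V} (hM : Model G U H U' φ)
    (h : Pa H U' (tr U' φ A) (tr U' φ B) L f) (h' : Pa H U' (tr U' φ S) (tr U' φ T) L' f')
    (hmin : ∀ (H' : SimpleGraph V) (U'' : Finset V) (φ' : V → Finset V) (P : ι → Finset V)
      (Q : κ → Finset V), U'' ⊆ U' → Model G U H' U'' φ' →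
      Linkage H' U'' (tr U'' φ' A) (tr U'' φ' B) P →
      Linkage H' U'' (tr U'' φ' S) (tr U'' φ' T) Q → U'.card ≤ U''.card)
    (i : ι) (j : ℕ) (hj : j < L i) :
    ∃ lab, Cut lab L' f' ∧ Cross lab L f ∧ lab (f i j) = 1 ∧ lab (f i (j + 1)) = 1 := by
  have hx := h.mem i j hj.le
  have hy := h.mem i (j + 1) hj
  have hxy := h.adj i j hj
  obtain ⟨lab, c1, c2, c3, c4⟩ := cut_of_dead h' hx hy hxy.ne (by
    rintro ⟨Q, hQ⟩
    have := hmin _ _ _ _ Q (erase_subset _ _) (model_cg hM hx hy hxy)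
      (link_cg (i0 := i) h.link (mem_path.2 ⟨j, hj.le, rfl⟩) (mem_path.2 ⟨j + 1, hj, rfl⟩)
        hxy.ne) hQ
    have := card_erase_lt_of_mem hy
    omega)
  exact ⟨lab, c1, fun k l hl => ⟨c4 _ (h.mem k l hl.le) _ (h.mem k _ hl) (h.adj k l hl),
    fun a => c4 _ (h.mem k _ hl) _ (h.mem k l hl.le) (h.adj k l hl).symm ⟨a.2, a.1⟩⟩, c2, c3⟩

theorem card_le_one_of {p : V → Prop} (U : Finset V) (h : ∀ a b, p a → p b → a = b) :
    (U.filter p).card ≤ 1 :=
  card_le_one.2 fun a ha b hb => h a b (mem_filter.1 ha).2 (mem_filter.1 hb).2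

end Spars

open Spars in
theorem sp (hc : CountStmt) : SpStmt := by
  intro V ι κ _ _ _ G U A B S T P Q hP hQ
  have htr : ∀ C : Finset V, ∀ a ∈ C, a ∈ U → a ∈ tr U (fun v => ({v} : Finset V)) C :=
    fun C a ha hU => mem_tr.2 ⟨hU, by simpa using ha⟩
  have h0 : ∀ {τ : Type} {C D : Finset V} {X : τ → Finset V}, Linkage G U C D X →
      Linkage G U (tr U (fun v => {v}) C) (tr U (fun v => {v}) D) X := by
    intro τ C D X h
    refine ⟨h.sub, h.conn, h.disj, fun i => ?_, fun i => ?_⟩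
    · obtain ⟨a, ha, hai⟩ := h.left i
      exact ⟨a, htr _ a ha (h.sub i hai), hai⟩
    · obtain ⟨a, ha, hai⟩ := h.right i
      exact ⟨a, htr _ a ha (h.sub i hai), hai⟩
  obtain ⟨⟨H, U', φ⟩, ⟨hU, hM, ⟨P0, hP0⟩, Q0, hQ0⟩, m1, m2⟩ := exists_lex_min
    (p := fun s : SimpleGraph V × Finset V × (V → Finset V) => s.2.1 ⊆ U ∧
      Model G U s.1 s.2.1 s.2.2 ∧
      (∃ P' : ι → Finset V, Linkage s.1 s.2.1 (tr s.2.1 s.2.2 A) (tr s.2.1 s.2.2 B) P') ∧
      ∃ Q' : κ → Finset V, Linkage s.1 s.2.1 (tr s.2.1 s.2.2 S) (tr s.2.1 s.2.2 T) Q')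
    (fun s => s.2.1.card)
    (fun s => ((s.2.1 ×ˢ s.2.1).filter fun e => s.1.Adj e.1 e.2).card)
    ⟨⟨G, U, fun v => {v}⟩, subset_rfl, ⟨fun w hw => by simpa using hw,
      fun w _ => Conn.singleton w, fun w _ w' _ hne => by simpa using hne,
      fun w _ w' _ a => ⟨w, mem_singleton_self _, w', mem_singleton_self _, a⟩⟩,
      ⟨P, h0 hP⟩, Q, h0 hQ⟩
  dsimp only at hU hM hP0 hQ0 m1 m2
  obtain ⟨Lr, r, hr⟩ := paths hP0
  obtain ⟨Lb, b, hb⟩ := paths hQ0
  have hcov : ∀ v ∈ U', On Lr r v ∨ On Lb b v := by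
    intro v hv
    by_contra hn
    rw [not_or] at hn
    have := m1 ⟨H, U'.erase v, φ⟩ ⟨(erase_subset _ _).trans hU,
      model_res hM (erase_subset _ _) le_rfl,
      ⟨_, (hr.res (fun i j hj => mem_erase.2 ⟨fun e => hn.1 ⟨i, j, hj, e.symm⟩,
        hr.mem i j hj⟩) hr.adj).link⟩,
      _, (hb.res (fun i j hj => mem_erase.2 ⟨fun e => hn.2 ⟨i, j, hj, e.symm⟩,
        hb.mem i j hj⟩) hb.adj).link⟩
    have h2 := card_erase_lt_of_mem hv
    dsimp only at this
    omega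
  have hedge : ∀ x ∈ U', ∀ y ∈ U', H.Adj x y →
      (RS Lr r x y ∨ RS Lr r y x) ∨ (RS Lb b x y ∨ RS Lb b y x) := by
    intro x hx y hy hxy
    by_contra hn
    rw [not_or] at hn
    have hk : ∀ {τ : Type} {L : τ → ℕ} {f : τ → ℕ → V}, ¬ (RS L f x y ∨ RS L f y x) →
        (∀ i j, j < L i → H.Adj (f i j) (f i (j + 1))) →
        ∀ i j, j < L i → (H.deleteEdges {s(x, y)}).Adj (f i j) (f i (j + 1)) := by
      intro τ L f h1 h2 i j hj
      refine SimpleGraph.deleteEdges_adj.2 ⟨h2 i j hj, fun e => h1 ?_⟩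
      rcases Sym2.eq_iff.1 (Set.mem_singleton_iff.1 e) with ⟨e1, e2⟩ | ⟨e1, e2⟩
      · exact Or.inl ⟨i, j, hj, e1.symm, e2.symm⟩
      · exact Or.inr ⟨i, j, hj, e1.symm, e2.symm⟩
    have := m2 ⟨H.deleteEdges {s(x, y)}, U', φ⟩ ⟨hU,
      model_res hM subset_rfl (SimpleGraph.deleteEdges_le _),
      ⟨_, (hr.res hr.mem (hk hn.1 hr.adj)).link⟩, _, (hb.res hb.mem (hk hn.2 hb.adj)).link⟩ le_rfl
    dsimp only at this
    refine absurd this (not_le.2 (card_lt_card ⟨fun e he => ?_, fun hs => ?_⟩))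
    · simp only [mem_filter] at he ⊢
      exact ⟨he.1, (SimpleGraph.deleteEdges_adj.1 he.2).1⟩
    · have := hs (mem_filter.2 ⟨(mem_product.2 ⟨hx, hy⟩ : (x, y) ∈ U' ×ˢ U'), hxy⟩)
      simp at this
  refine ⟨H, U', φ, P0, Q0, hU, hM, hP0, hQ0, fun v hv => ?_,
    hc V ι κ U' Lr r Lb b hr.inj hb.inj hcov ?_ ?_⟩
  · have hsub : (U'.filter fun u => H.Adj v u) ⊆
        (U'.filter (RS Lr r v) ∪ U'.filter fun u => RS Lr r u v) ∪
        (U'.filter (RS Lb b v) ∪ U'.filter fun u => RS Lb b u v) := by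
      intro u hu
      obtain ⟨h1, h2⟩ := mem_filter.1 hu
      simp only [mem_union, mem_filter, h1, true_and]
      exact hedge v hv u h1 h2
    have c1 := card_le_one_of (p := RS Lr r v) U' fun _ _ a c => a.right hr.inj c
    have c2 := card_le_one_of (p := fun u => RS Lr r u v) U' fun _ _ a c => a.left hr.inj c
    have c3 := card_le_one_of (p := RS Lb b v) U' fun _ _ a c => a.right hb.inj c
    have c4 := card_le_one_of (p := fun u => RS Lb b u v) U' fun _ _ a c => a.left hb.inj c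
    have c5 := (card_le_card hsub).trans ((card_union_le _ _).trans
      (add_le_add (card_union_le _ _) (card_union_le _ _)))
    omega
  · exact step_cut hM hr hb fun H' U'' φ' P' Q' a1 a2 a3 a4 =>
      m1 ⟨H', U'', φ'⟩ ⟨a1.trans hU, a2, ⟨P', a3⟩, Q', a4⟩
  · exact step_cut hM hb hr fun H' U'' φ' P' Q' a1 a2 a3 a4 =>
      m1 ⟨H', U'', φ'⟩ ⟨a1.trans hU, a2, ⟨Q', a4⟩, P', a3⟩

end Pool.Agent.MP_35cb46_co.Sq

end MrgPart1

-- ======== part 2: formerly Pool.Agent.MP_35cb46_co.sq.Round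
section MrgPart2

/-! One round of the game inside a cluster, the rounds together, and the sparse minor. -/

namespace Pool.Agent.MP_35cb46_co.Sq

open Finset Pool.Agent.MP_7be75d_co
open scoped Classical

namespace Round

variable {V : Type} {G H : SimpleGraph V} {R U' : Finset V} {φ : V → Finset V}

/-- A vertex lies in at most one branch set. -/
theorem eq_of_mem (h : Model G R H U' φ) {w w' v : V} (hw : w ∈ U') (hw' : w' ∈ U')
    (h1 : v ∈ φ w) (h2 : v ∈ φ w') : w = w' := by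
  by_contra hne
  exact disjoint_left.1 (h.disj w hw w' hw' hne) h1 h2

/-- A point of the trace of an image, written out. -/
theorem of_mem_tr {ι : Type} {s : Finset ι} {p : ι → V} {w : V} (h : w ∈ tr U' φ (s.image p)) :
    w ∈ U' ∧ ∃ i ∈ s, p i ∈ φ w := by
  obtain ⟨h1, h2⟩ := mem_filter.1 h
  obtain ⟨v, h3, h4⟩ := not_disjoint_iff.1 h2
  obtain ⟨i, h5, rfl⟩ := mem_image.1 h4
  exact ⟨h1, i, h5, h3⟩

/-- The ends of the members of a linkage in the minor, with injective indices. -/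
theorem ends {ι κ : Type} (h : Model G R H U' φ) {s : Finset ι} {p : ι → V} {P : κ → Finset V}
    (hd : ∀ i j, i ≠ j → Disjoint (P i) (P j))
    (hl : ∀ k, ∃ w ∈ tr U' φ (s.image p), w ∈ P k) :
    ∃ (x : κ → V) (α : κ → ι), Function.Injective α ∧
      ∀ k, x k ∈ U' ∧ x k ∈ P k ∧ α k ∈ s ∧ p (α k) ∈ φ (x k) := by
  have h1 : ∀ k, ∃ (w : V) (i : ι), w ∈ U' ∧ w ∈ P k ∧ i ∈ s ∧ p i ∈ φ w := fun k => by
    obtain ⟨w, h2, h3⟩ := hl k
    obtain ⟨h4, i, h5, h6⟩ := of_mem_tr h2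
    exact ⟨w, i, h4, h3, h5, h6⟩
  choose x α hx using h1
  refine ⟨x, α, fun k k' e => ?_, hx⟩
  have h2 : x k = x k' :=
    eq_of_mem h (hx k).1 (hx k').1 (hx k).2.2.2 (e ▸ (hx k').2.2.2)
  by_contra hne
  exact disjoint_left.1 (hd k k' hne) (hx k).2.1 (h2 ▸ (hx k').2.1)

end Round

open Round in
theorem round (hs : SpStmt) (hi : InvStmt) : RoundStmt := by
  intro V ι _ _ G R a b σ S hSC hw hσ hS
  obtain ⟨β, h1, h2⟩ := hSC
  have ha : FreeH (Fintype.card ι) β (a ∘ σ) :=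
    h2.comp (φ := Sum.inl ∘ σ) (Sum.inl_injective.comp hσ) le_rfl
  have hb : FreeH (Fintype.card ι) β b := h2.comp Sum.inr_injective le_rfl
  obtain ⟨hS1, hS2⟩ := hS
  obtain ⟨P, hP, -⟩ := menger_from (G := G) (U := R) (B := univ.image b) (a ∘ σ) (fun Z hZ => by
    obtain ⟨i, -, h3⟩ := ha.exists_mem hZ (s := univ) hZ
    obtain ⟨j, -, h4⟩ := hb.exists_mem hZ (s := univ) hZ
    exact h1.joined hZ ⟨_, mem_image_of_mem _ (mem_univ i), h3⟩
      ⟨_, mem_image_of_mem _ (mem_univ j), h4⟩)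
  obtain ⟨Q, hQ⟩ := menger R S.card _ G (S.image (a ∘ σ)) (Sᶜ.image (a ∘ σ)) le_rfl
    (fun Z hZ => by
      have hZ' : Z.card < Fintype.card ι := by omega
      obtain ⟨i, h3, h4⟩ := ha.exists_mem hZ' hZ
      obtain ⟨j, h5, h6⟩ := ha.exists_mem hZ' (s := Sᶜ) (by rw [card_compl]; omega)
      exact h1.joined hZ' ⟨_, mem_image_of_mem _ h3, h4⟩ ⟨_, mem_image_of_mem _ h5, h6⟩)
  obtain ⟨H, U', φ, P', Q', s1, s2, s3, s4, s5, s6⟩ := hs V ι (Fin S.card) G R _ _ _ _ P Q hP hQ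
  obtain ⟨x, α, α1, α2⟩ := ends s2 s3.disj s3.left
  obtain ⟨y, ε, ε1, ε2⟩ := ends s2 s3.disj s3.right
  obtain ⟨xu, u, u1, u2⟩ := ends s2 s4.disj s4.left
  obtain ⟨xv, v, v1, v2⟩ := ends s2 s4.disj s4.right
  let E := Equiv.ofBijective α (Finite.injective_iff_bijective.1 α1)
  have hE : ∀ i, α (E.symm i) = i := fun i => E.apply_symm_apply i
  have hsa : ∀ i, a (σ i) ∈ φ (x (E.symm i)) := fun i => by
    have := (α2 (E.symm i)).2.2.2
    rwa [hE] at this
  have hmeet : ∀ (w : V) (i : ι) (T : Finset V), w ∈ U' → w ∈ T → a (σ i) ∈ φ w →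
      ¬ Disjoint T (P' (E.symm i)) := fun w i T h3 h4 h5 =>
    not_disjoint_iff.2 ⟨w, h4, eq_of_mem s2 (α2 _).1 h3 (hsa i) h5 ▸ (α2 _).2.1⟩
  obtain ⟨μ, W, m1, m2, m3⟩ := hi V ι (Fin S.card) H (fun i => P' (E.symm i)) S u v Q' u1 v1
    (fun k => (u2 k).2.2.1) (fun k => mem_compl.1 (v2 k).2.2.1) s4.conn s4.disj
    (fun k => hmeet _ _ _ (u2 k).1 (u2 k).2.1 (u2 k).2.2.2)
    (fun k => hmeet _ _ _ (v2 k).1 (v2 k).2.1 (v2 k).2.2.2)
  refine ⟨ε ∘ E.symm, μ, ⟨H, U', φ, fun i => P' (E.symm i), fun i => x (E.symm i),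
    fun i => y (E.symm i), W⟩, ε1.comp E.symm.injective, by simpa using m2,
    ⟨s1, s2, s5, s6.trans ?_, ⟨fun i => s3.sub _, fun i => s3.conn _,
      fun i j hij => s3.disj _ _ fun e => hij (E.symm.injective e)⟩, fun i => (α2 _).2.1,
      fun i => (ε2 _).2.1, hsa, fun i => (ε2 _).2.2.2, m1, fun z hz => ?_⟩⟩
  · rw [Fintype.card_fin]
    have h3 : (Fintype.card ι + S.card) ^ 3 ≤ (2 * Fintype.card ι) ^ 3 :=
      Nat.pow_le_pow_left (by omega) 3
    rw [mul_pow] at h3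
    omega
  · obtain ⟨k, hk⟩ := m3 z hz
    exact hk.subset.trans (s4.sub k)

namespace Round

variable {V ι : Type}

/-- The graph on the union of the minors of the first `t` rounds. -/
def glued (t : ℕ) (D : ℕ → RD V ι) : SimpleGraph V := SimpleGraph.fromRel fun u v =>
  (∃ j < t, u ∈ (D j).U ∧ v ∈ (D j).U ∧ (D j).H.Adj u v) ∨
    ∃ j, j + 1 < t ∧ ∃ i, u = (D j).e i ∧ v = (D (j + 1)).s i

variable {t : ℕ} {D : ℕ → RD V ι}

theorem glued_in {j : ℕ} (hj : j < t) {u v : V} (hu : u ∈ (D j).U) (hv : v ∈ (D j).U)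
    (h : (D j).H.Adj u v) : (glued t D).Adj u v :=
  (SimpleGraph.fromRel_adj _ _ _).2 ⟨h.ne, Or.inl (Or.inl ⟨j, hj, hu, hv, h⟩)⟩

theorem glued_conn {j : ℕ} (hj : j < t) {S : Finset V} (hS : S ⊆ (D j).U)
    (h : Conn (D j).H S) : Conn (glued t D) S :=
  h.mono' fun _ _ huv hu hv => glued_in hj (hS hu) (hS hv) huv

theorem glued_link {j : ℕ} (hj : j + 1 < t) (i : ι) (h : (D j).e i ≠ (D (j + 1)).s i) :
    (glued t D).Adj ((D j).e i) ((D (j + 1)).s i) :=
  (SimpleGraph.fromRel_adj _ _ _).2 ⟨h, Or.inl (Or.inr ⟨j, hj, i, rfl, rfl⟩)⟩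

theorem glued_cases {u v : V} (h : (glued t D).Adj u v) :
    (∃ j < t, u ∈ (D j).U ∧ v ∈ (D j).U ∧ (D j).H.Adj u v) ∨
      (∃ j, j + 1 < t ∧ ∃ i, u = (D j).e i ∧ v = (D (j + 1)).s i) ∨
      ∃ j, j + 1 < t ∧ ∃ i, v = (D j).e i ∧ u = (D (j + 1)).s i := by
  rcases ((SimpleGraph.fromRel_adj _ _ _).1 h).2 with (h | h) | (⟨j, h1, h2, h3, h4⟩ | h)
  · exact Or.inl h
  · exact Or.inr (Or.inl h)
  · exact Or.inl ⟨j, h1, h3, h2, h4.symm⟩
  · exact Or.inr (Or.inr h)

/-- A relation given by two maps, the first of them injective, has at most one value. -/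
theorem card_le_one' {p q : ι → V} (hp : Function.Injective p) (v : V) {F : Finset V}
    (hF : ∀ u ∈ F, ∃ i, v = p i ∧ u = q i) : F.card ≤ 1 := by
  refine card_le_one.2 fun u hu u' hu' => ?_
  obtain ⟨i, h1, rfl⟩ := hF u hu
  obtain ⟨i', h2, rfl⟩ := hF u' hu'
  rw [hp (h1.symm.trans h2)]

end Round

open Round in
theorem glue : GlueStmt := by
  intro V ι _ _ G l t N U0 R A B σ M D hC ht hl hD
  have hdR : ∀ j < t, ∀ j' < t, j ≠ j' → Disjoint (R j) (R j') := fun j hj j' hj' =>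
    hC.disj j (by omega) j' (by omega)
  have huniq : ∀ j < t, ∀ j' < t, ∀ v, v ∈ (D j).U → v ∈ (D j').U → j = j' :=
    fun j hj j' hj' v h1 h2 => by
      by_contra hne
      exact disjoint_left.1 (hdR j hj j' hj' hne) ((hD j hj).sub h1) ((hD j' hj').sub h2)
  have hidx : ∀ v : V, ∃ n : ℕ, ∀ j < t, v ∈ (D j).U → n = j := fun v => by
    by_cases h : ∃ j < t, v ∈ (D j).U
    · obtain ⟨j, hj, hv⟩ := h
      exact ⟨j, fun j' hj' hv' => huniq j hj j' hj' v hv hv'⟩
    · exact ⟨0, fun j hj hv => absurd ⟨j, hj, hv⟩ h⟩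
  choose idx hidx using hidx
  have hs : ∀ j < t, ∀ i, (D j).s i ∈ (D j).U := fun j hj i => (hD j hj).tok.sub i ((hD j hj).smem i)
  have he : ∀ j < t, ∀ i, (D j).e i ∈ (D j).U := fun j hj i => (hD j hj).tok.sub i ((hD j hj).emem i)
  have hU : ∀ {v}, v ∈ (range t).biUnion (fun j => (D j).U) ↔ ∃ j < t, v ∈ (D j).U := by simp
  have hsubU : ∀ j < t, (D j).U ⊆ (range t).biUnion fun j => (D j).U := fun j hj v hv =>
    hU.2 ⟨j, hj, hv⟩
  have hsubL : ∀ j < t, ∀ i, (D j).P i ⊆ (range t).biUnion fun j => (D j).P i := fun j hj i =>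
    subset_biUnion_of_mem (fun j => (D j).P i) (mem_range.2 hj)
  have htouch : ∀ j, j + 1 < t → ∀ i, Touch G ((D (idx ((D j).e i))).φ ((D j).e i))
      ((D (idx ((D (j + 1)).s i))).φ ((D (j + 1)).s i)) := fun j hj i => by
    rw [hidx _ j (by omega) (he j (by omega) i), hidx _ (j + 1) hj (hs _ hj i)]
    exact ⟨_, (hD j (by omega)).eb i, _, (hD _ hj).sa i, hC.adj j (by omega) _⟩
  refine ⟨glued t D, (range t).biUnion fun j => (D j).U, fun v => (D (idx v)).φ v,
    fun i => (range t).biUnion fun j => (D j).P i,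
    ⟨fun _ _ => subset_univ _, fun w hw => ?_, fun w hw w' hw' hne => ?_,
      fun w hw w' hw' h => ?_⟩, fun v hv => ?_, ?_,
    ⟨fun i => biUnion_mono fun j hj => (hD j (mem_range.1 hj)).tok.sub i, fun i => ?_,
      fun i i' hne => ?_⟩, fun j hj => ?_, fun j hj x hx => ((hD j hj).wsub x hx).trans (hsubU j hj)⟩
  · obtain ⟨j, hj, hw⟩ := hU.1 hw
    simp only [hidx w j hj hw]
    exact (hD j hj).model.conn w hw
  · obtain ⟨j, hj, hw⟩ := hU.1 hw
    obtain ⟨j', hj', hw'⟩ := hU.1 hw'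
    simp only [hidx w j hj hw, hidx w' j' hj' hw']
    by_cases e : j = j'
    · subst e
      exact (hD j hj).model.disj w hw w' hw' hne
    · exact (hdR j hj j' hj' e).mono ((hD j hj).model.sub w hw) ((hD j' hj').model.sub w' hw')
  · rcases glued_cases h with ⟨j, hj, h1, h2, h3⟩ | ⟨j, hj, i, rfl, rfl⟩ | ⟨j, hj, i, rfl, rfl⟩
    · simp only [hidx w j hj h1, hidx w' j hj h2]
      exact (hD j hj).model.adj w h1 w' h2 h3
    · exact htouch j hj i
    · exact (htouch j hj i).symm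
  · obtain ⟨j, hj, hv⟩ := hU.1 hv
    have i1 : Function.Injective (D j).e :=
      inj_of_disj (P := (D j).P) (y := id) (hD j hj).emem (hD j hj).tok.disj
    have i2 : Function.Injective (D j).s :=
      inj_of_disj (P := (D j).P) (y := id) (hD j hj).smem (hD j hj).tok.disj
    have hsub : (((range t).biUnion fun j => (D j).U).filter fun u => (glued t D).Adj v u) ⊆
        ((D j).U.filter fun u => (D j).H.Adj v u) ∪
          ((univ.filter fun u => ∃ i, v = (D j).e i ∧ u = (D (j + 1)).s i) ∪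
            univ.filter fun u => ∃ i, v = (D j).s i ∧ u = (D (j - 1)).e i) := by
      intro u hu
      simp only [mem_union, mem_filter, mem_univ, true_and]
      rcases glued_cases (mem_filter.1 hu).2 with
        ⟨j', hj', h1, h2, h3⟩ | ⟨j', hj', i, h1, h2⟩ | ⟨j', hj', i, h1, h2⟩
      · obtain rfl := huniq j hj j' hj' v hv h1
        exact Or.inl ⟨h2, h3⟩
      · obtain rfl := huniq j hj j' (by omega) v hv (h1 ▸ he j' (by omega) i)
        exact Or.inr (Or.inl ⟨i, h1, h2⟩)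
      · obtain rfl := huniq j hj (j' + 1) hj' v hv (h2 ▸ hs _ hj' i)
        exact Or.inr (Or.inr ⟨i, h2, h1⟩)
    exact (card_le_card hsub).trans ((card_union_le _ _).trans
      (Nat.add_le_add ((hD j hj).deg v hv) ((card_union_le _ _).trans (Nat.add_le_add
        (card_le_one' i1 v fun u hu => (mem_filter.1 hu).2)
        (card_le_one' i2 v fun u hu => (mem_filter.1 hu).2)))))
  · refine (card_biUnion_le_card_mul _ _ N fun j hj => (hD j (mem_range.1 hj)).card).trans ?_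
    rw [card_range]
  · have key : ∀ m, m < t → Conn (glued t D) ((range (m + 1)).biUnion fun j => (D j).P i) := by
      intro m
      induction m with
      | zero =>
        intro h0
        simpa using glued_conn h0 ((hD 0 h0).tok.sub i) ((hD 0 h0).tok.conn i)
      | succ m ih =>
        intro hm
        rw [range_add_one, biUnion_insert, union_comm]
        refine (ih (by omega)).union_adj (glued_conn hm ((hD _ hm).tok.sub i) ((hD _ hm).tok.conn i))
          (mem_biUnion.2 ⟨m, mem_range.2 (by omega), (hD m (by omega)).emem i⟩) ((hD _ hm).smem i)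
          (glued_link hm i fun e => ?_)
        have := huniq m (by omega) (m + 1) hm _ (he m (by omega) i) (e ▸ hs _ hm i)
        omega
    have := key (t - 1) (by omega)
    rwa [show t - 1 + 1 = t by omega] at this
  · rw [disjoint_biUnion_left]
    intro j hj
    rw [disjoint_biUnion_right]
    intro j' hj'
    rw [mem_range] at hj hj'
    by_cases e : j = j'
    · subst e
      exact (hD j hj).tok.disj i i' hne
    · exact (hdR j hj j' hj' e).mono (((hD j hj).tok.sub i).trans (hD j hj).sub)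
        (((hD j' hj').tok.sub i').trans (hD j' hj').sub)
  · have h := (hD j hj).rnd
    exact ⟨h.inv, fun x hx => glued_conn hj ((hD j hj).wsub x hx) (h.conn x hx),
      fun x hx hc => h.left x hx (hc.mono_right (hsubL j hj x)),
      fun x hx hc => h.right x hx (hc.mono_right (hsubL j hj _)), h.disj⟩

theorem sparse (hcm : CMStmt) (hel : ELStmt) (hr : RoundStmt) (hg : GlueStmt) : SparseStmt := by
  intro V _ G g k Λ l U0 R A B hC hl hΛ hk hgΛ hgk
  have hn : Fintype.card (Fin (4 * g)) = 4 * g := Fintype.card_fin _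
  have hkg : k ≤ g := le_trans (Nat.le_mul_of_pos_left _ (by omega)) hgk
  have hg1 : 1 ≤ g := hk.trans hkg
  obtain ⟨t, ht, M, ⟨σ, -, hD⟩, hM⟩ := hcm (Fin (4 * g)) g (49 * Λ) Λ
    (fun t M => ∃ σ : ℕ → Fin (4 * g) → Fin (4 * g), Function.Injective (σ t) ∧ ∀ j < t, ∃ D,
      RoundOK G (R j) (A j) (B j) (σ j) (σ (j + 1)) (M j) (16 * (4 * g) ^ 3) D)
    (by rw [hn]; exact hgΛ) (by
      rw [hn]
      have : 0 < g * Λ := Nat.mul_pos hg1 hΛ
      nlinarith)
    ⟨fun _ => id, Function.injective_id, fun j hj => absurd hj (Nat.not_lt_zero j)⟩ (by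
      rintro t ht M ⟨σ, h1, h2⟩ S hS
      obtain ⟨σ', μ, D, r1, r2, r3⟩ := hr V (Fin (4 * g)) G (R t) (A t) (B t) (σ t) S
        (hC.cl t (by omega)).2 (by omega) h1 hS
      have h3 := hS.1
      rw [hn] at h3 r3
      refine ⟨μ, r3.rnd.inv, by omega, Function.update σ (t + 1) σ', by simpa using r1,
        fun j hj => ?_⟩
      by_cases e : j = t
      · subst e
        refine ⟨D, ?_⟩
        rw [Function.update_self, Function.update_self, Function.update_of_ne (by omega)]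
        exact r3
      · rw [Function.update_of_ne e, Function.update_of_ne (by omega),
          Function.update_of_ne (by omega)]
        exact h2 j (by omega))
  have ht1 : 1 ≤ t := by
    obtain ⟨S, -, hS⟩ := exists_subset_card_eq (s := (univ : Finset (Fin (4 * g)))) (n := g)
      (by rw [card_univ]; omega)
    have := hM S ⟨by omega, by omega⟩
    by_contra h0
    obtain rfl : t = 0 := by omega
    simp at this
  obtain ⟨D0, -⟩ := hD 0 (by omega)
  have hD' : ∀ j, ∃ D, j < t →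
      RoundOK G (R j) (A j) (B j) (σ j) (σ (j + 1)) (M j) (16 * (4 * g) ^ 3) D := fun j => by
    by_cases hj : j < t
    · exact (hD j hj).imp fun _ h _ => h
    · exact ⟨D0, fun h => absurd h hj⟩
  choose D hD' using hD'
  obtain ⟨H, U, φ, L, g1, g2, g3, g4, g5, g6⟩ :=
    hg V (Fin (4 * g)) G l t _ U0 R A B σ M D hC ht1 (by omega) hD'
  refine ⟨H, U, φ, g1, g2, g3.trans (Nat.mul_le_mul_right _ ht),
    hel V (Fin (4 * g)) H U L t g k M (fun j => (D j).W) g4 g5 g6 hM ?_ (by omega)⟩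
  exact le_trans (Nat.mul_le_mul_right _ (Nat.mul_le_mul_left _ ht)) hgk

end Pool.Agent.MP_35cb46_co.Sq

end MrgPart2

-- marker of a merged file
example : 731051 + 632551 = 731051 + 632551 := rfl
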