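import Mathlib.Algebra.BigOperators.Field
import Mathlib.Algebra.Order.Star.Real
import Mathlib.Analysis.Complex.ExponentialBounds
import Mathlib.Analysis.SpecialFunctions.Log.NegMulLog
import Mathlib.RingTheory.PiTensorProduct
import Pool.Agent.MP_35cb46_co.sq.Round

-- ======== part 0: formerly Pool.Agent.MP_35cb46_co.sq.Main
section MrgPart0

/-! Assembly of the bound `p ^ 2 * q * polylog` from the modules. -/

namespace Pool.Agent.MP_35cb46_co.Sq

open Finset Pool.Agent.MP_7be75d_co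
open scoped Classical

theorem Rich.core {V : Type} {G : SimpleGraph V} {U : Finset V} {k : ℕ} (h : Rich G U (k + 1)) :
    ∃ T ⊆ U, Conn G T ∧ Rich G T (k + 1) := by
  obtain ⟨β, h0⟩ := h
  obtain ⟨β', h1, -⟩ := h0.transfer (β ∅) ∅ (k + 1) (by simp) (fun _ => subset_rfl)
  exact ⟨β ∅, h0.subU (by simp), h0.conn ∅ (by simp), β', h1⟩

theorem clus' (hcl : ClusStmt) {V : Type} {G : SimpleGraph V} {U : Finset V}
    {β : Finset V → Finset V} {Δ t K : ℕ} (hD : Deg G U Δ) (h : Haven G U K β) (ht : 1 ≤ t)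
    (hK : 48 * Δ ^ 2 * t + t + 1 < K) : ∃ (κ : Type) (_ : Fintype κ) (cl : κ → Finset V),
      (∀ C C', C ≠ C' → Disjoint (cl C) (cl C')) ∧ (∀ C, Conn G (cl C)) ∧
      (∀ v ∈ U, ∃ C, v ∈ cl C) ∧
      (∀ C, Small G U K β (cl C) ∧ eout G U (cl C) ≤ 48 * Δ ^ 2 * t) ∧
      ∀ X : Finset κ, ¬ Rich G (X.biUnion cl) (t + 1) →
        5 * ∑ C ∈ X, eout G U (cl C) ≤ 6 * eout G U (X.biUnion cl) := by
  obtain ⟨PP, hP, hS, hmin⟩ := hcl V G U β Δ t K hD h ht hK
  refine ⟨PP, inferInstance, fun C => C, fun C C' h => hP.disj _ C.2 _ C'.2 fun e =>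
    h (Subtype.ext e), fun C => hP.conn _ C.2, fun v hv => ?_, fun C => hS _ C.2, fun X hX => ?_⟩
  · obtain ⟨C, h1, h2⟩ := mem_biUnion.1 (hP.un ▸ hv)
    exact ⟨⟨C, h1⟩, h2⟩
  · have e1 : (X.map (Function.Embedding.subtype _)).biUnion id = X.biUnion fun C => C.1 := by
      ext v; simp
    have := hmin (X.map (Function.Embedding.subtype _))
      (fun C hC => by obtain ⟨C', -, rfl⟩ := mem_map.1 hC; exact C'.2) (e1 ▸ hX)
    rwa [e1, sum_map] at this

theorem piece (hcl : ClusStmt) (hco : CoreStmt) (hat : AttachStmt) (hq : QuotStmt)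
    (hp : PullStmt) : PieceStmt := by
  obtain ⟨c, hc⟩ := hco
  refine ⟨1728 * (7 * c + 12) + 1731, fun V _ G U p q Λ K hD hU hp1 hq1 hΛ hR hK => ?_⟩
  have n1 : Λ ≤ Λ ^ 13 := Nat.le_self_pow (by omega) _
  have n2 : p ≤ p ^ 2 := Nat.le_self_pow (by omega) _
  obtain ⟨m, hm⟩ : ∃ m, m = p ^ 2 * Λ ^ 13 := ⟨_, rfl⟩
  have n3 : p * Λ ≤ m := hm ▸ Nat.mul_le_mul n2 n1
  have n4 : p ≤ m := le_trans (Nat.le_mul_of_pos_right _ hΛ) n3
  have n5 : q * ((1728 * (7 * c + 12) + 1731) * m) ≤ K := le_trans (le_of_eq (by rw [hm]; ring)) hK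
  have n6 : (1728 * (7 * c + 12) + 1731) * m ≤ K := le_trans (Nat.le_mul_of_pos_left _ hq1) n5
  obtain ⟨K, rfl⟩ : ∃ K', K = K' + 1 := ⟨K - 1, by nlinarith [Nat.sub_add_cancel (show 1 ≤ K by
    nlinarith)]⟩
  obtain ⟨U0, hU0, hc0, β, h⟩ := hR.core
  have hD0 := hD.mono hU0
  obtain ⟨PP, _, cl, dj, hcn, hcov, hS, hmin⟩ := clus' hcl hD0 h hp1 (by nlinarith)
  let w : PP → PP → ℕ := fun C C' => if C = C' then 0 else cw (aw G) (cl C) (cl C')
  have hsub : ∀ C, cl C ⊆ U0 := fun C => (hS C).1.1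
  have key : ∀ X : Finset PP, cw w X (univ \ X) = eout G U0 (X.biUnion cl) := by
    intro X
    have e1 : U0 \ X.biUnion cl = (univ \ X).biUnion cl := by
      ext v
      simp only [mem_sdiff, mem_biUnion, mem_univ, true_and]
      constructor
      · rintro ⟨h1, h2⟩
        obtain ⟨C, hC⟩ := hcov v h1
        exact ⟨C, fun h3 => h2 ⟨C, h3, hC⟩, hC⟩
      · rintro ⟨C, h1, h2⟩
        refine ⟨hsub C h2, fun ⟨C', h3, h4⟩ => ?_⟩
        exact disjoint_left.1 (dj C C' fun e => h1 (e ▸ h3)) h2 h4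
    rw [eout, e1, cw_biUnion fun i _ j _ => dj i j, cw]
    refine sum_congr rfl fun C hC => ?_
    rw [cw_comm aw_comm, cw_biUnion fun i _ j _ => dj i j]
    refine sum_congr rfl fun C' hC' => ?_
    rw [cw_comm aw_comm]
    exact if_neg fun e : C = C' => (mem_sdiff.1 hC').2 (e ▸ hC)
  have split : ∀ X : Finset PP, vol w X = eout G U0 (X.biUnion cl) + cw w X X := fun X => by
    rw [← key, cw_sdiff_right (subset_univ X), vol]
  have vol1 : ∀ C, vol w {C} = eout G U0 (cl C) := fun C => by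
    rw [split, singleton_biUnion]
    simp [cw, w]
  have volX : ∀ X : Finset PP, vol w X = ∑ C ∈ X, eout G U0 (cl C) := fun X => by
    rw [vol, cw_eq_sum]
    exact sum_congr rfl fun C _ => vol1 C
  have hW : WG w (1728 * p) Λ := by
    refine ⟨fun a b => ?_, fun a => if_pos rfl, fun a => ?_, fun a => ?_, ?_⟩
    · simp only [w, eq_comm (a := a), cw_comm aw_comm (cl a)]
    · rw [vol1]
      exact (hS a).2.trans (by omega)
    · rw [vol1]
      refine lt_of_lt_of_le (card_pos.2 ?_) card_bd_le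
      obtain ⟨x, hx⟩ := (hcn a).1
      obtain ⟨y, hy⟩ := (h.conn _ (hS a).1.2.1).1
      obtain ⟨u, v, h1, h2, -, h4, h5⟩ := hc0.exit (hsub a hx) hx (h.subU (hS a).1.2.1 hy)
        (disjoint_left.1 (hS a).1.2.2 hy)
      exact ⟨u, mem_bd.2 ⟨h1, v, h4, h2, h5⟩⟩
    · have h1 : vol w univ ≤ cw (aw G) (univ.biUnion cl) U0 := by
        rw [volX, cw_biUnion fun i _ j _ => dj i j]
        exact sum_le_sum fun C _ => cw_mono subset_rfl sdiff_subset
      have h2 : univ.biUnion cl ⊆ U0 := biUnion_subset.2 fun C _ => hsub C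
      have h3 := hD0.cw_le h2 subset_rfl
      have h4 := card_le_card (h2.trans hU0)
      omega
  have hadj : ∀ C C', (qg w).Adj C C' → Touch G (cl C) (cl C') := fun C C' hC => by
    have h1 := hW.adj.1 hC
    simp only [w, if_neg hC.ne] at h1
    obtain ⟨x, hx, y, hy, h2⟩ := exists_of_cw_pos h1
    exact ⟨x, hx, y, hy, by by_contra hn; simp [aw, hn] at h2⟩
  have hadj' : ∀ C C', C ≠ C' → Touch G (cl C) (cl C') → (qg w).Adj C C' := by
    rintro C C' hne ⟨x, hx, y, hy, hxy⟩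
    rw [hW.adj]
    simp only [w, if_neg hne]
    refine lt_of_lt_of_le ?_ (cw_mono (singleton_subset_iff.2 hx) (singleton_subset_iff.2 hy))
    simp only [cw, aw, sum_singleton, if_pos hxy, Nat.one_pos]
  have hM : Model G U0 (qg w) univ cl :=
    ⟨fun C _ => hsub C, fun C _ => hcn C, fun C _ C' _ => dj C C', fun C _ C' _ => hadj C C'⟩
  obtain ⟨n, P, hT, hPc, hPg⟩ := hat PP w (1728 * p) Λ (c * (1728 * p) * p * Λ ^ 13)
    (fun X => Rich G (X.biUnion cl) (p + 1)) hW
    (fun X X' hX h1 => h1.mono le_rfl (biUnion_subset_biUnion_of_subset_left _ hX) le_rfl) (by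
      intro Y hY hY'
      obtain ⟨X, h1, h2, h3⟩ := hc PP w (1728 * p) Λ p (fun X => Rich G (X.biUnion cl) (p + 1))
        hW hp1 (fun X hX => by
          have := hmin X hX
          have h4 := split X
          have h5 := volX X
          omega)
        (fun X hX => hp V PP G U0 (qg w) univ X cl _ hM (subset_univ _) hX) Y hY hY'
      obtain ⟨T, t1, t2, t3⟩ := h2.core
      have t4 : ∀ v ∈ T, ∃ C, v ∈ cl C := fun v hv => by
        obtain ⟨C, -, hC⟩ := mem_biUnion.1 (t1 hv)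
        exact ⟨C, hC⟩
      have t5 : (univ.filter fun C => ¬ Disjoint (cl C) T) ⊆ X := fun C hC => by
        obtain ⟨v, h4, h5⟩ := not_disjoint_iff.1 (mem_filter.1 hC).2
        obtain ⟨C', h6, h7⟩ := mem_biUnion.1 (t1 h5)
        by_contra hn
        exact disjoint_left.1 (dj C C' fun e => hn (e ▸ h6)) h4 h7
      refine ⟨_, t5.trans h1, conn_trace t2 dj t4 hadj', t3.mono le_rfl (fun v hv => ?_) le_rfl,
        (vol_mono t5).trans h3⟩
      obtain ⟨C, hC⟩ := t4 v hv
      exact mem_biUnion.2 ⟨C, mem_filter.2 ⟨mem_univ _, not_disjoint_iff.2 ⟨v, hC, hv⟩⟩, hC⟩)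
  have hB : ∀ j, vol w (P j) ≤ 1728 * (7 * c + 12) * m := fun j => (hPg j).2.trans (by
    have : 7 * (c * (1728 * p) * p * Λ ^ 13) = 1728 * (7 * c) * m := by rw [hm]; ring
    nlinarith)
  have hdS : ∀ i j, i ≠ j → Disjoint ((P i).biUnion cl) ((P j).biUnion cl) := fun i j hij => by
    rw [disjoint_biUnion_left]
    intro C hC
    rw [disjoint_biUnion_right]
    exact fun C' hC' => dj C C' fun e => disjoint_left.1 (hT.disj i j hij) hC (e ▸ hC')
  have hsS : ∀ j, (P j).biUnion cl ⊆ U0 := fun j => biUnion_subset.2 fun C _ => hsub C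
  refine ⟨n, fun j => (P j).biUnion cl, ⟨fun j => (hsS j).trans hU0, fun j =>
    (hT.conn j).biUnion (fun C _ => hcn C) fun C _ C' _ => hadj C C', hdS⟩,
    fun j => (hPg j).1, hq V _ G U0 β (K + 1) (1728 * (7 * c + 12) * m) q _ h hdS
      (fun v hv => ?_) (fun j => ?_) (by nlinarith)⟩
  · obtain ⟨C, hC⟩ := hcov v hv
    obtain ⟨j, hj⟩ := hPc C
    exact ⟨j, mem_biUnion.2 ⟨C, hj, hC⟩⟩
  · have h1 : ((P j).biUnion fun C => bd G U0 (cl C)).card ≤ 1728 * (7 * c + 12) * m := by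
      refine card_biUnion_le.trans (le_trans ?_ (hB j))
      rw [volX]
      exact sum_le_sum fun C _ => card_bd_le
    have h2 : bd G U0 ((P j).biUnion cl) ⊆ (P j).biUnion fun C => bd G U0 (cl C) := fun v hv => by
      obtain ⟨h3, u, h4, h5, h6⟩ := mem_bd.1 hv
      obtain ⟨C, h7, h8⟩ := mem_biUnion.1 h3
      exact mem_biUnion.2 ⟨C, h7, mem_bd.2 ⟨h8, u, h4, fun h9 =>
        h5 (mem_biUnion.2 ⟨C, h7, h9⟩), h6⟩⟩
    have h3 : ((P j).biUnion fun C => bd G U0 (cl C)).card < K + 1 := by nlinarith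
    refine ⟨h.small (hsS j) h2 h3 ?_, (card_le_card h2).trans h1⟩
    rw [disjoint_biUnion_right]
    exact fun C hC => (hS C).1.disj h (subset_biUnion_of_mem (fun C => bd G U0 (cl C)) hC) h3

theorem exists_dom (D k : ℕ) : ∃ a : ℕ, ∀ n, a ≤ n → D * n ^ k ≤ 2 ^ n := by
  have h := (tendsto_pow_const_div_const_pow_of_one_lt k (r := 2) (by norm_num)).const_mul (D : ℝ)
  rw [mul_zero] at h
  obtain ⟨a, ha⟩ := Filter.eventually_atTop.1 (h.eventually (gt_mem_nhds one_pos))
  refine ⟨a, fun n hn => ?_⟩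
  have := ha n hn
  rw [← mul_div_assoc, div_lt_one (by positivity)] at this
  exact_mod_cast this.le

theorem chain_of_treewidth : ∃ c : ℕ, ∀ (l s : ℕ) (V : Type) [Fintype V] (G : SimpleGraph V),
    1 ≤ l → 1 < s → c * l ^ c * s ≤ treewidth G →
    ∃ (n : ℕ) (U : Finset V) (R : ℕ → Finset V) (A B : ℕ → Fin s → V), l ≤ n ∧ Ch G U n R A B := by
  obtain ⟨c, hc, h1⟩ := long_chain
  obtain ⟨ρ, lam, h2⟩ := pos_of_treewidth 1
  refine ⟨lam * 2 * 2 ^ c + c, fun l s V _ G hl s1 htw => ?_⟩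
  obtain ⟨k, k1, k2⟩ : ∃ k, l ≤ 2 ^ k ∧ 2 ^ k ≤ 2 * l := by
    refine ⟨Nat.log 2 l + 1, (Nat.lt_pow_succ_log_self (by omega) _).le, ?_⟩
    have := Nat.pow_log_le_self 2 (show l ≠ 0 by omega)
    rw [pow_succ]
    omega
  have s3 : c ^ k ≤ 2 ^ c * l ^ (lam * 2 * 2 ^ c + c) :=
    calc c ^ k ≤ (2 ^ c) ^ k := Nat.pow_le_pow_left Nat.lt_two_pow_self.le _
      _ = (2 ^ k) ^ c := by rw [← pow_mul, ← pow_mul, mul_comm]
      _ ≤ (2 * l) ^ c := Nat.pow_le_pow_left k2 _
      _ ≤ _ := by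
        rw [mul_pow]
        exact Nat.mul_le_mul_left _ (Nat.pow_le_pow_right hl (by omega))
  obtain ⟨u, hu⟩ : ∃ u, u = c ^ k * s := ⟨_, rfl⟩
  obtain ⟨w, σ, C, c1, c2, -, -⟩ := h2 G (2 * u) (by rw [hu]; positivity) (le_trans (by
    calc lam * (2 * u) ≤ lam * (2 * (2 ^ c * l ^ (lam * 2 * 2 ^ c + c) * s)) :=
          Nat.mul_le_mul_left _ (Nat.mul_le_mul_left _ (hu ▸ Nat.mul_le_mul_right _ s3))
      _ = lam * 2 * 2 ^ c * l ^ (lam * 2 * 2 ^ c + c) * s := by ring
      _ ≤ _ := Nat.mul_le_mul_right _ (Nat.mul_le_mul_right _ (by omega))) htw)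
  have c3 := c2.cl 0 (by omega)
  obtain ⟨η⟩ := Function.Embedding.nonempty_of_card_le (α := Fin u ⊕ Fin u) (β := Fin w)
    (by simp; omega)
  have c4 : SC G (C 0).reg ((C 0).a ∘ η ∘ Sum.inl) ((C 0).a ∘ η ∘ Sum.inr) := by
    have := Fr.comp (G := G) ⟨_, c3.hv, c3.indep⟩ η.injective (K' := Fintype.card (Fin u))
      (by simp; omega)
    unfold SC
    convert this using 1
    ext (i | i) <;> rfl
  obtain ⟨n, φ, ψ, n1, R, A, B, n2, -⟩ := h1 k c4 s1 (by simp [hu])
  exact ⟨n + 1, _, R, A, B, k1.trans n1, n2⟩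

theorem main_of (hsp : SparseStmt) (hpi : PieceStmt) (hp : PullStmt) : MainStmt := by
  obtain ⟨c1, h1⟩ := hpi
  obtain ⟨c, h2⟩ := chain_of_treewidth
  obtain ⟨E, hE⟩ : ∃ E, E = 12 * (c1 + 1) := ⟨_, rfl⟩
  obtain ⟨a, ha⟩ := exists_dom ((4704 * (3528 * E) ^ 3) ^ 2) 86
  obtain ⟨C0, hC0⟩ : ∃ C0, C0 = c * 49 ^ c * (3528 * E) * (12 + a) ^ (c + 14) := ⟨_, rfl⟩
  refine ⟨C0 + (c + 14), fun p q V _ G hp1 hq1 htw => ?_⟩
  obtain ⟨l, hl⟩ : ∃ l, l = Nat.log 2 (p * q) + 1 := ⟨_, rfl⟩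
  have l1 : p * q < 2 ^ l := hl ▸ Nat.lt_pow_succ_log_self (by omega) _
  have l2 : 1 ≤ l := by omega
  rw [← hl] at htw
  obtain ⟨Λ, hΛ⟩ : ∃ Λ, Λ = 12 * l + a := ⟨_, rfl⟩
  have Λ1 : 1 ≤ Λ := by omega
  have Λ2 : Λ ≤ (12 + a) * l := by nlinarith
  obtain ⟨k, hk⟩ : ∃ k, k = E * (p ^ 2 * q) * Λ ^ 13 := ⟨_, rfl⟩
  have k1 : 1 ≤ k := by rw [hk, hE]; exact Nat.succ_le_of_lt (by positivity)
  obtain ⟨g, hg⟩ : ∃ g, g = 18 * (49 * Λ) * k := ⟨_, rfl⟩
  have g1 : 4 * g = 3528 * E * (p ^ 2 * q) * Λ ^ 14 := by rw [hg, hk]; ring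
  have g2 : 1 ≤ g := by rw [hg]; exact Nat.succ_le_of_lt (by positivity)
  have g3 : 6 * (49 * Λ * (16 * (4 * g) ^ 3)) < 2 ^ Λ := by
    have e1 : p ^ 2 * q ≤ (p * q) ^ 2 := by
      rw [mul_pow]; exact Nat.mul_le_mul_left _ (Nat.le_self_pow (by omega) _)
    have e2 : (p ^ 2 * q) ^ 3 < 2 ^ (6 * l) :=
      calc (p ^ 2 * q) ^ 3 ≤ ((p * q) ^ 2) ^ 3 := Nat.pow_le_pow_left e1 _
        _ < ((2 ^ l) ^ 2) ^ 3 := Nat.pow_lt_pow_left (Nat.pow_lt_pow_left l1 (by omega)) (by omega)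
        _ = _ := by rw [← pow_mul, ← pow_mul]; congr 1; ring
    obtain ⟨D, hD⟩ : ∃ D, D = 4704 * (3528 * E) ^ 3 * Λ ^ 43 := ⟨_, rfl⟩
    have e3 : D ^ 2 ≤ 2 ^ Λ := le_trans (le_of_eq (by rw [hD]; ring)) (ha Λ (by omega))
    have e4 : (2 ^ (6 * l)) ^ 2 ≤ 2 ^ Λ := by
      rw [← pow_mul]; exact Nat.pow_le_pow_right (by omega) (by omega)
    have e5 : D * 2 ^ (6 * l) ≤ 2 ^ Λ := by
      refine le_of_not_gt fun hc => ?_
      have := Nat.pow_lt_pow_left hc (show 2 ≠ 0 by omega)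
      rw [mul_pow, pow_two (2 ^ Λ)] at this
      exact absurd (Nat.mul_le_mul e3 e4) (not_le.2 this)
    have e6 : 0 < D := by rw [hD, hE]; positivity
    calc _ = D * (p ^ 2 * q) ^ 3 := by rw [g1, hD]; ring
      _ < D * 2 ^ (6 * l) := Nat.mul_lt_mul_of_pos_left e2 e6
      _ ≤ _ := e5
  obtain ⟨n, U0, R, A, B, n1, hch⟩ := h2 (49 * Λ) (4 * g) V G (by omega) (by omega) (le_trans (by
    calc c * (49 * Λ) ^ c * (4 * g) = c * 49 ^ c * (3528 * E) * (p ^ 2 * q) * Λ ^ (c + 14) := by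
          rw [g1]; ring
      _ ≤ c * 49 ^ c * (3528 * E) * (p ^ 2 * q) * ((12 + a) * l) ^ (c + 14) :=
          Nat.mul_le_mul_left _ (Nat.pow_le_pow_left Λ2 _)
      _ = C0 * p ^ 2 * q * l ^ (c + 14) := by
          rw [hC0, mul_pow (12 + a)]; generalize (12 + a) ^ (c + 14) = x; ring
      _ ≤ _ := Nat.mul_le_mul (Nat.mul_le_mul_right _ (Nat.mul_le_mul_right _ (by omega)))
          (Nat.pow_le_pow_right l2 (by omega))) htw)
  obtain ⟨H, U, φ, hM, hD, hU, hR⟩ := hsp V G g k Λ n U0 R A B hch n1 Λ1 k1 (by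
    have : 4 * g ≤ (4 * g) ^ 3 := Nat.le_self_pow (by omega) _
    nlinarith) hg.ge
  obtain ⟨m, S, hT, hS, hQ⟩ := h1 V H U (2 * p) (2 * q + 1) Λ (k + 1) hD (by omega) (by omega)
    (by omega) Λ1 hR (by
      have : c1 * (2 * p) ^ 2 * (2 * q + 1) ≤ E * (p ^ 2 * q) :=
        calc _ ≤ (c1 + 1) * (2 * p) ^ 2 * (3 * q) :=
              Nat.mul_le_mul (Nat.mul_le_mul_right _ (by omega)) (by omega)
          _ = _ := by rw [hE]; ring
      exact (Nat.mul_le_mul_right _ this).trans (by omega))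
  refine ⟨m, fun i => (S i).biUnion φ, ⟨fun _ => subset_univ _, fun i => (hT.conn i).biUnion
    (fun v hv => hM.conn v (hT.sub i hv)) fun u hu v hv => hM.adj u (hT.sub i hu) v (hT.sub i hv),
    fun i j hij => ?_⟩, fun i => hp V V G univ H U _ φ _ hM (hT.sub i) (hS i),
    hQ.mono (fun i j hij => ?_) subset_rfl le_rfl⟩
  · rw [disjoint_biUnion_left]
    intro u hu
    rw [disjoint_biUnion_right]
    exact fun v hv => hM.disj u (hT.sub i hu) v (hT.sub j hv) fun e =>
      disjoint_left.1 (hT.disj i j hij) hu (e ▸ hv)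
  · have key : ∀ i j, (∃ x ∈ S i, ∃ y ∈ S j, H.Adj x y) →
        ∃ x ∈ (S i).biUnion φ, ∃ y ∈ (S j).biUnion φ, G.Adj x y := by
      rintro i j ⟨x, hx, y, hy, h⟩
      exact (hM.adj x (hT.sub i hx) y (hT.sub j hy) h).mono (subset_biUnion_of_mem φ hx)
        (subset_biUnion_of_mem φ hy)
    rw [quot, SimpleGraph.fromRel_adj] at hij ⊢
    exact ⟨hij.1, hij.2.imp (key i j) (key j i)⟩

theorem final (h : MainStmt) : ∃ (C : ℝ) (k : ℕ), ∀ p q : ℕ, 1 ≤ p → 1 ≤ q →
    ∀ (V : Type) [Fintype V] (G : SimpleGraph V),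
      C * (p : ℝ) ^ 2 * (q : ℝ) * (1 + Real.log ((p : ℝ) * (q : ℝ))) ^ k ≤ (treewidth G : ℝ) →
      ∃ n : ℕ, 1 ≤ n ∧ ∃ S : Fin n → Set V,
        (∀ i j, i ≠ j → Disjoint (S i) (S j)) ∧ (∀ i, (G.induce (S i)).Connected) ∧
        (∀ i, p ≤ treewidth (G.induce (S i))) ∧
        q ≤ treewidth (SimpleGraph.fromRel fun i j : Fin n => ∃ x ∈ S i, ∃ y ∈ S j, G.Adj x y) := by
  obtain ⟨c, hc⟩ := h
  refine ⟨c * 2 ^ c, c, fun p q hp hq V _ G htw => ?_⟩
  have h1 : ((Nat.log 2 (p * q) + 1 : ℕ) : ℝ) ≤ 2 * (1 + Real.log ((p : ℝ) * (q : ℝ))) := by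
    have h2 : ((2 : ℝ) ^ Nat.log 2 (p * q)) ≤ (p : ℝ) * q := by
      exact_mod_cast Nat.pow_log_le_self 2 (show p * q ≠ 0 by positivity)
    have h3 := Real.log_le_log (by positivity) h2
    rw [Real.log_pow] at h3
    have h4 := Real.log_two_gt_d9
    have h5 : (0 : ℝ) ≤ Nat.log 2 (p * q) := Nat.cast_nonneg _
    push_cast
    nlinarith
  obtain ⟨n, S, hT, hS, hQ⟩ := hc p q V G hp hq (by
    have : ((c * p ^ 2 * q * (Nat.log 2 (p * q) + 1) ^ c : ℕ) : ℝ) ≤ treewidth G := by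
      refine le_trans ?_ htw
      have h6 := pow_le_pow_left₀ (Nat.cast_nonneg _) h1 c
      calc _ = (c : ℝ) * p ^ 2 * q * ((Nat.log 2 (p * q) + 1 : ℕ) : ℝ) ^ c := by push_cast; ring
        _ ≤ (c : ℝ) * p ^ 2 * q * (2 * (1 + Real.log ((p : ℝ) * (q : ℝ)))) ^ c :=
            mul_le_mul_of_nonneg_left h6 (by positivity)
        _ = _ := by rw [mul_pow]; ring
    exact_mod_cast this)
  obtain ⟨T, -, ⟨⟨i, -⟩, -⟩, -⟩ := hQ.core
  exact ⟨n, i.pos, fun i => S i, fun i j hij => disjoint_coe.2 (hT.disj i j hij),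
    fun i => (hT.conn i).connected, fun i => (hS i).le_treewidth,
    hQ.le_treewidth.trans (treewidth_induce_le _)⟩

end Pool.Agent.MP_35cb46_co.Sq

end MrgPart0

-- ======== part 1: formerly Pool.Agent.MP_35cb46_co.sq.Game
section MrgPart1

/-! The cut-matching game by entropy, embedded expanders, involutions, lifting of havens. -/

namespace Pool.Agent.MP_35cb46_co.Sq

open Finset Pool.Agent.MP_7be75d_co
open scoped Classical

namespace Game

open Real

theorem eta_le {a c : ℝ} (ha : 0 ≤ a) (hc : 0 < c) : negMulLog a ≤ -(a * log c) + c - a := by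
  rcases ha.eq_or_lt with rfl | ha
  · simpa using hc.le
  have h1 := log_le_sub_one_of_pos (div_pos hc ha)
  rw [log_div hc.ne' ha.ne'] at h1
  have h2 := mul_le_mul_of_nonneg_left h1 ha.le
  have h3 : a * (c / a - 1) = c - a := by field_simp
  unfold negMulLog
  nlinarith

theorem gain0 {a b : ℝ} (ha : 0 ≤ a) (hb : 0 ≤ b) :
    0 ≤ 2 * negMulLog ((a + b) / 2) - negMulLog a - negMulLog b := by
  rcases (add_nonneg ha hb).eq_or_lt with h | h
  · have h1 : a = 0 := by linarith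
    have h2 : b = 0 := by linarith
    simp [h1, h2]
  have h1 := eta_le ha (half_pos h)
  have h2 := eta_le hb (half_pos h)
  have h3 : negMulLog ((a + b) / 2) = -((a + b) / 2) * log ((a + b) / 2) := rfl
  nlinarith

theorem gain1 {a b : ℝ} (ha : 0 ≤ a) (hb : 0 ≤ b) :
    a / 3 - b ≤ 2 * negMulLog ((a + b) / 2) - negMulLog a - negMulLog b := by
  rcases (add_nonneg ha hb).eq_or_lt with h | h
  · have h1 : a = 0 := by linarith
    have h2 : b = 0 := by linarith
    simp [h1, h2]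
  have hs := half_pos h
  have h1 := eta_le ha (mul_pos hs (by norm_num : (0 : ℝ) < 3 / 2))
  have h2 := eta_le hb (mul_pos hs (by norm_num : (0 : ℝ) < 2⁻¹))
  rw [log_mul hs.ne' (by norm_num)] at h1 h2
  rw [log_inv] at h2
  have h3 : negMulLog ((a + b) / 2) = -((a + b) / 2) * log ((a + b) / 2) := rfl
  have h4 := one_sub_inv_le_log_of_pos (by norm_num : (0 : ℝ) < 3 / 2)
  have h5 := log_le_sub_one_of_pos (by norm_num : (0 : ℝ) < 2)
  have h6 := mul_le_mul_of_nonneg_left h4 ha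
  have h7 := mul_le_mul_of_nonneg_left h5 hb
  nlinarith

variable {ι : Type} [Fintype ι]

/-- Stochastic matrices. -/
def Sto (P : ι → ι → ℝ) : Prop := (∀ u x, 0 ≤ P u x) ∧ ∀ u, ∑ x, P u x = 1

/-- Total entropy. -/
noncomputable def ent (P : ι → ι → ℝ) : ℝ := ∑ u, ∑ x, negMulLog (P u x)

/-- Foreign mass inside `S`. -/
noncomputable def fm (P : ι → ι → ℝ) (S : Finset ι) : ℝ := ∑ u ∈ S, ∑ x ∈ Sᶜ, P u x

/-- One round of averaging. -/
noncomputable def avg (μ : ι → ι) (P : ι → ι → ℝ) : ι → ι → ℝ := fun u x => (P u x + P (μ u) x) / 2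

variable {P : ι → ι → ℝ} {μ : ι → ι}

theorem Sto.avg (h : Sto P) (μ : ι → ι) : Sto (avg μ P) := by
  refine ⟨fun u x => div_nonneg (add_nonneg (h.1 _ _) (h.1 _ _)) zero_le_two, fun u => ?_⟩
  simp only [Game.avg]
  rw [← sum_div, sum_add_distrib, h.2, h.2]
  norm_num

theorem Sto.le_one (h : Sto P) (u : ι) (S : Finset ι) : ∑ x ∈ S, P u x ≤ 1 :=
  (sum_le_sum_of_subset_of_nonneg (subset_univ S) fun x _ _ => h.1 u x).trans_eq (h.2 u)

theorem Sto.ent_le (h : Sto P) {Λ : ℕ} (hn : Fintype.card ι ≤ 2 ^ Λ) :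
    ent P ≤ Fintype.card ι * Λ := by
  have : ∀ u, ∑ x, negMulLog (P u x) ≤ Λ := fun u => by
    have h0 : (0 : ℝ) < Fintype.card ι := by
      have : Nonempty ι := ⟨u⟩
      exact_mod_cast Fintype.card_pos
    have h1 : ∑ x, negMulLog (P u x) ≤ log (Fintype.card ι) := by
      refine (sum_le_sum fun x _ => eta_le (h.1 u x) (inv_pos.2 h0)).trans_eq ?_
      rw [sum_sub_distrib, sum_add_distrib, sum_neg_distrib, ← sum_mul, h.2, log_inv]
      simp [h0.ne']
    have h2 : log (Fintype.card ι) ≤ log ((2 : ℝ) ^ Λ) := log_le_log h0 (by exact_mod_cast hn)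
    rw [log_pow] at h2
    have h5 := log_le_sub_one_of_pos (by norm_num : (0 : ℝ) < 2)
    have h6 := mul_le_mul_of_nonneg_left h5 (Nat.cast_nonneg (α := ℝ) Λ)
    linarith
  exact (sum_le_sum fun u _ => this u).trans_eq (by simp)

omit [Fintype ι] in
theorem sum_comp_le (hμ : ∀ u, μ (μ u) = u) {C D : Finset ι} (h : ∀ u ∈ C, μ u ∈ D) {r : ι → ℝ}
    (hr : ∀ u, 0 ≤ r u) : ∑ u ∈ C, r (μ u) ≤ ∑ u ∈ D, r u := by
  rw [← sum_image (f := r) (Function.Involutive.injective hμ).injOn]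
  exact sum_le_sum_of_subset_of_nonneg (image_subset_iff.2 h) fun u _ _ => hr u

theorem cr_compl_le (hμ : ∀ u, μ (μ u) = u) (S : Finset ι) : cr μ Sᶜ ≤ cr μ S :=
  card_le_card_of_injOn μ (fun u hu => by
    simp only [coe_filter, mem_compl, not_not, Set.mem_ofPred_eq] at hu ⊢
    exact ⟨hu.2, by rw [hμ]; exact hu.1⟩) (Function.Involutive.injective hμ).injOn

theorem Sto.fm_avg (h : Sto P) (hμ : ∀ u, μ (μ u) = u) (S : Finset ι) :
    fm (Game.avg μ P) S ≤ fm P S + cr μ S / 2 := by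
  have h1 : fm (Game.avg μ P) S = (fm P S + ∑ u ∈ S, ∑ x ∈ Sᶜ, P (μ u) x) / 2 := by
    simp only [fm, Game.avg]
    rw [← sum_add_distrib, sum_div]
    exact sum_congr rfl fun u _ => by rw [← sum_add_distrib, sum_div]
  have h2 := sum_filter_add_sum_filter_not S (fun u => μ u ∉ S) fun u => ∑ x ∈ Sᶜ, P (μ u) x
  have h3 : ∑ u ∈ S with μ u ∉ S, ∑ x ∈ Sᶜ, P (μ u) x ≤ cr μ S :=
    (sum_le_sum fun u _ => h.le_one (μ u) Sᶜ).trans_eq (by simp [cr])
  have h4 : ∑ u ∈ S with ¬ μ u ∉ S, ∑ x ∈ Sᶜ, P (μ u) x ≤ fm P S :=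
    sum_comp_le hμ (r := fun u => ∑ x ∈ Sᶜ, P u x) (fun u hu => not_not.1 (mem_filter.1 hu).2)
      fun u => sum_nonneg fun x _ => h.1 u x
  linarith

theorem Sto.ent_avg (h : Sto P) (hμ : ∀ u, μ (μ u) = u) (S : Finset ι) :
    ent P + (cr μ S / 3 - fm P S - fm P Sᶜ) / 2 ≤ ent (Game.avg μ P) := by
  let f : ι → ι → ℝ := fun u x =>
    2 * negMulLog ((P u x + P (μ u) x) / 2) - negMulLog (P u x) - negMulLog (P (μ u) x)
  have hf : ∀ u x, 0 ≤ f u x := fun u x => gain0 (h.1 _ _) (h.1 _ _)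
  have h0 : ∑ u, ∑ x, negMulLog (P (μ u) x) = ent P :=
    Equiv.sum_comp (Function.Involutive.toPerm μ hμ) fun u => ∑ x, negMulLog (P u x)
  have h1 : ∑ u, ∑ x, f u x = 2 * ent (Game.avg μ P) - ent P - ent P := by
    simp only [f, sum_sub_distrib, ← mul_sum]
    rw [h0]
    rfl
  have h2 : ∑ u ∈ S with μ u ∉ S, ∑ x ∈ S, f u x ≤ ∑ u, ∑ x, f u x :=
    (sum_le_sum fun u _ => sum_le_sum_of_subset_of_nonneg (subset_univ _)
      fun x _ _ => hf u x).trans
      (sum_le_sum_of_subset_of_nonneg (subset_univ _) fun u _ _ => sum_nonneg fun x _ => hf u x)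
  have h3 : ∀ u, 1 / 3 - ∑ x ∈ Sᶜ, P u x - ∑ x ∈ S, P (μ u) x ≤ ∑ x ∈ S, f u x := fun u => by
    have e1 := sum_le_sum fun x (_ : x ∈ S) => gain1 (h.1 u x) (h.1 (μ u) x)
    rw [sum_sub_distrib, ← sum_div] at e1
    have e2 := sum_add_sum_compl S (P u)
    have e3 : 0 ≤ ∑ x ∈ Sᶜ, P u x := sum_nonneg fun x _ => h.1 u x
    rw [h.2] at e2
    linarith
  have h4 := sum_le_sum fun u (_ : u ∈ S.filter fun u => μ u ∉ S) => h3 u
  rw [sum_sub_distrib, sum_sub_distrib, sum_const, nsmul_eq_mul] at h4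
  have h5 : ∑ u ∈ S with μ u ∉ S, ∑ x ∈ Sᶜ, P u x ≤ fm P S :=
    sum_le_sum_of_subset_of_nonneg (filter_subset _ _) fun u _ _ => sum_nonneg fun x _ => h.1 u x
  have h6 : ∑ u ∈ S with μ u ∉ S, ∑ x ∈ S, P (μ u) x ≤ fm P Sᶜ := by
    rw [fm, compl_compl]
    exact sum_comp_le hμ (r := fun u => ∑ x ∈ S, P u x)
      (fun u hu => mem_compl.2 (mem_filter.1 hu).2) fun u => sum_nonneg fun x _ => h.1 u x
  unfold cr
  linarith

end Game

open Game

theorem cm : CMStmt := by
  intro ι _ g T Λ St hn hT h0 hstep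
  by_contra hc
  push Not at hc
  have key : ∀ t ≤ T, ∃ (M : ℕ → ι → ι) (P : ι → ι → ℝ), St t M ∧ Sto P ∧
      (t * g : ℝ) / 12 ≤ ent P ∧ ∀ S, fm P S ≤ (∑ j ∈ range t, cr (M j) S : ℕ) / 2 ∧
        fm P Sᶜ ≤ (∑ j ∈ range t, cr (M j) S : ℕ) / 2 := by
    intro t
    induction t with
    | zero =>
      intro _
      have hz : ∀ S : Finset ι, fm (fun u x => if u = x then 1 else 0) S = 0 := fun S =>
        sum_eq_zero fun u hu => sum_eq_zero fun x hx =>
          if_neg fun (e : u = x) => mem_compl.1 hx (e ▸ hu)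
      refine ⟨_, fun u x => if u = x then 1 else 0, h0, ⟨fun u x => ?_, fun u => by simp⟩, ?_,
        fun S => by simp [hz]⟩
      · dsimp only
        split_ifs <;> norm_num
      · refine le_of_eq_of_le (by simp) (sum_nonneg fun u _ => sum_nonneg fun x _ => ?_)
        dsimp only
        split_ifs <;> simp
    | succ t ih =>
      intro ht
      obtain ⟨M, P, h1, h2, h3, h4⟩ := ih (by omega)
      obtain ⟨S, hS, h5⟩ := hc t (by omega) M h1
      obtain ⟨μ, hμ, h6, h7⟩ := hstep t (by omega) M h1 S hS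
      refine ⟨_, avg μ P, h7, h2.avg μ, ?_, fun S' => ?_⟩
      · have e1 := h2.ent_avg hμ S
        have e2 : (6 : ℝ) * (∑ j ∈ range t, cr (M j) S : ℕ) ≤ g := by exact_mod_cast h5
        have e3 : (g : ℝ) ≤ cr μ S := by exact_mod_cast h6
        have e4 := h4 S
        push_cast at e2 e4 ⊢
        linarith [e4.1, e4.2]
      · have e0 : ∑ j ∈ range (t + 1), cr (Function.update M t μ j) S' =
            ∑ j ∈ range t, cr (M j) S' + cr μ S' := by
          rw [sum_range_succ, Function.update_self]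
          congr 1
          exact sum_congr rfl fun j hj => by
            rw [Function.update_of_ne (mem_range.1 hj).ne]
        have e1 := h2.fm_avg hμ S'
        have e2 := h2.fm_avg hμ S'ᶜ
        have e3 : (cr μ S'ᶜ : ℝ) ≤ cr μ S' := by exact_mod_cast cr_compl_le hμ S'
        have e4 := h4 S'
        rw [e0, Nat.cast_add]
        constructor <;> linarith [e4.1, e4.2]
  obtain ⟨M, P, -, h2, h3, -⟩ := key T le_rfl
  have h4 := h2.ent_le hn
  have h5 : (12 : ℝ) * Fintype.card ι * Λ < T * g := by exact_mod_cast hT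
  linarith

theorem el : ELStmt := by
  intro V ι _ G U L t g k M W hL hR hW hS hg hk
  choose x hx using fun i => (hL.conn i).1
  have hinj : Function.Injective x := fun i j e => by
    by_contra h
    exact disjoint_left.1 (hL.disj i j h) (hx i) (e ▸ hx j)
  refine rich_of_linked (X := univ.image x) ?_
  by_contra hn
  obtain ⟨Z, hZ, h1⟩ := not_linked_iff.1 hn
  obtain ⟨B, hB, hcov, hle, -⟩ := three_bins h1
  have hX : (univ.image x).card = Fintype.card ι := by
    rw [card_image_of_injective _ hinj, card_univ]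
  have hcard : ∀ b, (univ.image x ∩ B b).card = (univ.filter fun i => x i ∈ B b).card := by
    intro b
    rw [← card_image_of_injective (univ.filter fun i => x i ∈ B b) hinj]
    congr 1
    ext v
    simp only [mem_inter, mem_image, mem_univ, true_and, mem_filter]
    exact ⟨fun ⟨⟨i, e⟩, h⟩ => ⟨i, e ▸ h, e⟩, fun ⟨i, h, e⟩ => ⟨⟨i, e⟩, e ▸ h⟩⟩
  obtain ⟨b, hb⟩ : ∃ b, Fintype.card ι ≤ 4 * (univ.image x ∩ B b).card := by
    by_contra hc
    push Not at hc
    have h2 : univ.image x ⊆ Z ∪ (univ.image x ∩ B 0 ∪ (univ.image x ∩ B 1 ∪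
        univ.image x ∩ B 2)) := by
      intro v hv
      by_cases hvZ : v ∈ Z
      · exact mem_union_left _ hvZ
      obtain ⟨i, -, rfl⟩ := mem_image.1 hv
      obtain ⟨b, hb⟩ := hcov (x i) (mem_sdiff.2 ⟨hL.sub i (hx i), hvZ⟩)
      simp only [mem_union, mem_inter, hv, true_and]
      fin_cases b
      · exact Or.inr (Or.inl hb)
      · exact Or.inr (Or.inr (Or.inl hb))
      · exact Or.inr (Or.inr (Or.inr hb))
    have h3 := (card_le_card h2).trans ((card_union_le _ _).trans (Nat.add_le_add_left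
      ((card_union_le _ _).trans (Nat.add_le_add_left (card_union_le _ _) _)) _))
    have := hc 0
    have := hc 1
    have := hc 2
    omega
  set S := univ.filter fun i => x i ∈ B b with hSd
  have hbal : Bal S := ⟨hcard b ▸ hb, by have := hle b; rw [hcard b, hX] at this; exact this⟩
  have hcr : ∀ j ∈ range t, cr (M j) S ≤ 3 * k := by
    intro j hj
    have hj := mem_range.1 hj
    have r := hR j hj
    set C := S.filter fun u => M j u ∉ S with hC
    have hne : ∀ u ∈ C, M j u ≠ u := fun u hu e =>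
      (mem_filter.1 hu).2 (by rw [e]; exact (mem_filter.1 hu).1)
    have c1 := card_meet_le (L := L) C Z fun i _ i' _ => hL.disj i i'
    have c2 := card_meet_le (L := fun u => L (M j u)) C Z fun i _ i' _ h =>
      hL.disj _ _ fun e => h (Function.Involutive.injective r.inv e)
    have c3 := card_meet_le (L := W j) C Z fun i hi i' hi' h =>
      r.disj i i' (hne i hi) (hne i' hi') h fun e =>
        (mem_filter.1 hi).2 (by rw [e]; exact (mem_filter.1 hi').1)
    have c4 : C ⊆ (C.filter fun u => ¬ Disjoint (L u) Z) ∪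
        ((C.filter fun u => ¬ Disjoint (L (M j u)) Z) ∪ C.filter fun u => ¬ Disjoint (W j u) Z) := by
      intro u hu
      simp only [mem_union, mem_filter (s := C), hu, true_and]
      by_contra hc
      push Not at hc
      obtain ⟨d1, d2, d3⟩ := hc
      obtain ⟨a, ha, ha'⟩ := not_disjoint_iff.1 (r.left u (hne u hu))
      obtain ⟨c, hc, hc'⟩ := not_disjoint_iff.1 (r.right u (hne u hu))
      have e1 := ((hL.conn u).union (r.conn u (hne u hu)) ha' ha).union (hL.conn (M j u))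
        (mem_union_right _ hc) hc'
      have e2 : L u ∪ W j u ∪ L (M j u) ⊆ U \ Z :=
        union_subset (union_subset (subset_sdiff.2 ⟨hL.sub _, d1⟩)
          (subset_sdiff.2 ⟨hW j hj u (hne u hu), d3⟩)) (subset_sdiff.2 ⟨hL.sub _, d2⟩)
      have e3 := e1.subset_of_closed (T := B b) (mem_union_left _ (mem_union_left _ (hx u)))
        (mem_filter.1 (mem_filter.1 hu).1).2 fun p hp q hq _ hpq => (hB b).2 p hp q (e2 hq) hpq
      exact (mem_filter.1 hu).2 (mem_filter.2 ⟨mem_univ _, e3 (mem_union_right _ (hx _))⟩)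
    have c5 := (card_le_card c4).trans ((card_union_le _ _).trans
      (Nat.add_le_add_left (card_union_le _ _) _))
    change C.card ≤ 3 * k
    omega
  have h2 := sum_le_card_nsmul _ _ _ hcr
  have h3 := hS S hbal
  rw [card_range, smul_eq_mul] at h2
  nlinarith

theorem inv : InvStmt := by
  intro V ι κ _ G L S u v Q hu hv huS hvS hQ hd hl hr
  have huv : ∀ k k', u k ≠ v k' := fun k k' e => hvS k' (e ▸ huS k)
  have h0 : ∀ x, ∃ (y : ι) (W : Finset V), (∀ k, x = u k → y = v k ∧ W = Q k) ∧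
      (∀ k, x = v k → y = u k ∧ W = Q k) ∧ (y ≠ x → ∃ k, x = u k ∨ x = v k) := by
    intro x
    by_cases h1 : ∃ k, x = u k
    · obtain ⟨k, rfl⟩ := h1
      exact ⟨v k, Q k, fun k' e => by rw [hu e]; exact ⟨rfl, rfl⟩,
        fun k' e => absurd e (huv _ _), fun _ => ⟨k, Or.inl rfl⟩⟩
    by_cases h2 : ∃ k, x = v k
    · obtain ⟨k, rfl⟩ := h2
      exact ⟨u k, Q k, fun k' e => absurd e.symm (huv _ _),
        fun k' e => by rw [hv e]; exact ⟨rfl, rfl⟩, fun _ => ⟨k, Or.inr rfl⟩⟩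
    exact ⟨x, ∅, fun k e => absurd ⟨k, e⟩ h1, fun k e => absurd ⟨k, e⟩ h2, fun h => absurd rfl h⟩
  choose μ W h1 h2 h3 using h0
  have m1 : ∀ k, μ (u k) = v k := fun k => (h1 _ k rfl).1
  have m2 : ∀ k, μ (v k) = u k := fun k => (h2 _ k rfl).1
  have w1 : ∀ k, W (u k) = Q k := fun k => (h1 _ k rfl).2
  have w2 : ∀ k, W (v k) = Q k := fun k => (h2 _ k rfl).2
  refine ⟨μ, W, ⟨fun x => ?_, fun x hx => ?_, fun x hx => ?_, fun x hx => ?_,
    fun x y hx hy hxy hxy' => ?_⟩, ?_, fun x hx => ?_⟩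
  · by_cases hx : μ x = x
    · rw [hx, hx]
    · obtain ⟨k, rfl | rfl⟩ := h3 x hx
      · rw [m1, m2]
      · rw [m2, m1]
  · obtain ⟨k, rfl | rfl⟩ := h3 x hx
    · rw [w1]; exact hQ k
    · rw [w2]; exact hQ k
  · obtain ⟨k, rfl | rfl⟩ := h3 x hx
    · rw [w1]; exact hl k
    · rw [w2]; exact hr k
  · obtain ⟨k, rfl | rfl⟩ := h3 x hx
    · rw [w1, m1]; exact hr k
    · rw [w2, m2]; exact hl k
  · obtain ⟨k, rfl | rfl⟩ := h3 x hx <;> obtain ⟨k', rfl | rfl⟩ := h3 y hy
    · rw [w1, w1]; exact hd _ _ fun e => hxy (by rw [e])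
    · rw [w1, w2]; exact hd _ _ fun e => hxy' (by rw [e, m1])
    · rw [w2, w1]; exact hd _ _ fun e => hxy' (by rw [e, m2])
    · rw [w2, w2]; exact hd _ _ fun e => hxy (by rw [e])
  · exact card_le_card_of_injOn u (fun k _ => mem_coe.2 (mem_filter.2
      ⟨huS k, by rw [m1]; exact hvS k⟩)) hu.injOn
  · obtain ⟨k, rfl | rfl⟩ := h3 x hx
    · exact ⟨k, w1 k⟩
    · exact ⟨k, w2 k⟩

theorem pull : PullStmt := by
  rintro V W G U H U' X φ k hM hX ⟨β, hβ⟩
  have hc : ∀ Z : Finset V, Z.card < k → (X.filter fun w => ¬ Disjoint (φ w) Z).card < k :=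
    fun Z hZ => (card_meet_le X Z fun i hi j hj => hM.disj i (hX hi) j (hX hj)).trans_lt hZ
  have hconn : ∀ Z : Finset V, Z.card < k →
      Conn G ((β (X.filter fun w => ¬ Disjoint (φ w) Z)).biUnion φ) := fun Z hZ =>
    (hβ.conn _ (hc Z hZ)).biUnion (fun i hi => hM.conn i (hX (hβ.subU (hc Z hZ) hi)))
      fun i hi j hj => hM.adj i (hX (hβ.subU (hc Z hZ) hi)) j (hX (hβ.subU (hc Z hZ) hj))
  obtain ⟨β', h1, -⟩ := exists_haven (G := G) (U := X.biUnion φ) (K := k)
    (fun Z => (β (X.filter fun w => ¬ Disjoint (φ w) Z)).biUnion φ)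
    (fun Z hZ => ⟨hconn Z hZ, fun v hv => by
      obtain ⟨w, hw, hv⟩ := mem_biUnion.1 hv
      have h2 := hβ.subU (hc Z hZ) hw
      exact mem_sdiff.2 ⟨mem_biUnion.2 ⟨w, h2, hv⟩, fun hvZ => hβ.not_mem (hc Z hZ) hw
        (mem_filter.2 ⟨h2, not_disjoint_iff.2 ⟨v, hv, hvZ⟩⟩)⟩⟩)
    (fun Z Z' hZZ hZ' => by
      obtain ⟨v, hv⟩ := (hconn Z' hZ').1
      refine ⟨v, biUnion_subset_biUnion_of_subset_left _ (hβ.mono _ _ ?_ (hc Z' hZ')) hv, hv⟩
      exact monotone_filter_right _ fun w _ h h' => h (h'.mono_right hZZ))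
  exact ⟨β', h1⟩

end Pool.Agent.MP_35cb46_co.Sq

end MrgPart1

-- ======== part 2: formerly Pool.Agent.MP_35cb46_co.sq.Exp
section MrgPart2

/-! Weighted expanders: dense sub-expanders, hubs, and short connections by ball growing. -/

namespace Pool.Agent.MP_35cb46_co.Sq

open Finset Pool.Agent.MP_7be75d_co
open scoped Classical

namespace Exp

variable {κ : Type} [Fintype κ] {w : κ → κ → ℕ} {b Λ F : ℕ} {X A B : Finset κ}

theorem vol_union (h : Disjoint A B) : vol w (A ∪ B) = vol w A + vol w B := cw_union_left h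

theorem vol_union_le : vol w (A ∪ B) ≤ vol w A + vol w B := cw_union_left_le

theorem vol_sdiff (h : A ⊆ X) : vol w (X \ A) + vol w A = vol w X := cw_sdiff_left h

theorem vol_le_sdiff : vol w A ≤ vol w (A \ B) + vol w B :=
  (vol_mono fun a ha => by by_cases h : a ∈ B <;> simp [h, ha]).trans vol_union_le

theorem vol_empty : vol w ∅ = 0 := by simp [vol, cw]

theorem tok_cons {V : Type} {G : SimpleGraph V} {U T : Finset V} {m : ℕ} {L : Fin m → Finset V}
    (h : Tok G U L) (h1 : T ⊆ U) (h2 : Conn G T) (h3 : ∀ i, Disjoint T (L i)) :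
    Tok G U (Fin.cons T L : Fin (m + 1) → Finset V) := by
  refine ⟨fun i => ?_, fun i => ?_, fun i j => ?_⟩
  · refine Fin.cases ?_ (fun i => ?_) i
    · simpa using h1
    · simpa using h.sub i
  · refine Fin.cases ?_ (fun i => ?_) i
    · simpa using h2
    · simpa using h.conn i
  · refine Fin.cases ?_ (fun i => ?_) i <;> refine Fin.cases ?_ (fun j => ?_) j
    · exact fun e => absurd rfl e
    · intro _
      simpa using h3 j
    · intro _
      simpa using (h3 i).symm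
    · intro e
      simpa using h.disj i j fun e' => e (by rw [e'])

theorem tok_nil {V : Type} {G : SimpleGraph V} {U : Finset V} :
    Tok G U (fun _ : Fin 0 => (∅ : Finset V)) :=
  ⟨fun i => i.elim0, fun i => i.elim0, fun i => i.elim0⟩

/-- A connected set of volume at least `b` has a connected subset of volume in `[b, 2 b]`. -/
theorem grow (h : WG w b Λ) {K : Finset κ} (hK : Conn (qg w) K) (hb : b ≤ vol w K) :
    ∃ T ⊆ K, Conn (qg w) T ∧ b ≤ vol w T ∧ vol w T ≤ 2 * b := by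
  obtain ⟨a, ha⟩ := hK.1
  obtain ⟨T, ⟨h1, h2, h3⟩, hmax⟩ := exists_max_of
    (p := fun T : Finset κ => T ⊆ K ∧ Conn (qg w) T ∧ vol w T ≤ 2 * b) card K.card
    (fun T hT => card_le_card hT.1)
    ⟨{a}, by simpa using ha, Conn.singleton a, by have := h.le a; omega⟩
  refine ⟨T, h1, h2, ?_, h3⟩
  by_contra hc
  have hne : ¬ K ⊆ T := fun e => hc (hb.trans (vol_mono e))
  obtain ⟨c, hcK, hcT⟩ := not_subset.1 hne
  obtain ⟨t, ht⟩ := h2.1
  obtain ⟨x, y, hx, hy, -, hyK, hxy⟩ := hK.exit (h1 ht) ht hcK hcT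
  have h4 : vol w (insert y T) ≤ 2 * b := by
    have h5 : vol w ({y} ∪ T) ≤ vol w {y} + vol w T := vol_union_le
    have h6 := h.le y
    rw [insert_eq]
    omega
  have := hmax (insert y T) ⟨insert_subset hyK h1, h2.insert hx hxy, h4⟩
  rw [card_insert_of_notMem hy] at this
  omega

/-- If all components of `X \ H` are light, then `X \ H` is controlled by `H`. -/
theorem rest_le (h : WG w b Λ) (hX : Expd w X F) {H : Finset κ}
    (hc : ∀ v ∈ X \ H, 2 * vol w (comp (qg w) (X \ H) v) ≤ vol w X) :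
    vol w (X \ H) ≤ F * vol w H := by
  obtain ⟨C, ⟨h1, h2, h3⟩, hmax⟩ := exists_max_of
    (p := fun C : Finset κ => C ⊆ X \ H ∧ (∀ x ∈ C, ∀ y ∈ X \ H, (qg w).Adj x y → y ∈ C) ∧
      vol w C ≤ F * cw w C H) card (X \ H).card (fun T hT => card_le_card hT.1)
    ⟨∅, empty_subset _, by simp, by simp [vol_empty]⟩
  have hC : X \ H ⊆ C := by
    intro v hv
    by_contra hvC
    have hd : Disjoint C (comp (qg w) (X \ H) v) := by
      rw [disjoint_left]
      intro x hx hxK
      exact hvC ((comp_conn hv).subset_of_closed hxK hx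
        (fun p hp q hq _ hpq => h2 p hp q (comp_subset hq) hpq) (self_mem_comp hv))
    have hK := hX _ (comp_subset.trans sdiff_subset) (hc v hv)
    have hz : cw w (comp (qg w) (X \ H) v) ((X \ H) \ comp (qg w) (X \ H) v) = 0 := by
      refine cw_eq_zero.2 fun p hp q hq => ?_
      by_contra hpq
      exact (mem_sdiff.1 hq).2
        (comp_closed hp (mem_sdiff.1 hq).1 (h.adj.2 (Nat.pos_of_ne_zero hpq)))
    have hle : cw w (comp (qg w) (X \ H) v) (X \ comp (qg w) (X \ H) v) ≤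
        cw w (comp (qg w) (X \ H) v) H := by
      have h5 : X \ comp (qg w) (X \ H) v ⊆ H ∪ ((X \ H) \ comp (qg w) (X \ H) v) := by
        intro x hx
        by_cases hxH : x ∈ H
        · exact mem_union_left _ hxH
        · exact mem_union_right _
            (mem_sdiff.2 ⟨mem_sdiff.2 ⟨(mem_sdiff.1 hx).1, hxH⟩, (mem_sdiff.1 hx).2⟩)
      have h6 := (cw_mono (w := w) (subset_refl (comp (qg w) (X \ H) v)) h5).trans
        cw_union_right_le
      omega
    have := hmax (C ∪ comp (qg w) (X \ H) v) ⟨union_subset h1 comp_subset, ?_, ?_⟩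
    · rw [card_union_of_disjoint hd] at this
      have := (comp_conn (G := qg w) hv).1.card_pos
      omega
    · intro x hx y hy hxy
      rcases mem_union.1 hx with hx | hx
      · exact mem_union_left _ (h2 x hx y hy hxy)
      · exact mem_union_right _ (comp_closed hx hy hxy)
    · rw [vol_union hd, cw_union_left hd, mul_add]
      exact add_le_add h3 (hK.trans (Nat.mul_le_mul_left _ hle))
  exact (vol_mono hC).trans (h3.trans (Nat.mul_le_mul_left _ h.cw_le_vol))

/-- A sequence that grows by the factor `1 + 1 / (2 F)` while it is at most `V / 2`. -/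
theorem seq_big (a : ℕ → ℕ) {V : ℕ} (hF : 1 ≤ F) (hm : Monotone a)
    (h : ∀ k, 2 * a k ≤ V → (2 * F + 1) * a k ≤ 2 * F * a (k + 1)) (h0 : 0 < a 0)
    (hV : V < 2 ^ Λ) : V < 2 * a (2 * F * Λ) := by
  by_contra hc
  push Not at hc
  have h1 : ∀ k j, k + j ≤ 2 * F * Λ → (2 * F + j) * a k ≤ 2 * F * a (k + j) := by
    intro k j
    induction j with
    | zero => simp
    | succ j ih =>
      intro hj
      have h2 := ih (by omega)
      have h3 := h (k + j) (by have := hm (show k + j ≤ 2 * F * Λ by omega); omega)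
      have h4 := hm (show k ≤ k + j by omega)
      rw [← add_assoc k j 1]
      nlinarith
  have h2 : ∀ i, i ≤ Λ → 2 ^ i ≤ a (2 * F * i) := by
    intro i
    induction i with
    | zero => intro _; simpa using Nat.succ_le_of_lt h0
    | succ i ih =>
      intro hi
      have h3 := ih (by omega)
      have h4 := h1 (2 * F * i) (2 * F) (by nlinarith)
      have h5 : 2 * F * (2 * a (2 * F * i)) ≤ 2 * F * a (2 * F * i + 2 * F) := by nlinarith
      have h6 := Nat.le_of_mul_le_mul_left h5 (by omega)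
      rw [mul_add, mul_one, pow_succ]
      omega
  have := h2 Λ le_rfl
  omega

/-- The points of `Y` joined to `A` by a connected subset of `Y` with at most `k + 1` points. -/
noncomputable def ball (w : κ → κ → ℕ) (Y A : Finset κ) (k : ℕ) : Finset κ :=
  Y.filter fun v => ∃ W ⊆ Y, Conn (qg w) W ∧ W.card ≤ k + 1 ∧ v ∈ W ∧ ¬ Disjoint W A

omit [Fintype κ] in
theorem ball_mono (Y A : Finset κ) {k k' : ℕ} (h : k ≤ k') : ball w Y A k ⊆ ball w Y A k' := by
  intro v hv
  obtain ⟨h1, W, h2, h3, h4, h5⟩ := mem_filter.1 hv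
  exact mem_filter.2 ⟨h1, W, h2, h3, by omega, h5⟩

omit [Fintype κ] in
theorem subset_ball {Y : Finset κ} (h : A ⊆ Y) (k : ℕ) : A ⊆ ball w Y A k := fun v hv =>
  mem_filter.2 ⟨h hv, {v}, by simpa using h hv, Conn.singleton v, by simp, by simp,
    by simpa using hv⟩

omit [Fintype κ] in
theorem ball_step {Y : Finset κ} {k : ℕ} {x y : κ} (hx : x ∈ ball w Y A k) (hy : y ∈ Y)
    (hxy : (qg w).Adj x y) : y ∈ ball w Y A (k + 1) := by
  obtain ⟨-, W, h2, h3, h4, h5, h6⟩ := mem_filter.1 hx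
  refine mem_filter.2 ⟨hy, insert y W, insert_subset hy h2, h3.insert h5 hxy, ?_,
    mem_insert_self _ _, fun hd => h6 (hd.mono_left (subset_insert _ _))⟩
  have := card_insert_le y W
  omega

/-- Ball growing in an expander from which a light set `Z` is removed. -/
theorem ball_big (h : WG w b Λ) (hX : Expd w X F) (hF : 1 ≤ F) {Z : Finset κ} (hA : A ⊆ X \ Z)
    (hZ : 2 * F * vol w Z ≤ vol w A) (h0 : 0 < vol w A) :
    vol w X < 2 * vol w (ball w (X \ Z) A (2 * F * Λ)) := by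
  refine seq_big (fun k => vol w (ball w (X \ Z) A k)) hF
    (fun _ _ hk => vol_mono (ball_mono _ _ hk)) (fun k hk => ?_)
    (h0.trans_le (vol_mono (subset_ball hA 0))) (h.vol_lt X)
  have hsub : ball w (X \ Z) A k ⊆ X := (filter_subset _ _).trans sdiff_subset
  have h1 := hX _ hsub hk
  have h2 : vol w A ≤ vol w (ball w (X \ Z) A k) := vol_mono (subset_ball hA k)
  have h3 := vol_sdiff (w := w) (ball_mono (w := w) (X \ Z) A (Nat.le_succ k))
  have hz : cw w (ball w (X \ Z) A k) ((X \ Z) \ ball w (X \ Z) A (k + 1)) = 0 := by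
    refine cw_eq_zero.2 fun p hp q hq => ?_
    by_contra hpq
    exact (mem_sdiff.1 hq).2
      (ball_step hp (mem_sdiff.1 hq).1 (h.adj.2 (Nat.pos_of_ne_zero hpq)))
  have h4 : X \ ball w (X \ Z) A k ⊆ (Z ∪ (ball w (X \ Z) A (k + 1) \ ball w (X \ Z) A k)) ∪
      ((X \ Z) \ ball w (X \ Z) A (k + 1)) := by
    intro x hx
    obtain ⟨hx1, hx2⟩ := mem_sdiff.1 hx
    by_cases hxZ : x ∈ Z
    · exact mem_union_left _ (mem_union_left _ hxZ)
    · by_cases hxB : x ∈ ball w (X \ Z) A (k + 1)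
      · exact mem_union_left _ (mem_union_right _ (mem_sdiff.2 ⟨hxB, hx2⟩))
      · exact mem_union_right _ (mem_sdiff.2 ⟨mem_sdiff.2 ⟨hx1, hxZ⟩, hxB⟩)
  have h5 := (cw_mono (w := w) (subset_refl (ball w (X \ Z) A k)) h4).trans cw_union_right_le
  have h6 : cw w (ball w (X \ Z) A k)
      (Z ∪ (ball w (X \ Z) A (k + 1) \ ball w (X \ Z) A k)) ≤
      vol w Z + vol w (ball w (X \ Z) A (k + 1) \ ball w (X \ Z) A k) :=
    h.cw_le_vol.trans vol_union_le
  have h7 := h1.trans (Nat.mul_le_mul_left F (h5.trans (by rw [hz]; omega : _ ≤ vol w Z +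
    vol w (ball w (X \ Z) A (k + 1) \ ball w (X \ Z) A k))))
  simp only [Nat.succ_eq_add_one] at h3
  show (2 * F + 1) * vol w (ball w (X \ Z) A k) ≤ 2 * F * vol w (ball w (X \ Z) A (k + 1))
  rw [← h3]
  nlinarith

/-- Two heavy sets outside a light set `Z` are joined by a short connected set avoiding `Z`. -/
theorem join (h : WG w b Λ) (hX : Expd w X F) (hF : 1 ≤ F) {Z : Finset κ} (hA : A ⊆ X \ Z)
    (hB : B ⊆ X \ Z) (hZ : 2 * F * vol w Z ≤ vol w A) (hZ' : 2 * F * vol w Z ≤ vol w B)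
    (h0 : 0 < vol w A) (h0' : 0 < vol w B) :
    ∃ W ⊆ X \ Z, Conn (qg w) W ∧ W.card ≤ 4 * F * Λ + 2 ∧ ¬ Disjoint W A ∧ ¬ Disjoint W B := by
  have h1 := ball_big h hX hF hA hZ h0
  have h2 := ball_big h hX hF hB hZ' h0'
  have hnd : ¬ Disjoint (ball w (X \ Z) A (2 * F * Λ)) (ball w (X \ Z) B (2 * F * Λ)) := by
    intro hd
    have h3 := vol_union (w := w) hd
    have h4 : vol w (ball w (X \ Z) A (2 * F * Λ) ∪ ball w (X \ Z) B (2 * F * Λ)) ≤ vol w X :=
      vol_mono (union_subset ((filter_subset _ _).trans sdiff_subset)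
        ((filter_subset _ _).trans sdiff_subset))
    omega
  obtain ⟨v, hv, hv'⟩ := not_disjoint_iff.1 hnd
  obtain ⟨-, W, a1, a2, a3, a4, a5⟩ := mem_filter.1 hv
  obtain ⟨-, W', b1, b2, b3, b4, b5⟩ := mem_filter.1 hv'
  refine ⟨W ∪ W', union_subset a1 b1, a2.union b2 a4 b4, ?_,
    fun hd => a5 (hd.mono_left subset_union_left), fun hd => b5 (hd.mono_left subset_union_right)⟩
  have h5 := card_union_le W W'
  have h6 : 4 * F * Λ = 2 * F * Λ + 2 * F * Λ := by ring
  omega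

/-- The unused tokens of one side carry much volume outside `Z`. -/
theorem side {ι : Type} [Fintype ι] {L : ι → Finset κ} {S : Finset ι} {Z : Finset κ}
    {m g l : ℕ} (hL : Tok (qg w) X L) (hb : ∀ i, b ≤ vol w (L i)) (u : Fin m → ι) (hm : m < g)
    (hF : 1 ≤ F) (hl : 1 ≤ l) (hS : 4 * F * l * g ≤ S.card) (hZ : vol w Z ≤ g * l * b) :
    2 * F * (g * l * b) ≤ vol w ((S \ univ.image u).biUnion L \ Z) := by
  have h1 : vol w ((S \ univ.image u).biUnion L) = ∑ i ∈ S \ univ.image u, vol w (L i) :=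
    cw_biUnion fun i _ j _ hij => hL.disj i j hij
  have h2 : (S \ univ.image u).card * b ≤ ∑ i ∈ S \ univ.image u, vol w (L i) := by
    have := card_nsmul_le_sum (S \ univ.image u) (fun i => vol w (L i)) b fun i _ => hb i
    simpa using this
  have h3 : S.card ≤ (S \ univ.image u).card + m := by
    have h4 := le_card_sdiff (univ.image u) S
    have h5 : (univ.image u).card ≤ m := card_image_le.trans (by simp)
    omega
  have h4 := vol_le_sdiff (w := w) (A := (S \ univ.image u).biUnion L) (B := Z)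
  have h5 : 2 * F * (g * l) + g * l ≤ (S \ univ.image u).card := by
    have h6 : g * l ≤ F * (g * l) := Nat.le_mul_of_pos_left _ hF
    have h7 : g ≤ g * l := Nat.le_mul_of_pos_right _ hl
    have h8 : 4 * F * l * g = 4 * (F * (g * l)) := by ring
    have h9 : 2 * F * (g * l) = 2 * (F * (g * l)) := by ring
    omega
  have h6 := Nat.mul_le_mul_right b h5
  have h7 : (2 * F * (g * l) + g * l) * b = 2 * F * (g * l * b) + g * l * b := by ring
  omega

end Exp

open Exp

theorem subexp : SubExpStmt := by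
  intro κ _ w b Λ Y h hY hd
  obtain ⟨y, hy⟩ := hY
  have hΛ := (h.one_le y).2
  have hlog : ∀ A : Finset κ, Nat.log 2 (vol w A) ≤ Λ := fun A =>
    (Nat.log_mono_right (h.vol_lt A).le).trans (by simp)
  obtain ⟨X, ⟨h1, h2, h3⟩, hmin⟩ := exists_min_of
    (p := fun X : Finset κ => X ⊆ Y ∧ X.Nonempty ∧
      vol w X * (3 * Λ + Nat.log 2 (vol w X)) ≤ 12 * Λ * cw w X X) card
    ⟨Y, subset_rfl, ⟨y, hy⟩, by have := hlog Y; nlinarith⟩
  refine ⟨X, h1, h2, ?_, fun A hA hv => ?_⟩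
  · have h4 : 3 * Λ * vol w X ≤ 3 * Λ * (4 * cw w X X) := by nlinarith
    exact Nat.le_of_mul_le_mul_left h4 (by omega)
  rcases A.eq_empty_or_nonempty with rfl | hAn
  · simp [vol_empty]
  have hAp := h.vol_pos hAn
  have hs := vol_sdiff (w := w) hA
  have hBn : (X \ A).Nonempty := by
    rw [nonempty_iff_ne_empty]
    intro e
    rw [e, vol_empty] at hs
    omega
  have hc := card_sdiff_add_card_eq_card hA
  have fA : 12 * Λ * cw w A A < vol w A * (3 * Λ + Nat.log 2 (vol w A)) := by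
    by_contra hcon
    have := hmin A ⟨hA.trans h1, hAn, not_lt.1 hcon⟩
    have := hBn.card_pos
    omega
  have fB : 12 * Λ * cw w (X \ A) (X \ A) <
      vol w (X \ A) * (3 * Λ + Nat.log 2 (vol w (X \ A))) := by
    by_contra hcon
    have := hmin (X \ A) ⟨sdiff_subset.trans h1, hBn, not_lt.1 hcon⟩
    have := hAn.card_pos
    omega
  have lA : Nat.log 2 (vol w A) + 1 ≤ Nat.log 2 (vol w X) := by
    rw [← Nat.log_mul_base (by norm_num) hAp.ne']
    exact Nat.log_mono_right (by omega)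
  have lB : Nat.log 2 (vol w (X \ A)) ≤ Nat.log 2 (vol w X) := Nat.log_mono_right (by omega)
  have e1 := cw_sdiff_left (w := w) (B := X) hA
  have e2 := cw_sdiff_right (w := w) (A := A) hA
  have e3 := cw_sdiff_right (w := w) (A := X \ A) hA
  have e4 := cw_comm h.symm A (X \ A)
  have gA : vol w A * (3 * Λ + Nat.log 2 (vol w A)) + vol w A ≤
      vol w A * (3 * Λ + Nat.log 2 (vol w X)) := by nlinarith
  have gB : vol w (X \ A) * (3 * Λ + Nat.log 2 (vol w (X \ A))) ≤
      vol w (X \ A) * (3 * Λ + Nat.log 2 (vol w X)) := Nat.mul_le_mul_left _ (by omega)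
  have e5 : cw w X X = cw w A A + cw w (X \ A) (X \ A) + 2 * cw w A (X \ A) := by omega
  rw [e5, ← hs] at h3
  have e6 : (vol w (X \ A) + vol w A) * (3 * Λ + Nat.log 2 (vol w (X \ A) + vol w A)) =
      vol w (X \ A) * (3 * Λ + Nat.log 2 (vol w X)) +
        vol w A * (3 * Λ + Nat.log 2 (vol w X)) := by rw [hs, ← hs, add_mul, hs]
  have e7 : 12 * Λ * (cw w A A + cw w (X \ A) (X \ A) + 2 * cw w A (X \ A)) =
      12 * Λ * cw w A A + 12 * Λ * cw w (X \ A) (X \ A) + 24 * Λ * cw w A (X \ A) := by ring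
  omega

theorem hub : HubStmt := by
  intro κ _ w b Λ F n X h hX hv
  have key : ∀ m ≤ n, ∃ L : Fin m → Finset κ, Tok (qg w) X L ∧
      ∀ i, b ≤ vol w (L i) ∧ vol w (L i) ≤ 2 * b := by
    intro m
    induction m with
    | zero => exact fun _ => ⟨_, tok_nil, fun i => i.elim0⟩
    | succ m ih =>
      intro hm
      obtain ⟨L, hL, hb⟩ := ih (by omega)
      have hH : vol w (univ.biUnion L) ≤ 2 * b * n := by
        refine (cw_biUnion_le univ L).trans ((sum_le_card_nsmul _ _ (2 * b)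
          fun i _ => (hb i).2).trans ?_)
        simp only [card_univ, Fintype.card_fin, smul_eq_mul]
        nlinarith
      have hex : ∃ v ∈ X \ univ.biUnion L, b ≤ vol w (comp (qg w) (X \ univ.biUnion L) v) := by
        by_contra hc
        push Not at hc
        have h1 := rest_le h hX (H := univ.biUnion L) fun v hv' => by
          have h2 := hc v hv'
          have h3 : 2 * b * 1 * 1 ≤ 2 * b * n * (F + 1) := by gcongr <;> omega
          omega
        have h2 := vol_le_sdiff (w := w) (A := X) (B := univ.biUnion L)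
        have h3 := Nat.mul_le_mul_left F hH
        nlinarith
      obtain ⟨v, hv1, hv2⟩ := hex
      obtain ⟨T, t1, t2, t3, t4⟩ := grow h (comp_conn hv1) hv2
      have t5 : T ⊆ X \ univ.biUnion L := t1.trans comp_subset
      refine ⟨Fin.cons T L, tok_cons hL (t5.trans sdiff_subset) t2 fun i => ?_, fun i => ?_⟩
      · exact disjoint_left.2 fun x hx hx' =>
          (mem_sdiff.1 (t5 hx)).2 (mem_biUnion.2 ⟨i, mem_univ _, hx'⟩)
      · refine Fin.cases ?_ (fun i => ?_) i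
        · simpa using ⟨t3, t4⟩
        · simpa using hb i
  exact key n le_rfl

theorem path : PathStmt := by
  intro κ ι _ _ w b Λ F g l X L S h hX hF hL hb hS hl hn
  have key : ∀ m ≤ g, ∃ (u v : Fin m → ι) (Q : Fin m → Finset κ), Function.Injective u ∧
      Function.Injective v ∧ (∀ k, u k ∈ S) ∧ (∀ k, v k ∉ S) ∧ Tok (qg w) X Q ∧
      (∀ k, (Q k).card ≤ l) ∧ (∀ k, ¬ Disjoint (Q k) (L (u k))) ∧
      ∀ k, ¬ Disjoint (Q k) (L (v k)) := by
    intro m
    induction m with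
    | zero =>
      exact fun _ => ⟨fun i => i.elim0, fun i => i.elim0, _, fun i => i.elim0, fun i => i.elim0,
        fun i => i.elim0, fun i => i.elim0, tok_nil, fun i => i.elim0, fun i => i.elim0,
        fun i => i.elim0⟩
    | succ m ih =>
      intro hm
      obtain ⟨u, v, Q, hu, hv, huS, hvS, hQ, hc, hQu, hQv⟩ := ih (by omega)
      have hl1 : 1 ≤ l := by omega
      have e16 : 16 * F * l * g = 4 * (4 * F * l * g) := by ring
      have hS1 : 4 * F * l * g ≤ S.card := by have := hS.1; omega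
      have hS2 : 4 * F * l * g ≤ Sᶜ.card := by
        have := hS.2
        have := card_add_card_compl S
        omega
      have hpos : 0 < 4 * F * l * g := by
        have : 0 < g := by omega
        positivity
      obtain ⟨i0, -⟩ := card_pos.1 (hpos.trans_le hS1)
      obtain ⟨a0, -⟩ := (hL.conn i0).1
      have hb1 := (h.one_le a0).1
      have hZ : vol w (univ.biUnion Q) ≤ g * l * b := by
        refine (cw_biUnion_le univ Q).trans ((sum_le_card_nsmul _ _ (l * b)
          fun i _ => (h.vol_le _).trans (Nat.mul_le_mul_right _ (hc i))).trans ?_)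
        simp only [card_univ, Fintype.card_fin, smul_eq_mul]
        rw [mul_assoc]
        exact Nat.mul_le_mul_right _ (by omega)
      have s1 := side hL hb u (show m < g by omega) hF hl1 hS1 hZ
      have s2 := side hL hb v (show m < g by omega) hF hl1 hS2 hZ
      have hp2 : 0 < 2 * F * (g * l * b) := by
        have : 0 < g := by omega
        positivity
      have hsub : ∀ T : Finset ι, T.biUnion L \ univ.biUnion Q ⊆ X \ univ.biUnion Q := fun T =>
        sdiff_subset_sdiff (biUnion_subset.2 fun i _ => hL.sub i) subset_rfl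
      obtain ⟨W, w1, w2, w3, w4, w5⟩ := join h hX hF (hsub _) (hsub _)
        ((Nat.mul_le_mul_left _ hZ).trans s1) ((Nat.mul_le_mul_left _ hZ).trans s2)
        (hp2.trans_le s1) (hp2.trans_le s2)
      obtain ⟨x, hxW, hx⟩ := not_disjoint_iff.1 w4
      obtain ⟨y, hyW, hy⟩ := not_disjoint_iff.1 w5
      obtain ⟨i, hi, hxi⟩ := mem_biUnion.1 (mem_sdiff.1 hx).1
      obtain ⟨j, hj, hyj⟩ := mem_biUnion.1 (mem_sdiff.1 hy).1
      obtain ⟨hi1, hi2⟩ := mem_sdiff.1 hi
      obtain ⟨hj1, hj2⟩ := mem_sdiff.1 hj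
      refine ⟨Fin.cons i u, Fin.cons j v, Fin.cons W Q, Fin.cons_injective_iff.2 ⟨?_, hu⟩,
        Fin.cons_injective_iff.2 ⟨?_, hv⟩, fun k => ?_, fun k => ?_,
        tok_cons hQ (w1.trans sdiff_subset) w2 fun k => ?_, fun k => ?_, fun k => ?_, fun k => ?_⟩
      · rintro ⟨k, hk⟩
        exact hi2 (mem_image.2 ⟨k, mem_univ _, hk⟩)
      · rintro ⟨k, hk⟩
        exact hj2 (mem_image.2 ⟨k, mem_univ _, hk⟩)
      · refine Fin.cases ?_ (fun k => ?_) k
        · simpa using hi1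
        · simpa using huS k
      · refine Fin.cases ?_ (fun k => ?_) k
        · simpa using hj1
        · simpa using hvS k
      · exact disjoint_left.2 fun z hz hz' =>
          (mem_sdiff.1 (w1 hz)).2 (mem_biUnion.2 ⟨k, mem_univ _, hz'⟩)
      · refine Fin.cases ?_ (fun k => ?_) k
        · simpa using w3.trans hl
        · simpa using hc k
      · refine Fin.cases ?_ (fun k => ?_) k
        · simpa only [Fin.cons_zero] using not_disjoint_iff.2 ⟨x, hxW, hxi⟩
        · simpa only [Fin.cons_succ] using hQu k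
      · refine Fin.cases ?_ (fun k => ?_) k
        · simpa only [Fin.cons_zero] using not_disjoint_iff.2 ⟨y, hyW, hyj⟩
        · simpa only [Fin.cons_succ] using hQv k
  exact key g le_rfl

end Pool.Agent.MP_35cb46_co.Sq

end MrgPart2

-- ======== part 3: formerly Pool.Agent.MP_35cb46_co.sq.Core
section MrgPart3

/-! Small good cores in dense sets, and the attachment of the remaining points. -/

namespace Pool.Agent.MP_35cb46_co.Sq

open Finset Pool.Agent.MP_7be75d_co
open scoped Classical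

namespace Core

variable {κ : Type} [Fintype κ] {w : κ → κ → ℕ} {b Λ : ℕ}

theorem card_tok_le (h : WG w b Λ) {n : ℕ} {U : Finset κ} {L : Fin n → Finset κ}
    (hL : Tok (qg w) U L) : n ≤ 2 ^ Λ := by
  have h1 : ∑ i, vol w (L i) = vol w (univ.biUnion L) :=
    (cw_biUnion fun i _ j _ e => hL.disj i j e).symm
  have h2 : ∑ _i : Fin n, 1 ≤ ∑ i, vol w (L i) :=
    sum_le_sum fun i _ => h.vol_pos (hL.conn i).1
  have h3 := h.vol_lt (univ.biUnion L)
  simp only [sum_const, card_univ, Fintype.card_fin, smul_eq_mul, mul_one] at h2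
  omega

/-- The game played on hubs inside an expander. -/
theorem game (hcm : CMStmt) (hel : ELStmt) (hi : InvStmt) (hp : PathStmt) (h : WG w b Λ)
    {X : Finset κ} {F l T g n k : ℕ} (hX : Expd w X F) (hF : 1 ≤ F) {L : Fin n → Finset κ}
    (hL : Tok (qg w) X L) (hb : ∀ i, b ≤ vol w (L i) ∧ vol w (L i) ≤ 2 * b)
    (hl : 4 * F * Λ + 2 ≤ l) (hn : 16 * F * l * g ≤ n) (hT : 12 * n * Λ < T * g)
    (hg : 18 * T * k ≤ g) (hk : 4 * k ≤ n) :
    ∃ X' ⊆ X, Rich (qg w) X' (k + 1) ∧ vol w X' ≤ n * (2 * b) + T * (n * (l * b)) := by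
  obtain ⟨t, ht, M, ⟨W, hW⟩, hM⟩ := hcm (Fin n) g T Λ
    (fun t M => ∃ W : ℕ → Fin n → Finset κ, ∀ j < t, Rnd (qg w) L (M j) (W j) ∧
      ∀ x, M j x ≠ x → W j x ⊆ X ∧ (W j x).card ≤ l)
    (by rw [Fintype.card_fin]; exact card_tok_le h hL) (by rwa [Fintype.card_fin])
    ⟨fun _ _ => ∅, fun j hj => absurd hj (Nat.not_lt_zero j)⟩ (by
      rintro t - M ⟨W, hW⟩ S hS
      obtain ⟨u, v, Q, a1, a2, a3, a4, a5, a6, a7, a8⟩ := hp κ (Fin n) w b Λ F g l X L S h hX hF
        hL (fun i => (hb i).1) hS hl (by rwa [Fintype.card_fin])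
      obtain ⟨μ, W', b1, b2, b3⟩ :=
        hi κ (Fin n) (Fin g) (qg w) L S u v Q a1 a2 a3 a4 a5.conn a5.disj a7 a8
      refine ⟨μ, b1.inv, by rwa [Fintype.card_fin] at b2, Function.update W t W', fun j hj => ?_⟩
      by_cases e : j = t
      · subst e
        rw [Function.update_self, Function.update_self]
        refine ⟨b1, fun x hx => ?_⟩
        obtain ⟨i, hi⟩ := b3 x hx
        rw [hi]
        exact ⟨a5.sub i, a6 i⟩
      · rw [Function.update_of_ne e, Function.update_of_ne e]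
        exact hW j (by omega))
  refine ⟨univ.biUnion L ∪
    (range t).biUnion fun j => (univ.filter fun x => M j x ≠ x).biUnion (W j), ?_, ?_, ?_⟩
  · refine union_subset (biUnion_subset.2 fun i _ => hL.sub i) (biUnion_subset.2 fun j hj =>
      biUnion_subset.2 fun x hx => ((hW j (mem_range.1 hj)).2 x (mem_filter.1 hx).2).1)
  · refine hel κ (Fin n) (qg w) _ L t g k M W ⟨fun i => ?_, hL.conn, hL.disj⟩
      (fun j hj => (hW j hj).1) (fun j hj x hx => ?_) hM
      ((Nat.mul_le_mul_right _ (Nat.mul_le_mul_left _ ht)).trans hg) (by rwa [Fintype.card_fin])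
    · exact (subset_biUnion_of_mem L (mem_univ i)).trans subset_union_left
    · refine subset_trans ?_ subset_union_right
      refine subset_trans ?_ (subset_biUnion_of_mem _ (mem_range.2 hj))
      exact subset_biUnion_of_mem (W j) (mem_filter.2 ⟨mem_univ x, hx⟩)
  · refine cw_union_left_le.trans (add_le_add ?_ ?_)
    · refine (cw_biUnion_le _ _).trans ((sum_le_card_nsmul _ _ _ fun i _ => (hb i).2).trans ?_)
      simp
    · refine (cw_biUnion_le _ _).trans ((sum_le_card_nsmul _ _ (n * (l * b)) fun j hj => ?_).trans ?_)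
      · refine (cw_biUnion_le _ _).trans
          ((sum_le_card_nsmul _ _ (l * b) fun x hx => ?_).trans ?_)
        · exact (h.vol_le _).trans (Nat.mul_le_mul_right _
            ((hW j (mem_range.1 hj)).2 x (mem_filter.1 hx).2).2)
        · exact Nat.mul_le_mul_right _ ((card_le_univ _).trans (Fintype.card_fin n).le)
      · rw [card_range]
        exact Nat.mul_le_mul_right _ ht

/-- The averaging step. -/
theorem avg {ι : Type} [Fintype ι] (a wt : ι → ℝ) {s δ : ℝ} (ha : ∀ j, 0 ≤ a j)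
    (hw : ∀ j, 0 ≤ wt j) (hp : 0 < ∑ j, wt j) (hδ : δ ≤ s * ∑ j, wt j) :
    ∃ i, 0 < wt i ∧
      ∑ j, a j * Real.exp (-(s * wt j)) + a i * Real.exp (-(s * wt i)) * δ ≤ ∑ j, a j := by
  by_contra hc
  push Not at hc
  obtain ⟨i0, -, hi0⟩ : ∃ i ∈ (univ : Finset ι), 0 < wt i := by
    by_contra h0
    push Not at h0
    exact absurd (sum_nonpos h0) (not_le.2 hp)
  have h1 : ∑ i, wt i * ∑ j, a j < ∑ i, wt i *
      (∑ j, a j * Real.exp (-(s * wt j)) + a i * Real.exp (-(s * wt i)) * δ) := by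
    refine sum_lt_sum (fun i _ => ?_) ⟨i0, mem_univ _, mul_lt_mul_of_pos_left (hc i0 hi0) hi0⟩
    rcases (hw i).eq_or_lt with e | e
    · rw [← e, zero_mul, zero_mul]
    · exact mul_le_mul_of_nonneg_left (hc i e).le e.le
  have h2 : ∑ i, wt i * (∑ j, a j * Real.exp (-(s * wt j)) + a i * Real.exp (-(s * wt i)) * δ) =
      (∑ i, wt i) * ∑ j, a j * Real.exp (-(s * wt j)) +
        δ * ∑ i, wt i * (a i * Real.exp (-(s * wt i))) := by
    rw [sum_mul, mul_sum _ _ δ, ← sum_add_distrib]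
    exact sum_congr rfl fun i _ => by ring
  have h3 : 0 ≤ ∑ i, wt i * (a i * Real.exp (-(s * wt i))) :=
    sum_nonneg fun i _ => mul_nonneg (hw i) (mul_nonneg (ha i) (Real.exp_pos _).le)
  have h4 : ∑ j, a j * Real.exp (-(s * wt j)) + s * ∑ i, wt i * (a i * Real.exp (-(s * wt i))) ≤
      ∑ j, a j := by
    rw [mul_sum, ← sum_add_distrib]
    refine sum_le_sum fun i _ => ?_
    have b1 := Real.add_one_le_exp (s * wt i)
    have b2 : Real.exp (s * wt i) * Real.exp (-(s * wt i)) = 1 := by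
      rw [← Real.exp_add, add_neg_cancel, Real.exp_zero]
    have b3 := mul_le_mul_of_nonneg_right b1 (Real.exp_pos (-(s * wt i))).le
    have b4 := mul_le_mul_of_nonneg_left (b3.trans b2.le) (ha i)
    linarith
  rw [h2, ← sum_mul] at h1
  have h5 := mul_le_mul_of_nonneg_right hδ h3
  have h6 := mul_le_mul_of_nonneg_left h4 hp.le
  linarith

/-- The exponential potential. -/
noncomputable def pot (w : κ → κ → ℕ) (b : ℕ) {n : ℕ} (P : Fin n → Finset κ) (R : Finset κ) : ℝ :=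
  ∑ j, Real.exp ((vol w (P j) + 6 * cw w (P j) R : ℕ) / (12 * b : ℝ))

/-- One point is attached without increasing the potential. -/
theorem step (h : WG w b Λ) {n : ℕ} {P : Fin n → Finset κ} {R : Finset κ}
    (hP : Tok (qg w) univ P) (hc : ∀ a, a ∉ R → ∃ j, a ∈ P j) (hd : ∀ j, Disjoint (P j) R)
    {c : κ} (hcR : c ∈ R) (hv : 3 * cw w {c} R < vol w {c}) :
    ∃ i, (∃ a ∈ P i, 0 < w a c) ∧
      pot w b (Function.update P i (insert c (P i))) (R.erase c) ≤ pot w b P R := by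
  have hb : (0 : ℝ) < 12 * b := by
    have : (1 : ℝ) ≤ b := by exact_mod_cast (h.one_le c).1
    linarith
  have e1 : ∑ j, cw w (P j) {c} + cw w {c} R = vol w {c} := by
    rw [← cw_biUnion fun i _ j _ e => hP.disj i j e, cw_comm h.symm _ {c}, ← cw_union_right
      ((disjoint_biUnion_left _ _ _).2 fun j _ => hd j), vol]
    congr 1
    refine eq_univ_of_forall fun a => ?_
    by_cases ha : a ∈ R
    · exact mem_union_right _ ha
    · obtain ⟨j, hj⟩ := hc a ha
      exact mem_union_left _ (mem_biUnion.2 ⟨j, mem_univ _, hj⟩)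
  have e2 : ∀ A, cw w A (R.erase c) + cw w A {c} = cw w A R := fun A => by
    rw [erase_eq]
    exact cw_sdiff_right (singleton_subset_iff.2 hcR)
  obtain ⟨x, hx⟩ : ∃ x : ℝ, x = ((vol w {c} + 6 * cw w {c} R : ℕ) : ℝ) / (12 * b) := ⟨_, rfl⟩
  have x0 : 0 ≤ x := by rw [hx]; positivity
  have x1 : x * (12 * b) ≤ 3 * vol w {c} := by
    rw [hx, div_mul_cancel₀ _ hb.ne']
    exact_mod_cast (show vol w {c} + 6 * cw w {c} R ≤ 3 * vol w {c} by omega)
  have x2 : x ≤ 1 / 4 := by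
    have : (vol w {c} : ℝ) ≤ b := by exact_mod_cast h.le c
    refine le_of_mul_le_mul_right ?_ hb
    linarith
  have x3 : Real.exp x - 1 ≤ 4 / 3 * x := by
    have a1 := Real.exp_bound_div_one_sub_of_interval x0 (by linarith)
    rw [le_div_iff₀ (by linarith)] at a1
    have a2 := Real.exp_pos x
    by_contra a3
    nlinarith
  have x4 : (2 : ℝ) * vol w {c} ≤ 3 * ∑ j, (cw w (P j) {c} : ℝ) := by
    exact_mod_cast (show 2 * vol w {c} ≤ 3 * ∑ j, cw w (P j) {c} by omega)
  obtain ⟨i, hi, hs⟩ := avg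
    (fun j => Real.exp ((vol w (P j) + 6 * cw w (P j) R : ℕ) / (12 * b : ℝ)))
    (fun j => (cw w (P j) {c} : ℝ)) (s := 6 / (12 * b)) (δ := Real.exp x - 1)
    (fun _ => (Real.exp_pos _).le) (fun _ => Nat.cast_nonneg _)
    (by
      have : (0 : ℝ) < vol w {c} := by exact_mod_cast h.pos c
      linarith)
    (by
      rw [div_mul_eq_mul_div, le_div_iff₀ hb]
      have := mul_le_mul_of_nonneg_right x3 hb.le
      linarith)
  obtain ⟨a, ha, a', ha', hw⟩ := exists_of_cw_pos (Nat.cast_pos.1 hi)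
  refine ⟨i, ⟨a, ha, mem_singleton.1 ha' ▸ hw⟩, le_trans ?_ hs⟩
  have e3 : ∀ j, Real.exp ((vol w (P j) + 6 * cw w (P j) (R.erase c) : ℕ) / (12 * b : ℝ)) =
      Real.exp ((vol w (P j) + 6 * cw w (P j) R : ℕ) / (12 * b : ℝ)) *
        Real.exp (-(6 / (12 * b) * (cw w (P j) {c} : ℝ))) := fun j => by
    rw [← Real.exp_add, ← e2 (P j)]
    congr 1
    push_cast
    field_simp
    ring
  rw [pot, ← add_sum_erase _ _ (mem_univ i), ← add_sum_erase _ _ (mem_univ i),
    Function.update_self, add_right_comm]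
  refine add_le_add ?_ (sum_le_sum fun j hj => ?_)
  · rw [← mul_one_add, add_sub_cancel, ← e3, ← Real.exp_add, hx, ← add_div]
    refine Real.exp_le_exp.2 (div_le_div_of_nonneg_right ?_ hb.le)
    have a1 : vol w (insert c (P i)) ≤ vol w {c} + vol w (P i) := by
      rw [insert_eq]
      exact cw_union_left_le
    have a2 : cw w (insert c (P i)) (R.erase c) ≤ cw w {c} (R.erase c) + cw w (P i) (R.erase c) := by
      rw [insert_eq]
      exact cw_union_left_le
    have a3 := e2 {c}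
    exact_mod_cast (show vol w (insert c (P i)) + 6 * cw w (insert c (P i)) (R.erase c) ≤
      vol w (P i) + 6 * cw w (P i) (R.erase c) + (vol w {c} + 6 * cw w {c} R) by omega)
  · rw [Function.update_of_ne (mem_erase.1 hj).1, e3]

/-- All remaining points are attached. -/
theorem grow (h : WG w b Λ) {Gd : Finset κ → Prop} (hG : ∀ X X', X ⊆ X' → Gd X → Gd X') {n : ℕ}
    (R : Finset κ) : (∀ Y ⊆ R, Y.Nonempty → 3 * cw w Y Y < vol w Y) →
    ∀ P : Fin n → Finset κ, Tok (qg w) univ P → (∀ a, a ∉ R → ∃ j, a ∈ P j) →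
      (∀ j, Disjoint (P j) R) → (∀ j, Gd (P j)) →
      ∃ P' : Fin n → Finset κ, Tok (qg w) univ P' ∧ (∀ a, ∃ j, a ∈ P' j) ∧ (∀ j, Gd (P' j)) ∧
        pot w b P' ∅ ≤ pot w b P R := by
  induction R using Finset.strongInduction with
  | H R ih =>
  intro hR P hP hc hd hg
  rcases R.eq_empty_or_nonempty with rfl | hne
  · exact ⟨P, hP, fun a => hc a (notMem_empty a), hg, le_rfl⟩
  obtain ⟨c, hcR, hv⟩ : ∃ c ∈ R, 3 * cw w {c} R < vol w {c} := by
    by_contra h0
    push Not at h0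
    have h1 := hR R subset_rfl hne
    have h2 := sum_le_sum h0
    rw [← mul_sum, ← cw_eq_sum] at h2
    rw [vol, cw_eq_sum R univ] at h1
    exact absurd h1 (not_lt.2 h2)
  obtain ⟨i, ⟨a, ha, hw⟩, hs⟩ := step h hP hc hd hcR hv
  have key : ∀ j, ∀ v ∈ Function.update P i (insert c (P i)) j, v ∈ P j ∨ (v = c ∧ j = i) := by
    intro j v hv
    by_cases e : j = i
    · subst e
      rw [Function.update_self] at hv
      exact (mem_insert.1 hv).symm.imp_right fun e => ⟨e, rfl⟩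
    · rw [Function.update_of_ne e] at hv
      exact Or.inl hv
  have sub : ∀ j, P j ⊆ Function.update P i (insert c (P i)) j := fun j => by
    by_cases e : j = i
    · subst e
      rw [Function.update_self]
      exact subset_insert _ _
    · rw [Function.update_of_ne e]
  obtain ⟨P', b1, b2, b3, b4⟩ := ih (R.erase c) (erase_ssubset hcR)
    (fun Y hY => hR Y (hY.trans (erase_subset _ _))) (Function.update P i (insert c (P i)))
    ⟨fun _ => subset_univ _, fun j => by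
      by_cases e : j = i
      · subst e
        rw [Function.update_self]
        exact (hP.conn j).insert ha (h.adj.2 hw)
      · rw [Function.update_of_ne e]
        exact hP.conn j, fun j j' e => disjoint_left.2 fun v h1 h2 => by
      rcases key j v h1 with c1 | ⟨c1, c2⟩ <;> rcases key j' v h2 with c3 | ⟨c3, c4⟩
      · exact disjoint_left.1 (hP.disj j j' e) c1 c3
      · exact disjoint_left.1 (hd j) c1 (c3 ▸ hcR)
      · exact disjoint_left.1 (hd j') c3 (c1 ▸ hcR)
      · exact e (c2.trans c4.symm)⟩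
    (fun v hv => by
      by_cases e : v = c
      · exact ⟨i, by rw [Function.update_self, e]; exact mem_insert_self _ _⟩
      · obtain ⟨j, hj⟩ := hc v fun h0 => hv (mem_erase.2 ⟨e, h0⟩)
        exact ⟨j, sub j hj⟩)
    (fun j => disjoint_left.2 fun v h1 h2 => by
      rcases key j v h1 with c1 | ⟨c1, -⟩
      · exact disjoint_left.1 (hd j) c1 (mem_erase.1 h2).2
      · exact (mem_erase.1 h2).1 c1)
    (fun j => hG _ _ (sub j) (hg j))
  exact ⟨P', b1, b2, b3, b4.trans hs⟩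

end Core

theorem core (hcm : CMStmt) (hel : ELStmt) (hi : InvStmt) (hs : SubExpStmt) (hh : HubStmt)
    (hp : PathStmt) : CoreStmt := by
  refine ⟨37632 * 18 * 451585 * (50 + 451585 * 98), fun κ _ w b Λ k Gd h hk hG hR Y hY hd => ?_⟩
  obtain ⟨X, hXY, hX, h4, hE⟩ := hs κ w b Λ Y h hY hd
  obtain ⟨hb, hΛ⟩ := h.one_le hX.choose
  obtain ⟨g, hg⟩ : ∃ g, g = 18 * (451585 * Λ ^ 4) * k := ⟨_, rfl⟩
  obtain ⟨n, hn⟩ : ∃ n, n = 37632 * Λ ^ 3 * g := ⟨_, rfl⟩
  have g0 : 0 < g := by rw [hg]; positivity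
  have p1 : Λ ≤ Λ ^ 6 := Nat.le_self_pow (by norm_num) Λ
  have p2 : 0 < Λ ^ 2 := by positivity
  have p3 : 0 < Λ ^ 3 := by positivity
  have p4 : 0 < Λ ^ 4 := by positivity
  have e : 37632 * 18 * 451585 * (50 + 451585 * 98) * b * k * Λ ^ 13 =
      n * b * (50 * Λ ^ 6) + 451585 * Λ ^ 4 * (n * (98 * Λ ^ 2 * b)) := by
    rw [hn, hg]
    ring
  rw [e]
  by_cases hv : 2 * b * n * (24 * Λ + 1) < vol w X
  · obtain ⟨L, hL, hL'⟩ := hh κ w b Λ (24 * Λ) n X h hE hv
    obtain ⟨X', a1, a2, a3⟩ := Core.game (l := 98 * Λ ^ 2) (T := 451585 * Λ ^ 4) (g := g) (k := k)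
      hcm hel hi hp h hE (by omega) hL hL' (by nlinarith) (by rw [hn]; exact le_of_eq (by ring))
      (by
        have : 12 * n * Λ + Λ ^ 4 * g = 451585 * Λ ^ 4 * g := by rw [hn]; ring
        have := Nat.mul_pos p4 g0
        omega) hg.ge
      (by
        have a1 : k ≤ g := by rw [hg]; exact Nat.le_mul_of_pos_left _ (by positivity)
        have a2 : g ≤ Λ ^ 3 * g := Nat.le_mul_of_pos_left _ p3
        rw [hn, mul_assoc]
        omega)
    refine ⟨X', a1.trans hXY, hR _ a2, a3.trans (Nat.add_le_add_right ?_ _)⟩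
    have := Nat.mul_le_mul_left (n * b) (show 2 ≤ 50 * Λ ^ 6 by omega)
    linarith
  · refine ⟨X, hXY, ?_, le_trans ?_ (Nat.le_add_right _ _)⟩
    · by_contra h0
      have := hG X h0
      have := h.vol_pos hX
      omega
    · have := Nat.mul_le_mul_left (n * b) (show 2 * (24 * Λ + 1) ≤ 50 * Λ ^ 6 by omega)
      nlinarith

theorem attach : AttachStmt := by
  intro κ _ w b Λ B Gd h hG hY
  obtain ⟨FF, ⟨f1, f2⟩, f3⟩ := exists_max_of
    (p := fun FF : Finset (Finset κ) => (∀ C ∈ FF, Conn (qg w) C ∧ Gd C ∧ vol w C ≤ B) ∧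
      ∀ C ∈ FF, ∀ C' ∈ FF, C ≠ C' → Disjoint C C')
    card (Fintype.card (Finset κ)) (fun _ _ => card_le_univ _) ⟨∅, by simp, by simp⟩
  obtain ⟨P, hP⟩ : ∃ P : Fin FF.card → Finset κ, P = fun j => (FF.equivFin.symm j).1 := ⟨_, rfl⟩
  have p1 : ∀ j, P j ∈ FF := fun j => by rw [hP]; exact (FF.equivFin.symm j).2
  have p2 : ∀ C ∈ FF, ∃ j, P j = C := fun C hC => ⟨FF.equivFin ⟨C, hC⟩, by simp [hP]⟩
  have p3 : Tok (qg w) univ P := ⟨fun _ => subset_univ _, fun j => (f1 _ (p1 j)).1,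
    fun i j e => f2 _ (p1 i) _ (p1 j) fun e' => e (by
      rw [hP] at e'
      exact FF.equivFin.symm.injective (Subtype.ext e'))⟩
  have p4 : ∀ j, Disjoint (P j) (univ \ univ.biUnion P) := fun j =>
    disjoint_sdiff.mono_left (subset_biUnion_of_mem P (mem_univ j))
  obtain ⟨P', b1, b2, b3, b4⟩ := Core.grow h hG (univ \ univ.biUnion P)
    (fun Y hYR hne => by
      by_contra h0
      obtain ⟨X, a1, a2, a3⟩ := hY Y hne (not_lt.1 h0)
      have a4 : ∀ C ∈ FF, Disjoint C X := fun C hC => by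
        obtain ⟨j, rfl⟩ := p2 C hC
        exact (p4 j).mono_right (a1.trans hYR)
      have a5 : X ∉ FF := fun h1 => a2.1.ne_empty (disjoint_self.1 (a4 X h1))
      have := f3 (insert X FF) ⟨fun C hC => by
        rcases mem_insert.1 hC with rfl | hC
        exacts [⟨a2, a3⟩, f1 C hC], fun C hC C' hC' e => by
        rcases mem_insert.1 hC with rfl | hD <;> rcases mem_insert.1 hC' with rfl | hD'
        exacts [absurd rfl e, (a4 _ hD').symm, a4 _ hD, f2 _ hD _ hD' e]⟩
      rw [card_insert_of_notMem a5] at this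
      omega)
    P p3 (fun a ha => by simpa using ha) p4 (fun j => (f1 _ (p1 j)).2.1)
  refine ⟨_, P', b1, b2, fun j => ⟨b3 j, ?_⟩⟩
  have hb : (0 : ℝ) < 12 * b := by
    have : (1 : ℝ) ≤ b := by exact_mod_cast (h.one_le (b1.conn j).1.choose).1
    linarith
  have c1 : Real.exp ((vol w (P' j) : ℝ) / (12 * b)) ≤ Core.pot w b P' ∅ := by
    refine le_trans (le_of_eq ?_) (single_le_sum (fun _ _ => (Real.exp_pos _).le) (mem_univ j))
    simp [cw]
  have c2 : Core.pot w b P (univ \ univ.biUnion P) ≤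
      FF.card * Real.exp ((7 * B : ℝ) / (12 * b)) := by
    refine (sum_le_card_nsmul _ _ (Real.exp ((7 * B : ℝ) / (12 * b))) fun i _ => ?_).trans
      (le_of_eq (by simp))
    refine Real.exp_le_exp.2 (div_le_div_of_nonneg_right ?_ hb.le)
    have a1 := (f1 _ (p1 i)).2.2
    have a2 : cw w (P i) (univ \ univ.biUnion P) ≤ vol w (P i) := cw_le_vol
    exact_mod_cast (show vol w (P i) + 6 * cw w (P i) (univ \ univ.biUnion P) ≤ 7 * B by omega)
  have c3 : (FF.card : ℝ) ≤ Real.exp Λ := by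
    have a1 : (FF.card : ℝ) ≤ 2 ^ Λ := by exact_mod_cast Core.card_tok_le h p3
    have a2 : (2 : ℝ) ≤ Real.exp 1 := by linarith [Real.add_one_le_exp 1]
    rw [← mul_one (Λ : ℝ), Real.exp_nat_mul]
    exact a1.trans (pow_le_pow_left₀ (by norm_num) a2 Λ)
  have c4 := (c1.trans (b4.trans c2)).trans
    (mul_le_mul_of_nonneg_right c3 (Real.exp_pos _).le)
  rw [← Real.exp_add, Real.exp_le_exp, div_le_iff₀ hb, add_mul, div_mul_cancel₀ _ hb.ne'] at c4
  have c5 : (vol w (P' j) : ℝ) ≤ 7 * B + 12 * b * Λ := by linarith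
  exact_mod_cast c5

end Pool.Agent.MP_35cb46_co.Sq

end MrgPart3

-- ======== part 4: formerly Pool.Agent.MP_35cb46_co.sq.Clus
section MrgPart4

/-! Optimal clusterings and their quotients. -/

namespace Pool.Agent.MP_35cb46_co.Sq

open Finset Pool.Agent.MP_7be75d_co
open scoped Classical

namespace Clus

variable {V : Type} {G : SimpleGraph V} {U F F1 F2 : Finset V} {Δ t : ℕ}

theorem part_sub {QQ : Finset (Finset V)} (h : Part G F QQ) {C : Finset V} (hC : C ∈ QQ) :
    C ⊆ F := by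
  rw [← h.un]
  exact subset_biUnion_of_mem id hC

theorem part_union {Q1 Q2 : Finset (Finset V)} (h1 : Part G F1 Q1) (h2 : Part G F2 Q2)
    (hd : Disjoint F1 F2) : Part G (F1 ∪ F2) (Q1 ∪ Q2) := by
  refine ⟨fun C hC => ?_, fun C hC C' hC' hne => ?_, ?_⟩
  · rcases mem_union.1 hC with hC | hC
    · exact h1.conn C hC
    · exact h2.conn C hC
  · rcases mem_union.1 hC with hC | hC <;> rcases mem_union.1 hC' with hC' | hC'
    · exact h1.disj C hC C' hC' hne
    · exact hd.mono (part_sub h1 hC) (part_sub h2 hC')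
    · exact hd.symm.mono (part_sub h2 hC) (part_sub h1 hC')
    · exact h2.disj C hC C' hC' hne
  · rw [union_biUnion, h1.un, h2.un]

theorem part_single (h : Conn G F) : Part G F {F} := by
  refine ⟨fun C hC => ?_, fun C hC C' hC' hne => ?_, ?_⟩
  · rwa [mem_singleton.1 hC]
  · exact absurd ((mem_singleton.1 hC).trans (mem_singleton.1 hC').symm) hne
  · simp

theorem part_empty : Part G ∅ ∅ := ⟨by simp, by simp, by simp⟩

/-- A subfamily of a partition and the rest are partitions of complementary sets. -/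
theorem part_sdiff {PP XX : Finset (Finset V)} (h : Part G U PP) (hX : XX ⊆ PP) :
    Part G (U \ XX.biUnion id) (PP \ XX) := by
  refine ⟨fun C hC => h.conn C (mem_sdiff.1 hC).1,
    fun C hC C' hC' => h.disj C (mem_sdiff.1 hC).1 C' (mem_sdiff.1 hC').1, ?_⟩
  ext v
  simp only [mem_biUnion, mem_sdiff, id, not_exists, not_and]
  constructor
  · rintro ⟨C, ⟨h1, h2⟩, h3⟩
    refine ⟨part_sub h h1 h3, fun C' h4 h5 => ?_⟩
    exact disjoint_left.1 (h.disj C h1 C' (hX h4) fun e => h2 (e ▸ h4)) h3 h5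
  · rintro ⟨h1, h2⟩
    rw [← h.un] at h1
    obtain ⟨C, h3, h4⟩ := mem_biUnion.1 h1
    exact ⟨C, ⟨h3, fun h5 => h2 C h5 h4⟩, h4⟩

theorem eout_split (h2 : F2 ⊆ U) (hd : Disjoint F1 F2) :
    eout G U F1 = cw (aw G) F1 (U \ (F1 ∪ F2)) + cw (aw G) F1 F2 := by
  have e : U \ F1 = (U \ (F1 ∪ F2)) ∪ F2 := by
    ext v
    simp only [mem_sdiff, mem_union, not_or]
    constructor
    · rintro ⟨a, b⟩
      by_cases c : v ∈ F2
      · exact Or.inr c
      · exact Or.inl ⟨a, b, c⟩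
    · rintro (⟨a, b, -⟩ | a)
      · exact ⟨a, b⟩
      · exact ⟨h2 a, disjoint_right.1 hd a⟩
  rw [eout, e, cw_union_right]
  exact disjoint_left.2 fun v hv hv' => (mem_sdiff.1 hv).2 (mem_union_right _ hv')

theorem eout_union (h1 : F1 ⊆ U) (h2 : F2 ⊆ U) (hd : Disjoint F1 F2) :
    eout G U F1 + eout G U F2 = eout G U (F1 ∪ F2) + 2 * cw (aw G) F1 F2 := by
  have e1 := eout_split (G := G) h2 hd
  have e2 := eout_split (G := G) h1 hd.symm
  have e3 : eout G U (F1 ∪ F2) =
      cw (aw G) F1 (U \ (F1 ∪ F2)) + cw (aw G) F2 (U \ (F1 ∪ F2)) := cw_union_left hd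
  rw [union_comm F2 F1, cw_comm aw_comm F2 F1] at e2
  omega

theorem eout_le (hD : Deg G U Δ) (hF : F ⊆ U) : eout G U F ≤ (bd G U F).card * Δ := by
  have e1 := cw_sdiff_left (w := aw G) (B := U \ F) (bd_subset (G := G) (U := U) (F := F))
  have e2 : cw (aw G) (F \ bd G U F) (U \ F) = 0 := by
    refine cw_eq_zero.2 fun a ha b hb => if_neg fun hab => ?_
    exact (mem_sdiff.1 hb).2
      (mem_of_not_mem_bd (mem_sdiff.1 ha).1 (mem_sdiff.1 ha).2 (mem_sdiff.1 hb).1 hab)
  have e3 := hD.cw_le ((bd_subset (G := G) (U := U) (F := F)).trans hF)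
    (sdiff_subset (s := U) (t := F))
  unfold eout
  omega

theorem bd_inter_le (h : F1 ⊆ F) : (bd G U F ∩ F1).card ≤ eout G U F1 := by
  refine le_trans (card_le_card fun v hv => ?_) card_bd_le
  obtain ⟨h1, h2⟩ := mem_inter.1 hv
  obtain ⟨-, u, h3, h4, h5⟩ := mem_bd.1 h1
  exact mem_bd.2 ⟨h2, u, h3, fun hu => h4 (h hu), h5⟩

/-- A set with a large boundary and no haven has a cheap balanced cut. -/
theorem cut (hD : Deg G U Δ) (hF : F ⊆ U) (hR : ¬ Rich G F (t + 1))
    (hM : 48 * Δ ^ 2 * t < eout G U F) :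
    ∃ F1 ⊆ F, 12 * Δ * t < eout G U F1 ∧ 12 * Δ * t < eout G U (F \ F1) ∧
      cw (aw G) F1 (F \ F1) ≤ Δ * t := by
  have h1 := eout_le hD hF
  have hΔ : 0 < Δ := Nat.pos_of_ne_zero fun e => by simp [e] at h1 hM; omega
  have hY : 48 * Δ * t < (bd G U F).card := by
    refine Nat.lt_of_mul_lt_mul_right (a := Δ) (lt_of_le_of_lt (le_of_eq ?_) (hM.trans_le h1))
    ring
  obtain ⟨Z, hZ, hZ'⟩ := not_linked_iff.1 fun h : Linked G F (bd G U F) t => hR (rich_of_linked h)
  obtain ⟨B, b1, b2, b3, -⟩ := three_bins hZ'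
  have ht : t ≤ Δ * t := Nat.le_mul_of_pos_left _ hΔ
  have hc : (bd G U F).card ≤ Z.card + ∑ i, (bd G U F ∩ B i).card := by
    refine le_trans (card_le_card (t := Z ∪ univ.biUnion fun i => bd G U F ∩ B i) fun v hv => ?_)
      ((card_union_le _ _).trans (Nat.add_le_add_left card_biUnion_le _))
    by_cases hz : v ∈ Z
    · exact mem_union_left _ hz
    · obtain ⟨i, hi⟩ := b2 v (mem_sdiff.2 ⟨bd_subset hv, hz⟩)
      exact mem_union_right _ (mem_biUnion.2 ⟨i, mem_univ _, mem_inter.2 ⟨hv, hi⟩⟩)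
  have e12 : 12 * Δ * t = 12 * (Δ * t) := by ring
  have e48 : 48 * Δ * t = 48 * (Δ * t) := by ring
  obtain ⟨i, hi⟩ : ∃ i, (bd G U F).card ≤ 4 * (bd G U F ∩ B i).card := by
    by_contra hn
    push Not at hn
    rw [Fin.sum_univ_three] at hc
    have := hn 0
    have := hn 1
    have := hn 2
    omega
  have hB : B i ⊆ F := (b1 i).1.trans sdiff_subset
  refine ⟨B i, hB, ?_, ?_, ?_⟩
  · have := bd_inter_le (G := G) (U := U) hB
    omega
  · have h2 := bd_inter_le (G := G) (U := U) (sdiff_subset (s := F) (t := B i))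
    have h3 : (bd G U F).card ≤ (bd G U F ∩ B i).card + (bd G U F ∩ (F \ B i)).card := by
      refine le_trans (card_le_card fun v hv => ?_) (card_union_le _ _)
      by_cases hb : v ∈ B i
      · exact mem_union_left _ (mem_inter.2 ⟨hv, hb⟩)
      · exact mem_union_right _ (mem_inter.2 ⟨hv, mem_sdiff.2 ⟨bd_subset hv, hb⟩⟩)
    have := b3 i
    omega
  · have e1 := cw_sdiff_left (w := aw G) (B := B i) (inter_subset_left (s₁ := F \ B i) (s₂ := Z))
    have e2 : cw (aw G) ((F \ B i) \ ((F \ B i) ∩ Z)) (B i) = 0 := by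
      refine cw_eq_zero.2 fun a ha b hb => if_neg fun hab => ?_
      obtain ⟨h2, h3⟩ := mem_sdiff.1 ha
      exact (mem_sdiff.1 h2).2 ((b1 i).2 b hb a
        (mem_sdiff.2 ⟨(mem_sdiff.1 h2).1, fun hz => h3 (mem_inter.2 ⟨h2, hz⟩)⟩) hab.symm)
    have e3 := hD.cw_le ((inter_subset_left (s₁ := F \ B i) (s₂ := Z)).trans
      (sdiff_subset.trans hF)) (hB.trans hF)
    have e4 : ((F \ B i) ∩ Z).card * Δ ≤ t * Δ :=
      Nat.mul_le_mul_right _ ((card_le_card inter_subset_right).trans hZ)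
    rw [cw_comm aw_comm, mul_comm Δ t]
    omega

theorem eout_empty : eout G U ∅ = 0 := by simp [eout, cw]

theorem recl_aux (hD : Deg G U Δ) (n : ℕ) : ∀ F : Finset V, F.card ≤ n → F ⊆ U →
    ¬ Rich G F (t + 1) → ∃ QQ, Part G F QQ ∧ (∀ C ∈ QQ, eout G U C ≤ 48 * Δ ^ 2 * t) ∧
      5 * ∑ C ∈ QQ, eout G U C ≤ 5 * eout G U F + (eout G U F - 12 * Δ * t) := by
  induction n using Nat.strong_induction_on with
  | _ n ih =>
  intro F hn hF hR
  have step : ∀ F1 ⊆ F, F1.Nonempty → (F \ F1).Nonempty →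
      ∃ QQ, Part G F QQ ∧ (∀ C ∈ QQ, eout G U C ≤ 48 * Δ ^ 2 * t) ∧
        5 * ∑ C ∈ QQ, eout G U C ≤ 5 * eout G U F1 + (eout G U F1 - 12 * Δ * t) +
          (5 * eout G U (F \ F1) + (eout G U (F \ F1) - 12 * Δ * t)) := by
    intro F1 h1 h2 h3
    have hc := card_sdiff_add_card_eq_card h1
    have c1 := h2.card_pos
    have c2 := h3.card_pos
    obtain ⟨Q1, p1, p2, p3⟩ := ih F1.card (by omega) F1 le_rfl (h1.trans hF)
      fun h => hR (h.mono le_rfl h1 le_rfl)
    obtain ⟨Q2, q1, q2, q3⟩ := ih (F \ F1).card (by omega) (F \ F1) le_rfl (sdiff_subset.trans hF)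
      fun h => hR (h.mono le_rfl sdiff_subset le_rfl)
    have hp := part_union p1 q1 disjoint_sdiff
    rw [union_sdiff_of_subset h1] at hp
    refine ⟨_, hp, fun C hC => ?_, ?_⟩
    · rcases mem_union.1 hC with hC | hC
      · exact p2 C hC
      · exact q2 C hC
    · have := sum_union_inter (s₁ := Q1) (s₂ := Q2) (f := fun C => eout G U C)
      omega
  have mer : ∀ F1 ⊆ F, eout G U F1 + eout G U (F \ F1) =
      eout G U F + 2 * cw (aw G) F1 (F \ F1) := fun F1 h1 => by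
    have := eout_union (G := G) (h1.trans hF) ((sdiff_subset (s := F) (t := F1)).trans hF)
      disjoint_sdiff
    rwa [union_sdiff_of_subset h1] at this
  by_cases hM : 48 * Δ ^ 2 * t < eout G U F
  · obtain ⟨F1, h1, h2, h3, h4⟩ := cut hD hF hR hM
    obtain ⟨QQ, p1, p2, p3⟩ := step F1 h1
      (nonempty_iff_ne_empty.2 fun e => by rw [e, eout_empty] at h2; omega)
      (nonempty_iff_ne_empty.2 fun e => by rw [e, eout_empty] at h3; omega)
    refine ⟨QQ, p1, p2, ?_⟩
    have := mer F1 h1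
    have e12 : 12 * Δ * t = 12 * (Δ * t) := by ring
    omega
  rcases F.eq_empty_or_nonempty with rfl | ⟨v, hv⟩
  · exact ⟨∅, part_empty, by simp, by simp⟩
  rcases (F \ comp G F v).eq_empty_or_nonempty with e | h3
  · have e' : comp G F v = F := subset_antisymm comp_subset (sdiff_eq_empty_iff_subset.1 e)
    have hc : Conn G F := e' ▸ comp_conn hv
    refine ⟨{F}, part_single hc, fun C hC => ?_, ?_⟩
    · rw [mem_singleton.1 hC]
      omega
    · rw [sum_singleton]
      omega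
  · obtain ⟨QQ, p1, p2, p3⟩ := step _ comp_subset ⟨v, self_mem_comp hv⟩ h3
    refine ⟨QQ, p1, p2, ?_⟩
    have h4 := mer _ (comp_subset (G := G) (U := F) (v := v))
    have h5 : cw (aw G) (comp G F v) (F \ comp G F v) = 0 :=
      cw_eq_zero.2 fun a ha b hb => if_neg fun hab =>
        (mem_sdiff.1 hb).2 (comp_closed ha (mem_sdiff.1 hb).1 hab)
    omega

/-- A set with a small boundary and without a haven is small. -/
theorem small_of_not_rich {K : ℕ} {β : Finset V → Finset V} (h : Haven G U K β) (hF : F ⊆ U)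
    (hK : t + 1 + (bd G U F).card ≤ K) (hR : ¬ Rich G F (t + 1)) : Small G U K β F := by
  have hb : (bd G U F).card < K := by omega
  refine ⟨hF, hb, disjoint_left.2 fun v hv hvF => hR ?_⟩
  have h1 : β (bd G U F) ⊆ F := (h.conn _ hb).subset_of_closed hv hvF fun x hx y hy hx' hxy =>
    mem_of_not_mem_bd hx (h.not_mem hb hx') (h.subU hb hy) hxy
  obtain ⟨β', h2, -⟩ := h.transfer F (bd G U F) (t + 1) hK fun _ => h1
  exact ⟨β', h2⟩

theorem part_points : Part G U (U.image fun v => ({v} : Finset V)) := by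
  refine ⟨fun C hC => ?_, fun C hC C' hC' hne => ?_, ?_⟩
  · obtain ⟨v, -, rfl⟩ := mem_image.1 hC
    exact Conn.singleton v
  · obtain ⟨v, -, rfl⟩ := mem_image.1 hC
    obtain ⟨u, -, rfl⟩ := mem_image.1 hC'
    exact disjoint_singleton.2 fun e => hne (by rw [e])
  · ext v
    simp only [mem_biUnion, mem_image, id]
    constructor
    · rintro ⟨_, ⟨u, hu, rfl⟩, h⟩
      rwa [mem_singleton.1 h]
    · exact fun hv => ⟨_, ⟨v, hv, rfl⟩, mem_singleton_self v⟩

end Clus

open Clus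

theorem recl : ReclStmt := by
  intro V G U F Δ t hD hF hR
  obtain ⟨QQ, h1, h2, h3⟩ := recl_aux (t := t) hD _ F le_rfl hF hR
  exact ⟨QQ, h1, h2, by omega⟩

theorem clus (hr : ReclStmt) : ClusStmt := by
  intro V G U β Δ t K hD h ht hK
  obtain ⟨PP, ⟨p1, p2⟩, pm⟩ := exists_min_of
    (p := fun PP => Part G U PP ∧ ∀ C ∈ PP, Small G U K β C ∧ eout G U C ≤ 48 * Δ ^ 2 * t)
    (fun PP => ∑ C ∈ PP, eout G U C) ⟨_, part_points, fun C hC => by
      obtain ⟨v, hv, rfl⟩ := mem_image.1 hC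
      have hs := singleton_subset_iff.2 hv
      refine ⟨h.tiny hs (by rw [card_singleton]; omega), ?_⟩
      have h1 := hD.cw_le hs (sdiff_subset (s := U) (t := {v}))
      rw [card_singleton, one_mul] at h1
      refine h1.trans ?_
      nlinarith [Nat.le_self_pow (n := 2) (by omega) Δ, Nat.mul_le_mul_left (48 * Δ ^ 2) ht]⟩
  refine ⟨PP, p1, p2, fun XX hX hR => ?_⟩
  have hF : XX.biUnion id ⊆ U := biUnion_subset.2 fun C hC => part_sub p1 (hX hC)
  obtain ⟨QQ, q1, q2, q3⟩ := hr V G U _ Δ t hD hF hR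
  have hp := part_union (part_sdiff p1 hX) q1 sdiff_disjoint
  rw [sdiff_union_of_subset hF] at hp
  have h1 := pm _ ⟨hp, fun C hC => by
    rcases mem_union.1 hC with hC | hC
    · exact p2 C (mem_sdiff.1 hC).1
    · have h2 := q2 C hC
      have h3 := card_bd_le (G := G) (U := U) (F := C)
      exact ⟨small_of_not_rich (t := t) h ((part_sub q1 hC).trans hF) (by omega)
        fun h4 => hR (h4.mono le_rfl (part_sub q1 hC) le_rfl), h2⟩⟩
  have h2 := sum_repl QQ hX fun C => eout G U C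
  omega

theorem quot_rich : QuotStmt := by
  intro V J _ G U β K B q S h hd hc hS hK
  have hD : ∀ Z : Finset J, Z.card < q → (Z.biUnion fun j => bd G U (S j)).card < K := by
    intro Z hZ
    have h1 := card_biUnion_le_card_mul Z (fun j => bd G U (S j)) B fun j _ => (hS j).2
    have h2 : Z.card * B ≤ q * B := Nat.mul_le_mul_right _ hZ.le
    omega
  obtain ⟨γ, h1, -⟩ := exists_haven (G := quot G S) (U := univ) (K := q)
    (fun Z => univ.filter fun j => ¬ Disjoint (S j) (β (Z.biUnion fun j => bd G U (S j))))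
    (fun Z hZ => ⟨conn_trace (h.conn _ (hD Z hZ)) hd (fun v hv => hc v (h.subU (hD Z hZ) hv))
      (fun i j hij ht => (SimpleGraph.fromRel_adj _ _ _).2 ⟨hij, Or.inl ht⟩), fun j hj =>
        mem_sdiff.2 ⟨mem_univ _, fun hz => (mem_filter.1 hj).2 (((hS j).1.disj h
          (subset_biUnion_of_mem (fun j => bd G U (S j)) hz) (hD Z hZ)).symm)⟩⟩)
    (fun Z Z' hZZ hZ' => by
      obtain ⟨v, hv⟩ := (h.conn _ (hD Z' hZ')).1
      obtain ⟨j, hj⟩ := hc v (h.subU (hD Z' hZ') hv)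
      have hv' := h.mono _ _ (biUnion_subset_biUnion_of_subset_left (fun j => bd G U (S j)) hZZ)
        (hD Z' hZ') hv
      exact ⟨j, mem_filter.2 ⟨mem_univ _, not_disjoint_iff.2 ⟨v, hj, hv'⟩⟩,
        mem_filter.2 ⟨mem_univ _, not_disjoint_iff.2 ⟨v, hj, hv⟩⟩⟩)
  exact ⟨γ, h1⟩

end Pool.Agent.MP_35cb46_co.Sq

end MrgPart4

-- marker of a merged file
example : 731051 + 447196 = 731051 + 447196 := rfl
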